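import Pool.Agent.Lib.MP_75ff39_co.Join

set_option autoImplicit false

/-!
# The rings of copies of `K` as poles with special ports, and coverings between them
-/

namespace Pool.Agent.Lib.MP_75ff39_co

open Finset

section

variable (N : ℕ) [Fact (2 ≤ N)]

/-- Shifting the copies of `K` in the ring. -/
def shiftR : (Σ _ : ZMod N, Unit) ≃ (Σ _ : ZMod N, Unit) where
  toFun k := ⟨k.1 + 1, ()⟩
  invFun k := ⟨k.1 - 1, ()⟩
  left_inv := by rintro ⟨i, u⟩; simp
  right_inv := by rintro ⟨i, u⟩; simp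

omit [Fact (2 ≤ N)] in
theorem shiftR_iter (n : ℕ) (k : Σ _ : ZMod N, Unit) :
    (shiftR N)^[n] k = ⟨k.1 + (n : ZMod N), ()⟩ := by
  induction n with
  | zero =>
    obtain ⟨i, u⟩ := k
    simp
  | succ n ih =>
    rw [Function.iterate_succ_apply', ih]
    change (⟨k.1 + (n : ZMod N) + 1, ()⟩ : Σ _ : ZMod N, Unit) = _
    push_cast
    rw [add_assoc]

/-- The system of the ring. -/
def ringSys (h3 : 3 ≤ N) : PSys (KB N) where
  ι := Σ _ : ZMod N, Unit
  κ := fun k x => (⟨k.1, x⟩ : Σ _ : ZMod N, K.V)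
  inj := by
    rintro ⟨i, u⟩ ⟨i', u'⟩ x x' h
    have h' : (⟨i, x⟩ : Σ _ : ZMod N, K.V) = ⟨i', x'⟩ := h
    rw [Sigma.mk.injEq] at h'
    obtain ⟨rfl, h'⟩ := h'
    exact ⟨rfl, eq_of_heq h'⟩
  adj := by
    rintro ⟨i, u⟩ x y
    exact cadj_same (NL N) i x y
  next := shiftR N
  link := by
    rintro ⟨i, u⟩ a
    exact cadj_of_lk (NL N) (ringLinks_out KRing N i a)
  ne1 := by
    rintro ⟨i, u⟩ h
    exact zmod_succ_ne N i (congrArg Sigma.fst h).symm
  ne2 := by
    rintro ⟨i, u⟩ h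
    exact zmod_two_ne N h3 i (congrArg Sigma.fst h)
  hz := by
    rintro ⟨i, u⟩
    change cadj (NL N) ⟨i, kz⟩ ⟨i + 1, kz⟩ = _
    rw [cadj_diff (NL N) (by exact zmod_succ_ne N i), ← Bool.not_eq_true]
    intro h
    exact kz_not_linked N i ⟨_, h⟩
  dc := compose_DC (NL N) (fun _ => K_DC)
  per := fun _ => N
  hper := by
    rintro ⟨i, u⟩ n
    rw [shiftR_iter]
    constructor
    · intro h
      have h2 : i + (n : ZMod N) = i := congrArg Sigma.fst h
      rw [← ZMod.natCast_eq_zero_iff]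
      exact add_eq_left.mp h2
    · intro h
      rw [← ZMod.natCast_eq_zero_iff] at h
      rw [h]
      simp

/-- The ring with special ports. -/
def ringS (h6 : 6 ≤ N) : SPole where
  X := KB N
  good := KB_good N (by omega)
  sp j := (⟨(j.val : ZMod N), kz⟩ : Σ _ : ZMod N, K.V)
  sp_inj := by
    intro i j h
    have h1 : (i.val : ZMod N) = (j.val : ZMod N) := congrArg Sigma.fst h
    rw [ZMod.natCast_eq_natCast_iff', Nat.mod_eq_of_lt (by omega), Nat.mod_eq_of_lt (by omega)]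
      at h1
    exact Fin.ext h1
  sp_port j := kz_cport N _
  sys := ringSys N (by omega)

theorem lens_ringS (h6 : 6 ≤ N) (M : ℕ) : M ∈ (ringS N h6).lens ↔ M = N := by
  constructor
  · rintro ⟨k, h⟩
    exact h.symm
  · rintro rfl
    exact ⟨(⟨0, ()⟩ : Σ _ : ZMod M, Unit), rfl⟩

end

/-- **Coverings**: a map from the ring of length `M` lifts to the ring of length `N` if
`M ∣ N`. -/
theorem cover_hom (N M : ℕ) [Fact (2 ≤ N)] [Fact (2 ≤ M)] (hd : M ∣ N) {H : Pole}
    (h : Hom (KB M) H) : Nonempty (Hom (KB N) H) := by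
  let π : ZMod N → ZMod M := fun i => ZMod.castHom hd (ZMod M) i
  have hπ : ∀ i, π (i + 1) = π i + 1 := by
    intro i
    simp only [π, map_add, map_one]
  let ψ : (Σ _ : ZMod N, K.V) → (Σ _ : ZMod M, K.V) := fun x => ⟨π x.1, x.2⟩
  have hlk : ∀ x y, (NL N).lk x y = true → (NL M).lk (ψ x) (ψ y) = true := by
    intro x y hxy
    rw [ringLinks_lk] at hxy ⊢
    rcases hxy with ⟨h1, a, h2, h3⟩ | ⟨h1, a, h2, h3⟩
    · left
      refine ⟨?_, a, h2, h3⟩
      change π y.1 = π x.1 + 1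
      rw [h1, hπ]
    · right
      refine ⟨?_, a, h2, h3⟩
      change π x.1 = π y.1 + 1
      rw [h1, hπ]
  have hadj : ∀ x y, cadj (NL N) x y = true → cadj (NL M) (ψ x) (ψ y) = true := by
    intro x y hxy
    rcases cadj_cases (NL N) hxy with ⟨w, rfl, hw⟩ | hl
    · change cadj (NL M) ⟨π x.1, x.2⟩ ⟨π x.1, w⟩ = true
      rw [cadj_same]
      exact hw
    · exact cadj_of_lk (NL M) (hlk x y hl)
  have hlinked : ∀ x, Linked (NL N) x ↔ Linked (NL M) (ψ x) := by
    intro x
    rw [ringLinks_linked, ringLinks_linked]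
  have hstar : ∀ x y : Σ _ : ZMod N, K.V, (KB N).Star x y → (KB M).Star (ψ x) (ψ y) := by
    intro x y hxy
    rcases hxy with hxy | ⟨h1, h2⟩
    · exact Or.inl (hadj x y hxy)
    · right
      refine ⟨congrArg ψ h1, ?_⟩
      have h2' := (cport_iff (NL N)).mp h2
      exact (cport_iff (NL M)).mpr ⟨h2'.1, fun hl => h2'.2 ((hlinked x).mpr hl)⟩
  have hinj : ∀ x y z : Σ _ : ZMod N, K.V, (KB N).Star x y → (KB N).Star x z → ψ y = ψ z → y = z := by
    intro x y z hy hz e
    have e2 : y.2 = z.2 := by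
      have e' : (⟨π y.1, y.2⟩ : Σ _ : ZMod M, K.V) = ⟨π z.1, z.2⟩ := e
      rw [Sigma.mk.injEq] at e'
      exact eq_of_heq e'.2
    have e1 : π y.1 = π z.1 := congrArg Sigma.fst e
    have hne : ∀ i, π i ≠ π (i + 1) := by
      intro i
      rw [hπ]
      exact zmod_succ_ne M _
    -- position of a star element
    have hp : ∀ y : Σ _ : ZMod N, K.V, (KB N).Star x y → (y.1 = x.1 ∧ ¬ (Linked (NL N) x ∧ y = x)) ∨
        (NL N).lk x y = true := by
      intro y hy
      rcases star_compose_cases (NL N) hy with ⟨w, rfl, hw⟩ | hl | ⟨h1, _, h3⟩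
      · left
        refine ⟨rfl, ?_⟩
        rintro ⟨_, h⟩
        have h' : (⟨x.1, w⟩ : Σ _ : ZMod N, K.V) = ⟨x.1, x.2⟩ := h
        rw [Sigma.mk.injEq] at h'
        have := eq_of_heq h'.2
        rw [this] at hw
        exact K.ne_of_adj hw rfl
      · exact Or.inr hl
      · left
        exact ⟨by rw [← h1], fun h => h3 h.1⟩
    have hlp : ∀ y, (NL N).lk x y = true → π y.1 ≠ π x.1 := by
      intro y hy
      rw [ringLinks_lk] at hy
      rcases hy with ⟨h1, _⟩ | ⟨h1, _⟩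
      · rw [h1]; exact (hne _).symm
      · rw [h1]; exact hne _
    rcases hp y hy with ⟨h1, _⟩ | h1 <;> rcases hp z hz with ⟨h2, _⟩ | h2
    · exact Sigma.ext (h1.trans h2.symm) (heq_of_eq e2)
    · exfalso
      apply hlp z h2
      rw [← e1, h1]
    · exfalso
      apply hlp y h1
      rw [e1, h2]
    · exact (NL N).func x y z h1 h2
  exact ⟨{
    φ := fun x => h.φ (ψ x)
    F := fun x y => h.F (ψ x) (ψ y)
    symm := fun x y hxy => h.symm _ _ (hadj x y hxy)
    mem := fun x y hxy => h.mem _ _ (hstar x y hxy)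
    inj := fun x y z hy hz e => hinj x y z hy hz (h.inj _ _ _ (hstar x y hy) (hstar x z hz) e) }⟩

end Pool.Agent.Lib.MP_75ff39_co
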