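import Pool.Agent.Lib.MP_75ff39_co.Ops

set_option autoImplicit false

/-!
# A well connected colourable block with six ports
-/

namespace Pool.Agent.Lib.MP_75ff39_co

open Finset

/-- The cut of a pole whose edges are enumerated without repetition. -/
theorem ecut_eq_sum (X : Pole) {m : ℕ} (s t : Fin m → X.V)
    (h1 : ∀ u v, X.adj u v = true ↔ ∃ k, (s k = u ∧ t k = v) ∨ (s k = v ∧ t k = u))
    (h2 : ∀ k l, ((s k = s l ∧ t k = t l) ∨ (s k = t l ∧ t k = s l)) → k = l)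
    (A : Finset X.V) : X.ecut A = ∑ k, if (s k ∈ A ↔ t k ∈ A) then 0 else 1 := by
  classical
  have h3 : ∑ k, (if (s k ∈ A ↔ t k ∈ A) then 0 else 1) =
      (univ.filter (fun k => ¬ (s k ∈ A ↔ t k ∈ A))).card := by
    rw [card_filter]
    refine sum_congr rfl fun k _ => ?_
    by_cases h : (s k ∈ A ↔ t k ∈ A)
    · rw [if_pos h, if_neg (not_not.mpr h)]
    · rw [if_neg h, if_pos h]
  rw [h3]
  unfold Pole.ecut
  symm
  refine card_bij (fun k _ => if s k ∈ A then (s k, t k) else (t k, s k)) ?_ ?_ ?_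
  · intro k hk
    simp only [mem_filter, mem_univ, true_and] at hk ⊢
    by_cases h : s k ∈ A
    · rw [if_pos h]
      exact ⟨h, by tauto, (h1 _ _).mpr ⟨k, Or.inl ⟨rfl, rfl⟩⟩⟩
    · rw [if_neg h]
      exact ⟨by tauto, h, (h1 _ _).mpr ⟨k, Or.inr ⟨rfl, rfl⟩⟩⟩
  · intro k _ l _ e
    apply h2
    by_cases hk : s k ∈ A <;> by_cases hl : s l ∈ A
    · rw [if_pos hk, if_pos hl, Prod.mk.injEq] at e
      exact Or.inl e
    · rw [if_pos hk, if_neg hl, Prod.mk.injEq] at e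
      exact Or.inr e
    · rw [if_neg hk, if_pos hl, Prod.mk.injEq] at e
      exact Or.inr ⟨e.2, e.1⟩
    · rw [if_neg hk, if_neg hl, Prod.mk.injEq] at e
      exact Or.inl ⟨e.2, e.1⟩
  · rintro ⟨u, v⟩ h
    simp only [mem_filter, mem_univ, true_and] at h
    obtain ⟨hu, hv, hadj⟩ := h
    obtain ⟨k, ⟨rfl, rfl⟩ | ⟨rfl, rfl⟩⟩ := (h1 _ _).mp hadj
    · exact ⟨k, by simp only [mem_filter, mem_univ, true_and]; tauto, by rw [if_pos hu]⟩
    · exact ⟨k, by simp only [mem_filter, mem_univ, true_and]; tauto, by rw [if_neg hv]⟩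

/-- Ends of the edges of the block. -/
def blkS : Fin 15 → Fin 12 := ![0, 1, 2, 3, 4, 5, 0, 1, 2, 3, 4, 5, 6, 7, 8]

/-- Ends of the edges of the block. -/
def blkT : Fin 15 → Fin 12 := ![6, 7, 8, 9, 10, 11, 7, 8, 9, 10, 11, 6, 9, 10, 11]

/-- Adjacency of the block. -/
def blkAdj (u v : Fin 12) : Bool :=
  decide (∃ k, (blkS k = u ∧ blkT k = v) ∨ (blkS k = v ∧ blkT k = u))

/-- The block: `K_{3,3}` with the edges of a Hamiltonian cycle subdivided by six ports. -/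
def Blk : Pole where
  V := Fin 12
  adj := blkAdj
  port v := decide (v.val ≤ 5)
  symm := by decide +kernel
  irrefl := by decide +kernel
  deg := by decide +kernel

/-- Boolean test of the connectivity conditions. -/
def blkT3 (e a c : ℕ) : Bool :=
  (decide (c = 0) || decide (c = 12) || decide (2 ≤ e)) &&
  (decide (4 < e) || decide (a ≤ e) || decide (6 ≤ a + e)) &&
  (decide (e < a) || decide (4 < e + a) || decide (c ≤ 2)) &&
  (decide (e ≠ 2) || decide (2 < a) || decide (c ≤ 1))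

theorem blk_test : ∀ b0 b1 b2 b3 b4 b5 b6 b7 b8 b9 b10 b11 : Bool,
    blkT3 ((xor b0 b6).toNat + (xor b1 b7).toNat + (xor b2 b8).toNat + (xor b3 b9).toNat +
      (xor b4 b10).toNat + (xor b5 b11).toNat + (xor b0 b7).toNat + (xor b1 b8).toNat +
      (xor b2 b9).toNat + (xor b3 b10).toNat + (xor b4 b11).toNat + (xor b5 b6).toNat +
      (xor b6 b9).toNat + (xor b7 b10).toNat + (xor b8 b11).toNat)
    (b0.toNat + b1.toNat + b2.toNat + b3.toNat + b4.toNat + b5.toNat)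
    (b0.toNat + b1.toNat + b2.toNat + b3.toNat + b4.toNat + b5.toNat +
      b6.toNat + b7.toNat + b8.toNat + b9.toNat + b10.toNat + b11.toNat) = true := by
  decide +kernel

theorem blk_test' (b : Fin 12 → Bool) :
    blkT3 (∑ k : Fin 15, (xor (b (blkS k)) (b (blkT k))).toNat)
      (∑ v : Fin 12, (b v && decide (v.val ≤ 5)).toNat) (∑ v, (b v).toNat) = true := by
  have h := blk_test (b 0) (b 1) (b 2) (b 3) (b 4) (b 5) (b 6) (b 7) (b 8) (b 9) (b 10) (b 11)
  have he : ∑ k : Fin 15, (xor (b (blkS k)) (b (blkT k))).toNat =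
    (xor (b 0) (b 6)).toNat + (xor (b 1) (b 7)).toNat + (xor (b 2) (b 8)).toNat +
    (xor (b 3) (b 9)).toNat +
    (xor (b 4) (b 10)).toNat + (xor (b 5) (b 11)).toNat + (xor (b 0) (b 7)).toNat +
    (xor (b 1) (b 8)).toNat +
    (xor (b 2) (b 9)).toNat + (xor (b 3) (b 10)).toNat + (xor (b 4) (b 11)).toNat +
    (xor (b 5) (b 6)).toNat +
    (xor (b 6) (b 9)).toNat + (xor (b 7) (b 10)).toNat + (xor (b 8) (b 11)).toNat := by
    rw [Fin.sum_univ_def]
    simp only [List.finRange, List.ofFn, Fin.foldr, Fin.foldr.loop]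
    simp only [List.map_cons, List.map_nil, List.sum_cons, List.sum_nil]
    simp only [blkS, blkT]
    simp [add_assoc]
  have hc : ∑ v, (b v).toNat = (b 0).toNat + (b 1).toNat + (b 2).toNat + (b 3).toNat +
    (b 4).toNat + (b 5).toNat + (b 6).toNat + (b 7).toNat + (b 8).toNat + (b 9).toNat +
    (b 10).toNat + (b 11).toNat := by
    rw [Fin.sum_univ_def]
    simp only [List.finRange, List.ofFn, Fin.foldr, Fin.foldr.loop]
    simp only [List.map_cons, List.map_nil, List.sum_cons, List.sum_nil]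
    simp [add_assoc]
  have ha : ∑ v : Fin 12, (b v && decide (v.val ≤ 5)).toNat = (b 0).toNat + (b 1).toNat +
    (b 2).toNat + (b 3).toNat + (b 4).toNat + (b 5).toNat := by
    rw [Fin.sum_univ_def]
    simp only [List.finRange, List.ofFn, Fin.foldr, Fin.foldr.loop]
    simp only [List.map_cons, List.map_nil, List.sum_cons, List.sum_nil]
    simp [add_assoc]
  rw [he, hc, ha]
  exact h

theorem xor_toNat (p q : Prop) [Decidable p] [Decidable q] :
    (xor (decide p) (decide q)).toNat = if (p ↔ q) then 0 else 1 := by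
  by_cases hp : p <;> by_cases hq : q <;> simp [hp, hq]

instance : DecidableEq Blk.V := inferInstanceAs (DecidableEq (Fin 12))

theorem blkAdj_iff (u v : Fin 12) : blkAdj u v = true ↔
    ∃ k, (blkS k = u ∧ blkT k = v) ∨ (blkS k = v ∧ blkT k = u) := by
  unfold blkAdj
  rw [decide_eq_true_eq]

theorem blk_edge_inj : ∀ k l : Fin 15, ((blkS k = blkS l ∧ blkT k = blkT l) ∨
    (blkS k = blkT l ∧ blkT k = blkS l)) → k = l := by
  decide +kernel

theorem Blk_ecut (A : Finset (Fin 12)) : Blk.ecut A =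
    ∑ k : Fin 15, (xor (decide (blkS k ∈ A)) (decide (blkT k ∈ A))).toNat := by
  refine (ecut_eq_sum Blk blkS blkT blkAdj_iff blk_edge_inj A).trans ?_
  refine sum_congr rfl fun k _ => ?_
  by_cases h1 : blkS k ∈ A <;> by_cases h2 : blkT k ∈ A
  · refine (if_pos (iff_of_true h1 h2)).trans ?_
    simp [h1, h2]
  · refine (if_neg (fun h => h2 (h.mp h1))).trans ?_
    simp [h1, h2]
  · refine (if_neg (fun h => h1 (h.mpr h2))).trans ?_
    simp [h1, h2]
  · refine (if_pos (iff_of_false h1 h2)).trans ?_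
    simp [h1, h2]

theorem Blk_acount (A : Finset (Fin 12)) : Blk.acount A =
    ∑ v : Fin 12, (decide (v ∈ A) && decide (v.val ≤ 5)).toNat := by
  have h0 : Blk.acount A = (@Finset.filter (Fin 12) (fun v => decide (v.val ≤ 5) = true)
      (fun _ => inferInstance) A).card := rfl
  have h : Blk.acount A = ((univ : Finset (Fin 12)).filter
      (fun v => v ∈ A ∧ decide (v.val ≤ 5) = true)).card := by
    rw [h0]
    congr 1
    ext v
    simp only [mem_filter, mem_univ, true_and]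
  rw [h, card_filter]
  refine sum_congr rfl fun v _ => ?_
  by_cases h1 : v ∈ A <;> by_cases h2 : v.val ≤ 5 <;> simp [h1, h2]

theorem card_eq_toNat (A : Finset (Fin 12)) : A.card = ∑ v : Fin 12, (decide (v ∈ A)).toNat := by
  have h : A = univ.filter (fun v => v ∈ A) := by ext; simp
  conv_lhs => rw [h]
  rw [card_filter]
  refine sum_congr rfl fun v _ => ?_
  by_cases h1 : v ∈ A <;> simp [h1]

theorem Blk_good : Good Blk := by
  have key : ∀ A : Finset (Fin 12),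
      (A.card = 0 ∨ A.card = 12 ∨ 2 ≤ Blk.ecut A) ∧
      (4 < Blk.ecut A ∨ Blk.acount A ≤ Blk.ecut A ∨ 6 ≤ Blk.acount A + Blk.ecut A) ∧
      (Blk.ecut A < Blk.acount A ∨ 4 < Blk.ecut A + Blk.acount A ∨ A.card ≤ 2) ∧
      (Blk.ecut A ≠ 2 ∨ 2 < Blk.acount A ∨ A.card ≤ 1) := by
    intro A
    have h := blk_test' (fun v => decide (v ∈ A))
    rw [← Blk_ecut, ← Blk_acount, ← card_eq_toNat] at h
    simp only [blkT3, Bool.and_eq_true, Bool.or_eq_true, decide_eq_true_eq] at h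
    tauto
  have hu : Blk.acount univ = 6 := by decide +kernel
  refine ⟨by rw [hu]; norm_num, ?_, ?_, ?_, ?_⟩
  · intro A hne hA
    rcases (key A).1 with h | h | h
    · exact absurd (card_eq_zero.mp h) (nonempty_iff_ne_empty.mp hne)
    · exfalso
      apply hA
      have h' : (A : Finset (Fin 12)).card = 12 := h
      exact eq_univ_of_card (α := Fin 12) A (h'.trans rfl)
    · exact h
  · intro A h4
    rw [hu]
    rcases (key A).2.1 with h | h | h
    · omega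
    · exact Or.inl h
    · exact Or.inr h
  · intro A h1 h2
    rcases (key A).2.2.1 with h | h | h
    · omega
    · omega
    · exact h
  · intro A h1 h2
    rcases (key A).2.2.2 with h | h | h
    · exact absurd h1 h
    · omega
    · exact h

/-- Colouring table with all ports of colour `0`. -/
def blkTab0 : List (List ℕ) := [[0, 0, 0, 0, 0, 0, 1, 2, 0, 0, 0, 0],
  [0, 0, 0, 0, 0, 0, 0, 1, 2, 0, 0, 0], [0, 0, 0, 0, 0, 0, 0, 0, 1, 2, 0, 0],
  [0, 0, 0, 0, 0, 0, 0, 0, 0, 1, 2, 0], [0, 0, 0, 0, 0, 0, 0, 0, 0, 0, 1, 2],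
  [0, 0, 0, 0, 0, 0, 2, 0, 0, 0, 0, 1], [1, 0, 0, 0, 0, 2, 0, 0, 0, 0, 0, 0],
  [2, 1, 0, 0, 0, 0, 0, 0, 0, 0, 0, 0], [0, 2, 1, 0, 0, 0, 0, 0, 0, 0, 0, 0],
  [0, 0, 2, 1, 0, 0, 0, 0, 0, 0, 0, 0], [0, 0, 0, 2, 1, 0, 0, 0, 0, 0, 0, 0],
  [0, 0, 0, 0, 2, 1, 0, 0, 0, 0, 0, 0]]

/-- Colouring table with ports `3` and `4` of colours `1` and `0`. -/
def blkTab1 : List (List ℕ) := [[1, 0, 0, 0, 0, 0, 0, 2, 0, 0, 0, 0],
  [0, 0, 0, 0, 0, 0, 0, 1, 2, 0, 0, 0], [0, 0, 0, 0, 0, 0, 0, 0, 1, 2, 0, 0],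
  [0, 0, 0, 1, 0, 0, 0, 0, 0, 0, 2, 0], [0, 0, 0, 0, 0, 0, 0, 0, 0, 0, 1, 2],
  [0, 0, 0, 0, 0, 0, 2, 0, 0, 0, 0, 1], [0, 0, 0, 0, 0, 2, 0, 0, 0, 1, 0, 0],
  [2, 1, 0, 0, 0, 0, 0, 0, 0, 0, 0, 0], [0, 2, 1, 0, 0, 0, 0, 0, 0, 0, 0, 0],
  [0, 0, 2, 0, 0, 0, 1, 0, 0, 0, 0, 0], [0, 0, 0, 2, 1, 0, 0, 0, 0, 0, 0, 0],
  [0, 0, 0, 0, 2, 1, 0, 0, 0, 0, 0, 0]]

def blkCol (T : List (List ℕ)) (u v : Fin 12) : Fin 3 :=
  Fin.ofNat 3 ((T.getD u.val []).getD v.val 0)

theorem blkCol0_li : LI Blk (blkCol blkTab0) (fun _ => False) := by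
  have h1 : ∀ u v : Fin 12, blkCol blkTab0 u v = blkCol blkTab0 v u := by decide +kernel
  have h2 : ∀ v : Fin 12, ∀ u w : Fin 12,
    (blkAdj v u = true ∨ (v = u ∧ decide (v.val ≤ 5) = true)) →
    (blkAdj v w = true ∨ (v = w ∧ decide (v.val ≤ 5) = true)) →
    blkCol blkTab0 v u = blkCol blkTab0 v w → u = w := by decide +kernel
  exact ⟨fun u v _ => h1 u v, fun v _ u w hu hw e => h2 v u w hu hw e⟩

theorem blkCol1_li : LI Blk (blkCol blkTab1) (fun _ => False) := by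
  have h1 : ∀ u v : Fin 12, blkCol blkTab1 u v = blkCol blkTab1 v u := by decide +kernel
  have h2 : ∀ v : Fin 12, ∀ u w : Fin 12,
    (blkAdj v u = true ∨ (v = u ∧ decide (v.val ≤ 5) = true)) →
    (blkAdj v w = true ∨ (v = w ∧ decide (v.val ≤ 5) = true)) →
    blkCol blkTab1 v u = blkCol blkTab1 v w → u = w := by decide +kernel
  exact ⟨fun u v _ => h1 u v, fun v _ u w hu hw e => h2 v u w hu hw e⟩

theorem blkCol0_port : ∀ v : Fin 12, decide (v.val ≤ 5) = true → blkCol blkTab0 v v = 0 := by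
  decide +kernel

end Pool.Agent.Lib.MP_75ff39_co
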