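import Pool.Agent.Lib.MP_75ff39_co.Pole

set_option autoImplicit false

/-!
# Gluing poles along ports
-/

namespace Pool.Agent.Lib.MP_75ff39_co

open Finset

/-- A partial matching of the ports of a family of poles; matched ports belong to different
poles. -/
structure Links {I : Type} (f : I → Pole) where
  lk : (Σ i, (f i).V) → (Σ i, (f i).V) → Bool
  symm : ∀ x y, lk x y = lk y x
  ne : ∀ x y, lk x y = true → x.1 ≠ y.1
  port : ∀ x y, lk x y = true → (f x.1).port x.2 = true
  func : ∀ x y z, lk x y = true → lk x z = true → y = z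

section

variable {I : Type} [Fintype I] [DecidableEq I] {f : I → Pole} (L : Links f)

/-- The adjacency of the glued graph. -/
def cadj (x y : Σ i, (f i).V) : Bool :=
  decide (∃ w, y = ⟨x.1, w⟩ ∧ (f x.1).adj x.2 w = true) || L.lk x y

theorem cadj_same (i : I) (v w : (f i).V) : cadj L ⟨i, v⟩ ⟨i, w⟩ = (f i).adj v w := by
  have hlk : L.lk ⟨i, v⟩ ⟨i, w⟩ = false := by
    rw [← Bool.not_eq_true]
    intro h
    exact L.ne _ _ h rfl
  unfold cadj
  rw [hlk, Bool.or_false]
  by_cases h : (f i).adj v w = true
  · rw [h, decide_eq_true_eq]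
    exact ⟨w, rfl, h⟩
  · rw [Bool.not_eq_true] at h
    rw [h, decide_eq_false_iff_not]
    rintro ⟨w', hw', h'⟩
    simp only [Sigma.mk.injEq, heq_eq_eq, true_and] at hw'
    subst hw'
    simp only at h'
    rw [h] at h'
    exact Bool.noConfusion h'

theorem cadj_diff {x y : Σ i, (f i).V} (h : x.1 ≠ y.1) : cadj L x y = L.lk x y := by
  unfold cadj
  have : ¬ ∃ w, y = ⟨x.1, w⟩ ∧ (f x.1).adj x.2 w = true := by
    rintro ⟨w, rfl, _⟩
    exact h rfl
  simp [this]

theorem cadj_of_lk {x y : Σ i, (f i).V} (h : L.lk x y = true) : cadj L x y = true := by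
  rw [cadj_diff L (L.ne _ _ h)]
  exact h

theorem cadj_cases {x y : Σ i, (f i).V} (h : cadj L x y = true) :
    (∃ w, y = ⟨x.1, w⟩ ∧ (f x.1).adj x.2 w = true) ∨ L.lk x y = true := by
  unfold cadj at h
  simpa using h

/-- `x` is linked to some port. -/
def Linked (x : Σ i, (f i).V) : Prop := ∃ y, L.lk x y = true

instance (x : Σ i, (f i).V) : Decidable (Linked L x) := by unfold Linked; infer_instance

/-- The remaining ports of the glued graph. -/
def cport (x : Σ i, (f i).V) : Bool := (f x.1).port x.2 && !decide (Linked L x)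

theorem cport_iff {x : Σ i, (f i).V} :
    cport L x = true ↔ (f x.1).port x.2 = true ∧ ¬ Linked L x := by
  simp [cport]

/-- The pole obtained by gluing the poles `f i` along the links `L`. -/
def compose : Pole where
  V := Σ i, (f i).V
  adj := cadj L
  port := cport L
  symm := by
    rintro ⟨i, v⟩ ⟨j, w⟩
    by_cases h : i = j
    · subst h
      rw [cadj_same, cadj_same, (f i).symm]
    · rw [cadj_diff L (by exact h), cadj_diff L (by exact fun e => h e.symm), L.symm]
  irrefl := by
    rintro ⟨i, v⟩
    rw [cadj_same, (f i).irrefl]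
  deg := by
    rintro ⟨i, v⟩
    have hd := (f i).deg v
    have hsplit : univ.filter (fun u => cadj L ⟨i, v⟩ u = true) =
        ((univ.filter (fun w => (f i).adj v w = true)).map
          ⟨fun w => (⟨i, w⟩ : Σ i, (f i).V), fun a b h => by simpa using h⟩) ∪
        univ.filter (fun y => L.lk ⟨i, v⟩ y = true) := by
      ext y
      simp only [mem_filter, mem_univ, true_and, mem_union, mem_map,
        Function.Embedding.coeFn_mk]
      constructor
      · intro h
        rcases cadj_cases L h with ⟨w, rfl, hw⟩ | h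
        · exact Or.inl ⟨w, hw, rfl⟩
        · exact Or.inr h
      · rintro (⟨w, hw, rfl⟩ | h)
        · rw [cadj_same]; exact hw
        · exact cadj_of_lk L h
    have hdisj : Disjoint ((univ.filter (fun w => (f i).adj v w = true)).map
          ⟨fun w => (⟨i, w⟩ : Σ i, (f i).V), fun a b h => by simpa using h⟩)
        (univ.filter (fun y => L.lk ⟨i, v⟩ y = true)) := by
      rw [disjoint_left]
      intro y hy hy'
      simp only [mem_map, Function.Embedding.coeFn_mk] at hy
      obtain ⟨w, _, rfl⟩ := hy
      simp only [mem_filter, mem_univ, true_and] at hy'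
      exact L.ne _ _ hy' rfl
    rw [hsplit, card_union_of_disjoint hdisj, card_map]
    by_cases hl : Linked L ⟨i, v⟩
    · obtain ⟨y, hy⟩ := hl
      have h1 : univ.filter (fun y => L.lk ⟨i, v⟩ y = true) = {y} := by
        ext z
        simp only [mem_filter, mem_univ, true_and, mem_singleton]
        constructor
        · intro hz
          exact L.func _ _ _ hz hy
        · rintro rfl
          exact hy
      have hp : (f i).port v = true := L.port _ _ hy
      have hl' : Linked L ⟨i, v⟩ := ⟨y, hy⟩
      rw [h1, card_singleton]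
      simp only [hp, if_true] at hd
      have hc : cport L ⟨i, v⟩ = false := by
        rw [← Bool.not_eq_true, cport_iff]
        exact fun h => h.2 hl'
      rw [hc]
      simp only [Bool.false_eq_true, if_false]
      omega
    · have h1 : univ.filter (fun y => L.lk ⟨i, v⟩ y = true) = ∅ := by
        rw [filter_eq_empty_iff]
        intro y _ hy
        exact hl ⟨y, hy⟩
      have hc : cport L ⟨i, v⟩ = (f i).port v := by
        simp [cport, hl]
      rw [h1, card_empty, hc, add_zero]
      exact hd

/-- The size of an edge cut of the glued graph. -/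
def cecut (A : Finset (Σ i, (f i).V)) : ℕ :=
  (univ.filter (fun p : (Σ i, (f i).V) × (Σ i, (f i).V) =>
    p.1 ∈ A ∧ p.2 ∉ A ∧ cadj L p.1 p.2 = true)).card

/-- The number of remaining ports in `A`. -/
def cacount (A : Finset (Σ i, (f i).V)) : ℕ := (A.filter (fun x => cport L x = true)).card

theorem compose_ecut (A : Finset (Σ i, (f i).V)) : (compose L).ecut A = cecut L A := rfl

theorem compose_acount (A : Finset (Σ i, (f i).V)) : (compose L).acount A = cacount L A := rfl

/-- The part of `A` in the piece `i`. -/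
def slice (A : Finset (Σ i, (f i).V)) (i : I) : Finset (f i).V :=
  univ.filter (fun v => (⟨i, v⟩ : Σ i, (f i).V) ∈ A)

omit [Fintype I] in
@[simp] theorem mem_slice {A : Finset (Σ i, (f i).V)} {i : I} {v : (f i).V} :
    v ∈ slice A i ↔ (⟨i, v⟩ : Σ i, (f i).V) ∈ A := by simp [slice]

/-- The number of links separated by `A`. -/
def clk (A : Finset (Σ i, (f i).V)) : ℕ :=
  (univ.filter (fun p : (Σ i, (f i).V) × (Σ i, (f i).V) =>
    p.1 ∈ A ∧ p.2 ∉ A ∧ L.lk p.1 p.2 = true)).card

/-- The number of links between the pieces in `J` and the other pieces. -/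
def linkcut (J : Finset I) : ℕ :=
  (univ.filter (fun p : (Σ i, (f i).V) × (Σ i, (f i).V) =>
    p.1.1 ∈ J ∧ p.2.1 ∉ J ∧ L.lk p.1 p.2 = true)).card

/-- The number of linked vertices of the piece `i` in `A`. -/
def lin (A : Finset (Σ i, (f i).V)) (i : I) : ℕ :=
  (univ.filter (fun v : (f i).V => (⟨i, v⟩ : Σ i, (f i).V) ∈ A ∧ Linked L ⟨i, v⟩)).card

/-- The number of linked vertices of the piece `i` not in `A`. -/
def lout (A : Finset (Σ i, (f i).V)) (i : I) : ℕ :=
  (univ.filter (fun v : (f i).V => (⟨i, v⟩ : Σ i, (f i).V) ∉ A ∧ Linked L ⟨i, v⟩)).card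

theorem sum_ecut_add_clk_le (A : Finset (Σ i, (f i).V)) :
    ∑ i, (f i).ecut (slice A i) + clk L A ≤ cecut L A := by
  have hT : ∑ i, (f i).ecut (slice A i) =
      ((univ : Finset I).sigma (fun i => univ.filter (fun p : (f i).V × (f i).V =>
        p.1 ∈ slice A i ∧ p.2 ∉ slice A i ∧ (f i).adj p.1 p.2 = true))).card := by
    rw [card_sigma]; rfl
  rw [hT]
  set T := ((univ : Finset I).sigma (fun i => univ.filter (fun p : (f i).V × (f i).V =>
        p.1 ∈ slice A i ∧ p.2 ∉ slice A i ∧ (f i).adj p.1 p.2 = true))) with hTdef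
  let g : (Σ i, (f i).V × (f i).V) → (Σ i, (f i).V) × (Σ i, (f i).V) :=
    fun t => (⟨t.1, t.2.1⟩, ⟨t.1, t.2.2⟩)
  have hg : Function.Injective g := by
    rintro ⟨i, v, w⟩ ⟨j, v', w'⟩ h
    simp only [g, Prod.mk.injEq, Sigma.mk.injEq] at h
    obtain ⟨⟨rfl, h1⟩, ⟨_, h2⟩⟩ := h
    rw [heq_eq_eq] at h1 h2
    rw [h1, h2]
  unfold clk cecut
  rw [← card_image_of_injective T hg, ← card_union_of_disjoint]
  · apply card_le_card
    intro p hp
    rw [mem_union] at hp
    rcases hp with hp | hp
    · rw [mem_image] at hp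
      obtain ⟨⟨i, v, w⟩, ht, rfl⟩ := hp
      simp only [hTdef, mem_sigma, mem_univ, true_and, mem_filter, mem_slice] at ht
      simp only [g, mem_filter, mem_univ, true_and, cadj_same]
      exact ht
    · simp only [mem_filter, mem_univ, true_and] at hp ⊢
      exact ⟨hp.1, hp.2.1, cadj_of_lk L hp.2.2⟩
  · rw [disjoint_left]
    intro p hp hp'
    rw [mem_image] at hp
    obtain ⟨⟨i, v, w⟩, ht, rfl⟩ := hp
    simp only [g, mem_filter, mem_univ, true_and] at hp'
    exact L.ne _ _ hp'.2.2 rfl

theorem linkcut_le (J : Finset I) (A : Finset (Σ i, (f i).V)) :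
    linkcut L J ≤ clk L A + ∑ i ∈ J, lout L A i + ∑ i ∈ Jᶜ, lin L A i := by
  have h1 : ∑ i ∈ J, lout L A i = (J.sigma (fun i => univ.filter (fun v : (f i).V =>
      (⟨i, v⟩ : Σ i, (f i).V) ∉ A ∧ Linked L ⟨i, v⟩))).card := by
    rw [card_sigma]; rfl
  have h2 : ∑ i ∈ Jᶜ, lin L A i = (Jᶜ.sigma (fun i => univ.filter (fun v : (f i).V =>
      (⟨i, v⟩ : Σ i, (f i).V) ∈ A ∧ Linked L ⟨i, v⟩))).card := by
    rw [card_sigma]; rfl
  rw [h1, h2]
  set S := univ.filter (fun p : (Σ i, (f i).V) × (Σ i, (f i).V) =>
    p.1.1 ∈ J ∧ p.2.1 ∉ J ∧ L.lk p.1 p.2 = true) with hS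
  have hsub : S ⊆ (univ.filter (fun p : (Σ i, (f i).V) × (Σ i, (f i).V) =>
      p.1 ∈ A ∧ p.2 ∉ A ∧ L.lk p.1 p.2 = true)) ∪
      (S.filter (fun p => p.1 ∉ A)) ∪ (S.filter (fun p => p.2 ∈ A)) := by
    intro p hp
    simp only [mem_union, mem_filter, mem_univ, true_and]
    have hp' := hp
    simp only [hS, mem_filter, mem_univ, true_and] at hp'
    by_cases ha : p.1 ∈ A
    · by_cases hb : p.2 ∈ A
      · exact Or.inr ⟨hp, hb⟩
      · exact Or.inl (Or.inl ⟨ha, hb, hp'.2.2⟩)
    · exact Or.inl (Or.inr ⟨hp, ha⟩)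
  have hA1 : (S.filter (fun p => p.1 ∉ A)).card ≤
      (J.sigma (fun i => univ.filter (fun v : (f i).V =>
      (⟨i, v⟩ : Σ i, (f i).V) ∉ A ∧ Linked L ⟨i, v⟩))).card := by
    apply card_le_card_of_injOn (fun p => p.1)
    · intro p hp
      simp only [hS, coe_filter, mem_filter, mem_univ, true_and, Set.mem_ofPred_eq] at hp
      simp only [coe_sigma, Set.mem_sigma_iff, mem_coe, mem_filter, mem_univ, true_and]
      exact ⟨hp.1.1, hp.2, ⟨p.2, hp.1.2.2⟩⟩
    · rintro ⟨a, b⟩ hp ⟨a', b'⟩ hp' e
      simp only [hS, coe_filter, mem_filter, mem_univ, true_and, Set.mem_ofPred_eq] at hp hp' e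
      subst e
      rw [L.func _ _ _ hp.1.2.2 hp'.1.2.2]
  have hA2 : (S.filter (fun p => p.2 ∈ A)).card ≤
      (Jᶜ.sigma (fun i => univ.filter (fun v : (f i).V =>
      (⟨i, v⟩ : Σ i, (f i).V) ∈ A ∧ Linked L ⟨i, v⟩))).card := by
    apply card_le_card_of_injOn (fun p => p.2)
    · intro p hp
      simp only [hS, coe_filter, mem_filter, mem_univ, true_and, Set.mem_ofPred_eq] at hp
      simp only [coe_sigma, Set.mem_sigma_iff, mem_coe, mem_compl, mem_filter, mem_univ,
        true_and]
      exact ⟨hp.1.2.1, hp.2, ⟨p.1, by rw [L.symm]; exact hp.1.2.2⟩⟩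
    · rintro ⟨a, b⟩ hp ⟨a', b'⟩ hp' e
      simp only [hS, coe_filter, mem_filter, mem_univ, true_and, Set.mem_ofPred_eq] at hp hp' e
      subst e
      have h1 := hp.1.2.2
      have h2 := hp'.1.2.2
      rw [L.symm] at h1 h2
      rw [L.func _ _ _ h1 h2]
  calc linkcut L J = S.card := rfl
    _ ≤ _ := card_le_card hsub
    _ ≤ _ := card_union_le _ _
    _ ≤ _ := Nat.add_le_add_right (card_union_le _ _) _
    _ ≤ _ := by
      have : clk L A = (univ.filter (fun p : (Σ i, (f i).V) × (Σ i, (f i).V) =>
        p.1 ∈ A ∧ p.2 ∉ A ∧ L.lk p.1 p.2 = true)).card := rfl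
      omega

theorem lin_le (A : Finset (Σ i, (f i).V)) (i : I) : lin L A i ≤ (f i).acount (slice A i) := by
  unfold lin Pole.acount
  apply card_le_card
  intro v hv
  simp only [mem_filter, mem_univ, true_and, mem_slice] at hv ⊢
  obtain ⟨y, hy⟩ := hv.2
  exact ⟨hv.1, L.port _ _ hy⟩

theorem lout_le (A : Finset (Σ i, (f i).V)) (i : I) :
    lout L A i + (f i).acount (slice A i) ≤ (f i).acount univ := by
  unfold lout Pole.acount
  rw [← card_union_of_disjoint]
  · apply card_le_card
    intro v hv
    simp only [mem_union, mem_filter, mem_univ, true_and, mem_slice] at hv ⊢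
    rcases hv with hv | hv
    · obtain ⟨y, hy⟩ := hv.2
      exact L.port _ _ hy
    · exact hv.2
  · rw [disjoint_left]
    intro v hv hv'
    simp only [mem_filter, mem_univ, true_and, mem_slice] at hv hv'
    exact hv.1 hv'.1

end

/-- A pole is good if it is internally well connected. -/
structure Good (X : Pole) : Prop where
  g0 : 5 ≤ X.acount univ
  g1 : ∀ A : Finset X.V, A.Nonempty → A ≠ univ → 2 ≤ X.ecut A
  g2 : ∀ A : Finset X.V, X.ecut A ≤ 4 →
    X.acount A ≤ X.ecut A ∨ X.acount univ ≤ X.acount A + X.ecut A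
  g3 : ∀ A : Finset X.V, X.acount A ≤ X.ecut A → X.ecut A + X.acount A ≤ 4 → A.card ≤ 2
  g4 : ∀ A : Finset X.V, X.ecut A = 2 → X.acount A ≤ 2 → A.card ≤ 1

section

variable {I : Type} [Fintype I] [DecidableEq I] {f : I → Pole} (L : Links f)

/-- The main alternative for a cut with at most four edges in a glued graph. -/
theorem alternative (hf : ∀ i, Good (f i))
    (hL : ∀ J : Finset I, J.Nonempty → J ≠ univ → 5 ≤ linkcut L J)
    (A : Finset (Σ i, (f i).V)) (hA : cecut L A ≤ 4) :
    (∀ i, (f i).acount (slice A i) ≤ (f i).ecut (slice A i)) ∨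
    (∀ i, (f i).acount univ ≤ (f i).acount (slice A i) + (f i).ecut (slice A i)) := by
  have hsum := sum_ecut_add_clk_le L A
  have hle : ∀ i, (f i).ecut (slice A i) ≤ 4 := by
    intro i
    have : (f i).ecut (slice A i) ≤ ∑ i, (f i).ecut (slice A i) :=
      single_le_sum (f := fun i => (f i).ecut (slice A i)) (fun _ _ => Nat.zero_le _)
      (mem_univ i)
    omega
  set J : Finset I := univ.filter (fun i => ¬ (f i).acount (slice A i) ≤ (f i).ecut (slice A i))
    with hJ
  have hJin : ∀ i ∈ J, (f i).acount univ ≤ (f i).acount (slice A i) + (f i).ecut (slice A i) := by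
    intro i hi
    rcases (hf i).g2 _ (hle i) with h | h
    · simp only [hJ, mem_filter, mem_univ, true_and] at hi
      exact absurd h hi
    · exact h
  have hJout : ∀ i ∉ J, (f i).acount (slice A i) ≤ (f i).ecut (slice A i) := by
    intro i hi
    simp only [hJ, mem_filter, mem_univ, true_and, not_not] at hi
    exact hi
  have hlc : linkcut L J ≤ 4 := by
    have h1 := linkcut_le L J A
    have h2 : ∑ i ∈ J, lout L A i ≤ ∑ i ∈ J, (f i).ecut (slice A i) := by
      apply sum_le_sum
      intro i hi
      have := lout_le L A i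
      have := hJin i hi
      omega
    have h3 : ∑ i ∈ Jᶜ, lin L A i ≤ ∑ i ∈ Jᶜ, (f i).ecut (slice A i) := by
      apply sum_le_sum
      intro i hi
      have := lin_le L A i
      have := hJout i (mem_compl.mp hi)
      omega
    have h4 := sum_add_sum_compl J (fun i => (f i).ecut (slice A i))
    omega
  by_cases hJe : J = ∅
  · left
    intro i
    exact hJout i (by rw [hJe]; exact notMem_empty _)
  · by_cases hJu : J = univ
    · right
      intro i
      exact hJin i (by rw [hJu]; exact mem_univ _)
    · have := hL J (nonempty_iff_ne_empty.mpr hJe) hJu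
      omega

theorem slice_compl (A : Finset (Σ i, (f i).V)) (i : I) : slice Aᶜ i = (slice A i)ᶜ := by
  ext v
  simp

theorem acount_compl (X : Pole) (A : Finset X.V) :
    X.acount Aᶜ + X.acount A = X.acount univ := by
  unfold Pole.acount
  rw [← card_union_of_disjoint]
  · congr 1
    ext v
    simp only [mem_union, mem_filter, mem_compl, mem_univ, true_and]
    constructor
    · rintro (h | h)
      · exact h.2
      · exact h.2
    · intro h
      by_cases hv : v ∈ A
      · exact Or.inr ⟨hv, h⟩
      · exact Or.inl ⟨hv, h⟩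
  · rw [disjoint_left]
    intro v hv hv'
    simp only [mem_filter, mem_compl] at hv hv'
    exact hv.1 hv'.1

/-- A slice with `a ≤ e` is empty or has an internal cut of size at least two. -/
theorem slice_two (hf : ∀ i, Good (f i)) {A : Finset (Σ i, (f i).V)} {i : I}
    (h : (f i).acount (slice A i) ≤ (f i).ecut (slice A i)) (hne : (slice A i).Nonempty) :
    2 ≤ (f i).ecut (slice A i) := by
  apply (hf i).g1 _ hne
  intro hu
  rw [hu] at h
  have h0 := (hf i).g0
  have h1 : (f i).ecut univ = 0 := by
    unfold Pole.ecut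
    rw [card_eq_zero, filter_eq_empty_iff]
    rintro p _ ⟨_, h2, _⟩
    exact h2 (mem_univ _)
  omega

/-- The number of ports and links leaving a set contained in a single piece. -/
theorem single_piece {A : Finset (Σ i, (f i).V)} {i : I} (hA : ∀ j, j ≠ i → slice A j = ∅) :
    (f i).acount (slice A i) ≤ clk L A + cacount L A := by
  have hmem : ∀ x ∈ A, x.1 = i := by
    rintro ⟨j, v⟩ hx
    by_contra hne
    have := hA j hne
    have hv : v ∈ slice A j := mem_slice.mpr hx
    rw [this] at hv
    exact absurd hv (notMem_empty _)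
  unfold Pole.acount clk cacount
  have hsplit : ((slice A i).filter (fun v => (f i).port v = true)) ⊆
      ((slice A i).filter (fun v => Linked L ⟨i, v⟩)) ∪
      ((slice A i).filter (fun v => cport L ⟨i, v⟩ = true)) := by
    intro v hv
    simp only [mem_union, mem_filter] at hv ⊢
    by_cases hl : Linked L ⟨i, v⟩
    · exact Or.inl ⟨hv.1, hl⟩
    · exact Or.inr ⟨hv.1, (cport_iff L).mpr ⟨hv.2, hl⟩⟩
  refine le_trans (card_le_card hsplit) (le_trans (card_union_le _ _) (Nat.add_le_add ?_ ?_))
  · have hch : ∀ v : (f i).V, ∃ y : Σ i, (f i).V,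
        Linked L ⟨i, v⟩ → L.lk ⟨i, v⟩ y = true := by
      intro v
      by_cases h : Linked L ⟨i, v⟩
      · obtain ⟨y, hy⟩ := h
        exact ⟨y, fun _ => hy⟩
      · exact ⟨⟨i, v⟩, fun h' => absurd h' h⟩
    choose g hg using hch
    apply card_le_card_of_injOn (fun v => ((⟨i, v⟩ : Σ i, (f i).V), g v))
    · intro v hv
      simp only [coe_filter, Set.mem_ofPred_eq, mem_slice] at hv
      simp only [coe_filter, mem_univ, true_and, Set.mem_ofPred_eq]
      refine ⟨hv.1, ?_, hg v hv.2⟩
      intro hgA
      have h1 := hmem _ hgA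
      have h2 := L.ne _ _ (hg v hv.2)
      exact h2 h1.symm
    · intro v _ w _ h
      simp only [Prod.mk.injEq, Sigma.mk.injEq, heq_eq_eq, true_and] at h
      exact h.1
  · apply card_le_card_of_injOn (fun v => (⟨i, v⟩ : Σ i, (f i).V))
    · intro v hv
      simp only [coe_filter, Set.mem_ofPred_eq, mem_slice] at hv ⊢
      exact hv
    · intro v _ w _ h
      simpa using h

theorem card_eq_sum_slice (A : Finset (Σ i, (f i).V)) : A.card = ∑ i, (slice A i).card := by
  rw [← card_sigma]
  congr 1
  ext ⟨i, v⟩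
  simp

/-- Small side: if every slice satisfies `a ≤ e` and `e + a ≤ 4` for the whole set, then the set
has at most two vertices. -/
theorem small_side (hf : ∀ i, Good (f i)) (A : Finset (Σ i, (f i).V))
    (hae : ∀ i, (f i).acount (slice A i) ≤ (f i).ecut (slice A i))
    (hA : cecut L A + cacount L A ≤ 4) :
    A.card ≤ 2 ∧ (cecut L A = 2 → A.card ≤ 1) := by
  have hsum := sum_ecut_add_clk_le L A
  set S : Finset I := univ.filter (fun i => (slice A i).Nonempty) with hS
  have hS2 : ∀ i ∈ S, 2 ≤ (f i).ecut (slice A i) := by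
    intro i hi
    apply slice_two hf (hae i)
    simpa [hS] using hi
  have hSout : ∀ i ∉ S, slice A i = ∅ := by
    intro i hi
    rw [← not_nonempty_iff_eq_empty]
    simpa [hS] using hi
  have hsumS : ∑ i ∈ S, (f i).ecut (slice A i) ≤ ∑ i, (f i).ecut (slice A i) :=
    sum_le_sum_of_subset (subset_univ _)
  have hScard : S.card * 2 ≤ ∑ i ∈ S, (f i).ecut (slice A i) := by
    rw [← smul_eq_mul]
    exact card_nsmul_le_sum S _ 2 hS2
  have hAcard : A.card = ∑ i ∈ S, (slice A i).card := by
    rw [card_eq_sum_slice]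
    symm
    apply sum_subset (subset_univ _)
    intro i _ hi
    rw [hSout i hi, card_empty]
  have hScard2 : S.card ≤ 2 := by omega
  have hcases : S.card = 0 ∨ S.card = 1 ∨ S.card = 2 := by omega
  rcases hcases with h0 | h1 | h2
  · rw [card_eq_zero] at h0
    rw [h0, sum_empty] at hAcard
    omega
  · obtain ⟨i, hi⟩ := card_eq_one.mp h1
    rw [hi, sum_singleton] at hAcard
    rw [hi, sum_singleton] at hsumS
    have hsp := single_piece L (A := A) (i := i) (by
      intro j hj
      apply hSout
      rw [hi, mem_singleton]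
      exact hj)
    constructor
    · rw [hAcard]
      apply (hf i).g3 _ (hae i)
      omega
    · intro he
      rw [hAcard]
      have h2 := hS2 i (by rw [hi]; exact mem_singleton_self i)
      apply (hf i).g4 _ (by omega)
      have := hae i
      omega
  · obtain ⟨i, j, hij, hi⟩ := card_eq_two.mp h2
    rw [hi, sum_pair hij] at hAcard hsumS
    have h2i := hS2 i (by rw [hi]; simp)
    have h2j := hS2 j (by rw [hi]; simp)
    have ei : (f i).ecut (slice A i) = 2 := by omega
    have ej : (f j).ecut (slice A j) = 2 := by omega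
    have hi1 := (hf i).g4 _ ei (by have := hae i; omega)
    have hj1 := (hf j).g4 _ ej (by have := hae j; omega)
    constructor
    · omega
    · intro he
      omega

theorem compose_good [Nonempty I] (hf : ∀ i, Good (f i))
    (hL : ∀ J : Finset I, J.Nonempty → J ≠ univ → 5 ≤ linkcut L J)
    (hd : 5 ≤ cacount L univ) : Good (compose L) := by
  -- bounding the number of ports
  have hport : ∀ A : Finset (Σ i, (f i).V), cacount L A ≤
      ∑ i, (f i).acount (slice A i) := by
    intro A
    have : ∑ i, (f i).acount (slice A i) =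
        ((univ : Finset I).sigma (fun i => (slice A i).filter (fun v => (f i).port v = true))).card := by
      rw [card_sigma]; rfl
    rw [this]
    unfold cacount
    apply card_le_card
    rintro ⟨i, v⟩ hx
    simp only [mem_filter, mem_sigma, mem_univ, true_and, mem_slice] at hx ⊢
    exact ⟨hx.1, ((cport_iff L).mp hx.2).1⟩
  have small : ∀ A : Finset (Σ i, (f i).V), cecut L A ≤ 4 →
      (∀ i, (f i).acount (slice A i) ≤ (f i).ecut (slice A i)) →
      cacount L A ≤ cecut L A := by
    intro A _ h
    have h1 := hport A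
    have h2 : ∑ i, (f i).acount (slice A i) ≤ ∑ i, (f i).ecut (slice A i) :=
      sum_le_sum (fun i _ => h i)
    have h3 := sum_ecut_add_clk_le L A
    omega
  have flip : ∀ A : Finset (Σ i, (f i).V),
      (∀ i, (f i).acount univ ≤ (f i).acount (slice A i) + (f i).ecut (slice A i)) →
      (∀ i, (f i).acount (slice Aᶜ i) ≤ (f i).ecut (slice Aᶜ i)) := by
    intro A h i
    rw [slice_compl, (f i).ecut_compl]
    have := acount_compl (f i) (slice A i)
    have := h i
    omega
  have hcompl : ∀ A : Finset (Σ i, (f i).V), cacount L Aᶜ + cacount L A =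
      cacount L univ := fun A => acount_compl (compose L) A
  have hecompl : ∀ A : Finset (Σ i, (f i).V), cecut L Aᶜ = cecut L A :=
    fun A => (compose L).ecut_compl A
  have G1 : ∀ A : Finset (Σ i, (f i).V), A.Nonempty → A ≠ univ → 2 ≤ cecut L A := by
    have aux : ∀ A : Finset (Σ i, (f i).V), A.Nonempty → cecut L A ≤ 1 →
        (∀ i, (f i).acount (slice A i) ≤ (f i).ecut (slice A i)) → False := by
      rintro A ⟨⟨i, v⟩, hx⟩ h1 h
      have h2 := slice_two hf (h i) ⟨v, mem_slice.mpr hx⟩
      have h3 := sum_ecut_add_clk_le L A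
      have : (f i).ecut (slice A i) ≤ ∑ i, (f i).ecut (slice A i) :=
        single_le_sum (f := fun i => (f i).ecut (slice A i)) (fun _ _ => Nat.zero_le _)
        (mem_univ i)
      omega
    intro A hne hu
    by_contra hlt
    have hlt' : cecut L A ≤ 1 := by omega
    rcases alternative L hf hL A (by omega) with h | h
    · exact aux A hne hlt' h
    · apply aux Aᶜ _ (by rw [hecompl]; exact hlt') (flip A h)
      rw [nonempty_iff_ne_empty]
      intro h0
      apply hu
      rwa [compl_eq_empty_iff] at h0
  have G2 : ∀ A : Finset (Σ i, (f i).V), cecut L A ≤ 4 →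
      cacount L A ≤ cecut L A ∨ cacount L univ ≤ cacount L A + cecut L A := by
    intro A h4
    rcases alternative L hf hL A h4 with h | h
    · exact Or.inl (small A h4 h)
    · right
      have h1 := small Aᶜ (by rw [hecompl]; exact h4) (flip A h)
      rw [hecompl] at h1
      have := hcompl A
      omega
  have G3 : ∀ A : Finset (Σ i, (f i).V), cacount L A ≤ cecut L A →
      cecut L A + cacount L A ≤ 4 → A.card ≤ 2 := by
    intro A hae h4
    rcases alternative L hf hL A (by omega) with h | h
    · exact (small_side L hf A h h4).1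
    · exfalso
      have h1 := small Aᶜ (by rw [hecompl]; omega) (flip A h)
      rw [hecompl] at h1
      have := hcompl A
      omega
  have G4 : ∀ A : Finset (Σ i, (f i).V), cecut L A = 2 → cacount L A ≤ 2 → A.card ≤ 1 := by
    intro A h2 ha
    rcases alternative L hf hL A (by omega) with h | h
    · exact (small_side L hf A h (by omega)).2 h2
    · exfalso
      have h1 := small Aᶜ (by rw [hecompl]; omega) (flip A h)
      rw [hecompl] at h1
      have := hcompl A
      omega
  exact ⟨hd, G1, G2, G3, G4⟩

theorem compose_strong (hf : ∀ i, Good (f i))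
    (hL : ∀ J : Finset I, J.Nonempty → J ≠ univ → 5 ≤ linkcut L J)
    (hc : (compose L).Closed) : (compose L).Strong := by
  have ha : ∀ A : Finset (Σ i, (f i).V), cacount L A = 0 := by
    intro A
    unfold cacount
    rw [card_eq_zero, filter_eq_empty_iff]
    intro x _ hx
    have h1 : cport L x = false := hc x
    rw [h1] at hx
    exact Bool.noConfusion hx
  have key : ∀ A : Finset (Σ i, (f i).V), cecut L A ≤ 4 → A.card ≤ 2 ∨ Aᶜ.card ≤ 2 := by
    intro A h4
    rcases alternative L hf hL A h4 with h | h
    · left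
      exact (small_side L hf A h (by rw [ha]; exact h4)).1
    · right
      refine (small_side L hf Aᶜ ?_ ?_).1
      · intro i
        rw [slice_compl, (f i).ecut_compl]
        have := acount_compl (f i) (slice A i)
        have := h i
        omega
      · rw [ha]
        have h5 : cecut L Aᶜ = cecut L A := (compose L).ecut_compl A
        omega
  exact key

end

end Pool.Agent.Lib.MP_75ff39_co
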