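import Pool.Agent.Lib.MP_75ff39_co.Pole

set_option autoImplicit false

/-!
# Strong closed poles are connected, cubic and cyclically 5-edge-connected
-/

namespace Pool.Agent.Lib.MP_75ff39_co

open Finset

namespace Pole

theorem cycle_card {V : Type*} [DecidableEq V] {G : SimpleGraph V} {u : V} (p : G.Walk u u)
    (hp : p.IsCycle) (A : Finset V) (hA : ∀ w, G.Reachable u w → w ∈ A) : 3 ≤ A.card := by
  have h3 := hp.three_le_length
  have hnd := hp.support_nodup
  have hsub : p.support.tail.toFinset ⊆ A := by
    intro w hw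
    rw [List.mem_toFinset] at hw
    apply hA
    have hw' : w ∈ p.support := List.mem_of_mem_tail hw
    exact ⟨p.takeUntil w hw'⟩
  have hc : p.support.tail.toFinset.card = p.length := by
    rw [List.toFinset_card_of_nodup hnd]
    simp
  calc 3 ≤ p.length := h3
    _ = _ := hc.symm
    _ ≤ _ := card_le_card hsub

/-- The cut around a set closed under reachability in `G - F` has at most `|F|` edges. -/
theorem ecut_le_encard (X : Pole) (F : Set (Sym2 X.V)) (A : Finset X.V)
    (hA : ∀ u v, u ∈ A → (X.toGraph.deleteEdges F).Adj u v → v ∈ A) :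
    (X.ecut A : ℕ∞) ≤ F.encard := by
  classical
  have hinj : Set.InjOn (fun p : X.V × X.V => s(p.1, p.2))
      ((univ.filter (fun p : X.V × X.V => p.1 ∈ A ∧ p.2 ∉ A ∧ X.adj p.1 p.2 = true) :
        Finset (X.V × X.V)) : Set (X.V × X.V)) := by
    rintro ⟨u, v⟩ hu ⟨u', v'⟩ hu' e
    simp only [coe_filter, mem_univ, true_and, Set.mem_ofPred_eq] at hu hu'
    simp only [Sym2.eq_iff] at e
    rcases e with ⟨rfl, rfl⟩ | ⟨rfl, rfl⟩
    · rfl
    · exact absurd hu.1 hu'.2.1
  unfold ecut
  rw [← card_image_of_injOn hinj, ← Set.encard_coe_eq_coe_finsetCard]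
  apply Set.encard_le_encard
  intro e he
  rw [mem_coe, mem_image] at he
  obtain ⟨⟨u, v⟩, h, rfl⟩ := he
  simp only [mem_filter, mem_univ, true_and] at h
  by_contra hne
  apply h.2.1
  apply hA u v h.1
  rw [SimpleGraph.deleteEdges_adj]
  exact ⟨h.2.2, hne⟩

theorem cyclicallyEdgeConnected_of_strong (X : Pole) (hS : X.Strong) (k : ℕ)
    (hk : k ≤ 5) : CyclicallyEdgeConnected k X.toGraph := by
  classical
  intro F hF u v p q hp hq
  by_contra hne
  set A : Finset X.V :=
    univ.filter (fun w => (X.toGraph.deleteEdges F).Reachable u w) with hA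
  have hcut : (X.ecut A : ℕ∞) ≤ F.encard := by
    apply X.ecut_le_encard
    intro a b ha hab
    simp only [hA, mem_filter, mem_univ, true_and] at ha ⊢
    exact ha.trans (SimpleGraph.Adj.reachable hab)
  have hcut4 : X.ecut A ≤ 4 := by
    have h1 : (X.ecut A : ℕ∞) < (k : ℕ∞) := lt_of_le_of_lt hcut hF
    have h2 : X.ecut A < k := by exact_mod_cast h1
    omega
  have hpA : 3 ≤ A.card := by
    apply cycle_card p hp
    intro w hw
    simp only [hA, mem_filter, mem_univ, true_and]
    exact hw
  have hqA : 3 ≤ Aᶜ.card := by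
    apply cycle_card q hq
    intro w hw
    simp only [hA, mem_compl, mem_filter, mem_univ, true_and]
    intro h
    exact hne (h.trans hw.symm)
  rcases hS A hcut4 with h | h <;> omega

theorem inClass_of_strong (X : Pole) (hX : X.Closed) (hS : X.Strong) (hne : Nonempty X.V)
    (k : ℕ) (hk : k ≤ 5) : InClass k X.toGraph := by
  classical
  refine ⟨?_, ?_, X.cyclicallyEdgeConnected_of_strong hS k hk⟩
  · rw [SimpleGraph.connected_iff]
    refine ⟨?_, hne⟩
    intro x y
    by_contra hxy
    set A : Finset X.V := univ.filter (fun w => X.toGraph.Reachable x w) with hA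
    have hcut : X.ecut A = 0 := by
      unfold ecut
      rw [card_eq_zero, filter_eq_empty_iff]
      rintro ⟨a, b⟩ _ ⟨h1, h2, h3⟩
      simp only [hA, mem_filter, mem_univ, true_and] at h1 h2
      exact h2 (h1.trans (SimpleGraph.Adj.reachable h3))
    have hx : x ∈ A := by simp [hA]
    have hy : y ∈ Aᶜ := by simpa [hA] using hxy
    rcases X.small_cut hX hS A (by omega) with h | h | ⟨w, hw⟩ | ⟨w, hw⟩
    · rw [h] at hx; exact absurd hx (notMem_empty _)
    · rw [h] at hy; exact absurd hy (notMem_empty _)
    · rw [hw, X.ecut_singleton hX] at hcut; omega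
    · rw [← X.ecut_compl, hw, X.ecut_singleton hX] at hcut; omega
  · intro v
    have : X.toGraph.neighborSet v = ((univ.filter (fun u => X.adj v u = true) : Finset X.V) :
        Set X.V) := by
      ext u
      simp
    rw [this, Set.encard_coe_eq_coe_finsetCard, X.adj_card_of_closed hX]
    norm_num

end Pole

end Pool.Agent.Lib.MP_75ff39_co
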