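import Pool.Agent.Lib.MP_75ff39_co.Pole

set_option autoImplicit false

/-!
# Cycle-continuous maps versus star maps
-/

namespace Pool.Agent.Lib.MP_75ff39_co

open Finset

namespace Pole

open Classical in
/-- Extension of an edge function by zero. -/
noncomputable def ext (G : Pole) (φ : G.toGraph.edgeSet → ZMod 2) (e : Sym2 G.V) : ZMod 2 :=
  if h : e ∈ G.toGraph.edgeSet then φ ⟨e, h⟩ else 0

theorem ext_apply (G : Pole) (φ : G.toGraph.edgeSet → ZMod 2) (e : G.toGraph.edgeSet) :
    G.ext φ e = φ e := by
  unfold ext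
  rw [dif_pos e.2]

theorem flow_sum (G : Pole) (φ : G.toGraph.edgeSet → ZMod 2) (v : G.V) :
    ∑ᶠ (e : G.toGraph.edgeSet) (_ : v ∈ (e : Sym2 G.V)), φ e =
      ∑ u ∈ univ.filter (fun u => G.adj v u = true), G.ext φ s(v, u) := by
  classical
  have h1 : ∑ᶠ (e : G.toGraph.edgeSet) (_ : v ∈ (e : Sym2 G.V)), φ e =
      ∑ e ∈ univ.filter (fun e : G.toGraph.edgeSet => v ∈ (e : Sym2 G.V)), φ e := by
    rw [← finsum_mem_coe_finset]
    congr 1
    ext e
    simp
  rw [h1]
  symm
  refine sum_bij (fun u hu => (⟨s(v, u), by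
    simpa using (mem_filter.mp hu).2⟩ : G.toGraph.edgeSet)) ?_ ?_ ?_ ?_
  · intro u hu
    simp
  · intro u hu u' hu' h
    simp only [Subtype.mk.injEq] at h
    have := Sym2.congr_right.mp h
    exact this
  · rintro ⟨e, he⟩ hv
    simp only [mem_filter, mem_univ, true_and] at hv
    obtain ⟨u, rfl⟩ := Sym2.mem_iff_exists.mp hv
    refine ⟨u, ?_, rfl⟩
    simpa using he
  · intro u hu
    exact G.ext_apply φ ⟨s(v, u), by simpa using (mem_filter.mp hu).2⟩

theorem isFlow_iff (G : Pole) (φ : G.toGraph.edgeSet → ZMod 2) :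
    IsFlow G.toGraph φ ↔
      ∀ v, ∑ u ∈ univ.filter (fun u => G.adj v u = true), G.ext φ s(v, u) = 0 := by
  unfold IsFlow
  simp only [flow_sum]

end Pole

/-- The symmetrised edge map of a pole map. -/
def Hom.edge {X H : Pole} (h : Hom X H) : Sym2 X.V → Sym2 H.V :=
  Sym2.lift ⟨fun u v => if X.adj u v = true then h.F u v else s(h.φ u, h.φ v), by
    intro u v
    by_cases huv : X.adj u v = true
    · have hvu := X.adj_comm.mp huv
      simp only [huv, hvu, if_true]
      exact h.symm u v huv
    · have hvu : ¬ X.adj v u = true := fun e => huv (X.adj_comm.mp e)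
      simp only [huv, hvu]
      exact Sym2.eq_swap⟩

theorem Hom.edge_mk {X H : Pole} (h : Hom X H) {u v : X.V} (huv : X.adj u v = true) :
    h.edge s(u, v) = h.F u v := by
  simp [Hom.edge, huv]

theorem Hom.ccle {G H : Pole} (hG : G.Closed) (hH : H.Closed) (h : Hom G H) :
    CCLE G.toGraph H.toGraph := by
  classical
  have hmem : ∀ e : G.toGraph.edgeSet, h.edge e ∈ H.toGraph.edgeSet := by
    rintro ⟨e, he⟩
    induction e using Sym2.ind with
    | _ u v =>
      have huv : G.adj u v = true := by simpa using he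
      rw [h.edge_mk huv]
      obtain ⟨w, hw, e⟩ := h.mem u v (G.star_of_adj huv)
      rw [e]
      rw [H.star_iff_of_closed hH] at hw
      simpa using hw
  refine ⟨fun e => ⟨h.edge e, hmem e⟩, ?_⟩
  intro φ hφ
  rw [G.isFlow_iff]
  rw [H.isFlow_iff] at hφ
  intro v
  rw [← hφ (h.φ v)]
  -- choose the other end
  have hw : ∀ u, G.adj v u = true → ∃ w, H.adj (h.φ v) w = true ∧ h.F v u = s(h.φ v, w) := by
    intro u hu
    obtain ⟨w, hw, e⟩ := h.mem v u (G.star_of_adj hu)
    exact ⟨w, (H.star_iff_of_closed hH).mp hw, e⟩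
  have : Nonempty H.V := ⟨h.φ v⟩
  choose! g hg1 hg2 using hw
  have hinj : Set.InjOn g ((univ.filter (fun u => G.adj v u = true) : Finset G.V) : Set G.V) := by
    intro u hu u' hu' e
    simp only [coe_filter, mem_univ, true_and, Set.mem_ofPred_eq] at hu hu'
    apply h.inj v u u' (G.star_of_adj hu) (G.star_of_adj hu')
    rw [hg2 u hu, hg2 u' hu', e]
  have himg : (univ.filter (fun u => G.adj v u = true)).image g =
      univ.filter (fun w => H.adj (h.φ v) w = true) := by
    apply eq_of_subset_of_card_le
    · intro w hw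
      simp only [mem_image, mem_filter, mem_univ, true_and] at hw ⊢
      obtain ⟨u, hu, rfl⟩ := hw
      exact hg1 u hu
    · rw [card_image_of_injOn hinj, G.adj_card_of_closed hG, H.adj_card_of_closed hH]
  rw [← himg, sum_image hinj]
  refine sum_congr rfl ?_
  intro u hu
  simp only [mem_filter, mem_univ, true_and] at hu
  have hmemE : s(v, u) ∈ G.toGraph.edgeSet := by simpa using hu
  have h1 := G.ext_apply (φ ∘ fun e : G.toGraph.edgeSet => ⟨h.edge e, hmem e⟩) ⟨s(v, u), hmemE⟩
  rw [h1]
  have h2 := H.ext_apply φ ⟨h.edge s(v, u), hmem ⟨s(v, u), hmemE⟩⟩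
  simp only [Function.comp]
  rw [← h2]
  simp only
  rw [h.edge_mk hu, hg2 u hu]

/-! ### From cycle-continuous maps to star maps -/

open Classical in
/-- Parity of the number of times a walk uses an edge. -/
noncomputable def wcount {G : Pole} {x y : G.V} (p : G.toGraph.Walk x y)
    (e : Sym2 G.V) : ZMod 2 := (p.edges.count e : ZMod 2)

theorem wcount_sum {G : Pole} {x y : G.V} (p : G.toGraph.Walk x y) (v : G.V) :
    ∑ u ∈ univ.filter (fun u => G.adj v u = true), wcount p s(v, u) =
      (if v = x then 1 else 0) + (if v = y then 1 else 0) := by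
  classical
  induction p with
  | nil =>
    simp only [wcount, SimpleGraph.Walk.edges_nil, List.count_nil, Nat.cast_zero, sum_const_zero]
    split_ifs <;> decide
  | @cons a b c hab q ih =>
    have hab' : G.adj a b = true := hab
    have hne : a ≠ b := G.ne_of_adj hab'
    have h1 : ∀ u, wcount (SimpleGraph.Walk.cons hab q) s(v, u) =
        wcount q s(v, u) + (if s(a, b) = s(v, u) then 1 else 0) := by
      intro u
      simp only [wcount, SimpleGraph.Walk.edges_cons, List.count_cons, beq_iff_eq]
      push_cast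
      rfl
    simp only [h1, sum_add_distrib, ih]
    have h2 : ∑ u ∈ univ.filter (fun u => G.adj v u = true),
        (if s(a, b) = s(v, u) then (1 : ZMod 2) else 0) =
        (if v = a then 1 else 0) + (if v = b then 1 else 0) := by
      by_cases hva : v = a
      · subst hva
        rw [if_pos rfl, if_neg hne, add_zero]
        rw [sum_eq_single b]
        · simp
        · intro u _ hu
          rw [if_neg]
          intro e
          exact hu (Sym2.congr_right.mp e).symm
        · intro hb
          exact absurd (by simpa using hab') hb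
      · by_cases hvb : v = b
        · subst hvb
          rw [if_neg hva, if_pos rfl, zero_add]
          rw [sum_eq_single a]
          · rw [if_pos Sym2.eq_swap]
          · intro u _ hu
            rw [if_neg]
            intro e
            rw [Sym2.eq_swap] at e
            exact hu (Sym2.congr_right.mp e).symm
          · intro hb
            exact absurd (by simpa using G.adj_comm.mp hab') hb
        · rw [if_neg hva, if_neg hvb, add_zero]
          apply sum_eq_zero
          intro u _
          rw [if_neg]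
          intro e
          have : v ∈ s(a, b) := by rw [e]; simp
          rw [Sym2.mem_iff] at this
          rcases this with h | h
          · exact hva h
          · exact hvb h
    rw [h2]
    have h3 : ∀ t : ZMod 2, t + t = 0 := by decide
    have h4 := h3 (if v = b then (1 : ZMod 2) else 0)
    calc _ = (if v = a then (1 : ZMod 2) else 0) + (if v = c then 1 else 0) +
          ((if v = b then (1 : ZMod 2) else 0) + (if v = b then 1 else 0)) := by ring
      _ = _ := by rw [h4, add_zero]

/-- If the ends of an edge `a` of multiplicity one among three edges are connected avoiding the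
three edges, some flow is nonzero on their sum. -/
theorem not_reachable {H : Pole} {a : Fin 3 → H.toGraph.edgeSet}
    (h : ∀ φ, IsFlow H.toGraph φ → ∑ i, φ (a i) = 0) {x y : H.V}
    (hxy : H.adj x y = true) (hodd : (∑ i, if (a i : Sym2 H.V) = s(x, y) then (1 : ZMod 2) else 0) ≠ 0) :
    ¬ (H.toGraph.deleteEdges (Set.range fun i => (a i : Sym2 H.V))).Reachable x y := by
  classical
  rintro ⟨p⟩
  set p' : H.toGraph.Walk x y := p.mapLe (SimpleGraph.deleteEdges_le _) with hp'
  set q : H.toGraph.Walk x x := p'.concat (H.adj_comm.mp hxy) with hq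
  have hflow : IsFlow H.toGraph (fun e => wcount q (e : Sym2 H.V)) := by
    rw [H.isFlow_iff]
    intro v
    have h1 : ∀ u ∈ univ.filter (fun u => H.adj v u = true),
        H.ext (fun e => wcount q (e : Sym2 H.V)) s(v, u) = wcount q s(v, u) := by
      intro u hu
      have hE : s(v, u) ∈ H.toGraph.edgeSet := by simpa using hu
      exact H.ext_apply (fun e => wcount q (e : Sym2 H.V)) ⟨_, hE⟩
    rw [sum_congr rfl h1, wcount_sum]
    split_ifs <;> decide
  apply hodd
  refine Eq.trans ?_ (h _ hflow)
  refine sum_congr rfl ?_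
  intro i _
  have hcount : p'.edges.count (a i : Sym2 H.V) = 0 := by
    rw [List.count_eq_zero]
    intro hmem
    rw [hp'] at hmem
    rw [SimpleGraph.Walk.edges_mapLe_eq_edges] at hmem
    have := p.edges_subset_edgeSet hmem
    rw [SimpleGraph.edgeSet_deleteEdges] at this
    exact this.2 ⟨i, rfl⟩
  have hsw : s(y, x) = s(x, y) := Sym2.eq_swap
  have hval : wcount q (a i : Sym2 H.V) = if s(x, y) = (a i : Sym2 H.V) then 1 else 0 := by
    simp only [wcount, hq, SimpleGraph.Walk.edges_concat, List.concat_eq_append,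
      List.count_append, hcount, List.count_singleton, zero_add, beq_iff_eq, hsw]
    split_ifs <;> simp
  rw [hval]
  by_cases e : (a i : Sym2 H.V) = s(x, y)
  · rw [if_pos e, if_pos e.symm]
  · rw [if_neg e, if_neg (fun e' => e e'.symm)]

theorem exists_star {H : Pole} (hH : H.Closed) (hS : H.Strong) (a : Fin 3 → H.toGraph.edgeSet)
    (h : ∀ φ, IsFlow H.toGraph φ → ∑ i, φ (a i) = 0) :
    Function.Injective a ∧ ∃ w : H.V, ∀ i, w ∈ (a i : Sym2 H.V) := by
  classical
  -- an index with odd multiplicity
  obtain ⟨i0, hi0⟩ : ∃ i0 : Fin 3, (∑ i, if (a i : Sym2 H.V) = (a i0 : Sym2 H.V)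
      then (1 : ZMod 2) else 0) ≠ 0 := by
    by_cases h01 : (a 0 : Sym2 H.V) = (a 1 : Sym2 H.V)
    · refine ⟨2, ?_⟩
      rw [Fin.sum_univ_three, h01]
      by_cases h12 : (a 1 : Sym2 H.V) = (a 2 : Sym2 H.V)
      · simp only [h12, if_true]; decide
      · simp only [h12, if_false, if_true]; decide
    · by_cases h02 : (a 0 : Sym2 H.V) = (a 2 : Sym2 H.V)
      · refine ⟨1, ?_⟩
        rw [Fin.sum_univ_three]
        have h21 : ¬ (a 2 : Sym2 H.V) = (a 1 : Sym2 H.V) := fun e => h01 (h02.trans e)
        simp only [h01, h21, if_false, if_true]; decide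
      · refine ⟨0, ?_⟩
        rw [Fin.sum_univ_three]
        have h10 : ¬ (a 1 : Sym2 H.V) = (a 0 : Sym2 H.V) := fun e => h01 e.symm
        have h20 : ¬ (a 2 : Sym2 H.V) = (a 0 : Sym2 H.V) := fun e => h02 e.symm
        simp only [h10, h20, if_false, if_true]; decide
  obtain ⟨x, y, hxy⟩ : ∃ x y, (a i0 : Sym2 H.V) = s(x, y) := by
    induction (a i0 : Sym2 H.V) using Sym2.ind with
    | _ x y => exact ⟨x, y, rfl⟩
  have hadj : H.adj x y = true := by
    have := (a i0).2
    rw [hxy] at this
    simpa using this
  rw [hxy] at hi0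
  have hnr := not_reachable h hadj hi0
  set D := H.toGraph.deleteEdges (Set.range fun i => (a i : Sym2 H.V)) with hD
  set A : Finset H.V := univ.filter (fun w => D.Reachable x w) with hA
  -- crossing pairs are deleted edges
  have hcross : ∀ u v, u ∈ A → v ∉ A → H.adj u v = true → ∃ i, (a i : Sym2 H.V) = s(u, v) := by
    intro u v hu hv huv
    by_contra hne
    push Not at hne
    apply hv
    simp only [hA, mem_filter, mem_univ, true_and] at hu ⊢
    refine hu.trans (SimpleGraph.Adj.reachable ?_)
    rw [hD, SimpleGraph.deleteEdges_adj]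
    refine ⟨huv, ?_⟩
    rintro ⟨i, hi⟩
    exact hne i hi
  have hsub : (univ.filter (fun p : H.V × H.V => p.1 ∈ A ∧ p.2 ∉ A ∧ H.adj p.1 p.2 = true)).image
      (fun p => s(p.1, p.2)) ⊆ univ.image (fun i => (a i : Sym2 H.V)) := by
    intro e he
    simp only [mem_image, mem_filter, mem_univ, true_and] at he ⊢
    obtain ⟨⟨u, v⟩, ⟨hu, hv, huv⟩, rfl⟩ := he
    exact hcross u v hu hv huv
  have hinj : Set.InjOn (fun p : H.V × H.V => s(p.1, p.2))
      (univ.filter (fun p : H.V × H.V => p.1 ∈ A ∧ p.2 ∉ A ∧ H.adj p.1 p.2 = true) :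
        Finset (H.V × H.V)) := by
    rintro ⟨u, v⟩ hu ⟨u', v'⟩ hu' e
    simp only [coe_filter, mem_univ, true_and, Set.mem_ofPred_eq] at hu hu'
    simp only [Sym2.eq_iff] at e
    rcases e with ⟨rfl, rfl⟩ | ⟨rfl, rfl⟩
    · rfl
    · exact absurd hu.1 hu'.2.1
  have hcardF : (univ.image (fun i => (a i : Sym2 H.V))).card ≤ 3 := by
    refine le_trans card_image_le ?_
    simp
  have hcut : H.ecut A ≤ (univ.image (fun i => (a i : Sym2 H.V))).card := by
    unfold Pole.ecut
    rw [← card_image_of_injOn hinj]
    exact card_le_card hsub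
  have hxA : x ∈ A := by simp [hA]
  have hyA : y ∉ A := by simpa [hA] using hnr
  -- conclusion when the star of w consists of deleted edges
  have fin : ∀ w : H.V, (∀ v, H.adj w v = true → ∃ i, (a i : Sym2 H.V) = s(w, v)) →
      Function.Injective a ∧ ∃ w : H.V, ∀ i, w ∈ (a i : Sym2 H.V) := by
    intro w hw
    have himg : (univ.filter (fun v => H.adj w v = true)).image (fun v => s(w, v)) ⊆
        univ.image (fun i => (a i : Sym2 H.V)) := by
      intro e he
      simp only [mem_image, mem_filter, mem_univ, true_and] at he ⊢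
      obtain ⟨v, hv, rfl⟩ := he
      exact hw v hv
    have hc3 : ((univ.filter (fun v => H.adj w v = true)).image (fun v => s(w, v))).card = 3 := by
      rw [card_image_of_injective _ (fun u v e => Sym2.congr_right.mp e),
        H.adj_card_of_closed hH]
    have heq := eq_of_subset_of_card_le himg (by rw [hc3]; exact hcardF)
    have hinjS : Function.Injective (fun i => (a i : Sym2 H.V)) := by
      have h1 : (univ.image (fun i => (a i : Sym2 H.V))).card = (univ : Finset (Fin 3)).card := by
        rw [← heq, hc3]; simp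
      have h2 := card_image_iff.mp h1
      intro i j e
      exact h2 (by simp) (by simp) e
    refine ⟨fun i j e => hinjS (by simp only [e]), w, ?_⟩
    intro i
    have : (a i : Sym2 H.V) ∈ univ.image (fun i => (a i : Sym2 H.V)) :=
      mem_image_of_mem _ (mem_univ i)
    rw [← heq, mem_image] at this
    obtain ⟨v, _, e⟩ := this
    rw [← e]; simp
  rcases H.small_cut hH hS A (hcut.trans hcardF) with h0 | h0 | ⟨w, hw⟩ | ⟨w, hw⟩
  · rw [h0] at hxA; exact absurd hxA (notMem_empty _)
  · have : y ∈ Aᶜ := by simpa using hyA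
    rw [h0] at this; exact absurd this (notMem_empty _)
  · apply fin w
    intro v hv
    apply hcross w v (by rw [hw]; simp) _ hv
    rw [hw, mem_singleton]
    exact fun e => H.ne_of_adj hv e.symm
  · apply fin w
    intro v hv
    have hwA : w ∉ A := by
      have : w ∈ Aᶜ := by rw [hw]; simp
      simpa using this
    have hvA : v ∈ A := by
      by_contra hv'
      have : v ∈ Aᶜ := by simpa using hv'
      rw [hw, mem_singleton] at this
      exact H.ne_of_adj hv this.symm
    obtain ⟨i, hi⟩ := hcross v w hvA hwA (H.adj_comm.mp hv)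
    exact ⟨i, hi.trans Sym2.eq_swap⟩

theorem hom_of_ccle {G H : Pole} (hG : G.Closed) (hH : H.Closed) (hS : H.Strong)
    (h : CCLE G.toGraph H.toGraph) : Nonempty (Hom G H) := by
  classical
  obtain ⟨f, hf⟩ := h
  have hstar : ∀ v : G.V, ∃ w : H.V, ∀ u (hu : G.adj v u = true),
      w ∈ (f ⟨s(v, u), by simpa using hu⟩ : Sym2 H.V) ∧
      ∀ u' (hu' : G.adj v u' = true),
        f ⟨s(v, u), by simpa using hu⟩ = f ⟨s(v, u'), by simpa using hu'⟩ → u = u' := by
    intro v
    have hc := G.adj_card_of_closed hG v
    let e : Fin 3 ≃ {u // u ∈ univ.filter (fun u => G.adj v u = true)} :=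
      (Fintype.equivFinOfCardEq (by rw [Fintype.card_coe]; exact hc)).symm
    have he : ∀ i, G.adj v (e i) = true := fun i => (mem_filter.mp (e i).2).2
    let a : Fin 3 → H.toGraph.edgeSet := fun i => f ⟨s(v, (e i : G.V)), by simpa using he i⟩
    have ha : ∀ φ, IsFlow H.toGraph φ → ∑ i, φ (a i) = 0 := by
      intro φ hφ
      have h1 := (G.isFlow_iff _).mp (hf φ hφ) v
      rw [← h1, ← sum_coe_sort (univ.filter (fun u => G.adj v u = true)),
        ← Equiv.sum_comp e]
      refine sum_congr rfl ?_
      intro i _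
      exact (G.ext_apply (φ ∘ f) ⟨s(v, (e i : G.V)), by simpa using he i⟩).symm
    obtain ⟨hinj, w, hw⟩ := exists_star hH hS a ha
    refine ⟨w, ?_⟩
    intro u hu
    obtain ⟨i, hi⟩ := e.surjective ⟨u, by simpa using hu⟩
    have hiu : (e i : G.V) = u := by rw [hi]
    constructor
    · have := hw i
      simp only [a, hiu] at this
      exact this
    · intro u' hu' heq
      obtain ⟨j, hj⟩ := e.surjective ⟨u', by simpa using hu'⟩
      have hju : (e j : G.V) = u' := by rw [hj]
      have : a i = a j := by
        simp only [a, hiu, hju]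
        exact heq
      have := hinj this
      rw [← hiu, ← hju, this]
  choose φ hφ using hstar
  refine ⟨⟨φ, fun u v => if h : G.adj u v = true then (f ⟨s(u, v), by simpa using h⟩ : Sym2 H.V)
    else s(φ u, φ u), ?_, ?_, ?_⟩⟩
  · intro u v huv
    have hvu := G.adj_comm.mp huv
    rw [dif_pos huv, dif_pos hvu]
    congr 2
    apply Subtype.ext
    exact Sym2.eq_swap
  · intro u v huv
    have huv' := (G.star_iff_of_closed hG).mp huv
    rw [dif_pos huv']
    have h1 := (hφ u v huv').1
    obtain ⟨w, hw⟩ := Sym2.mem_iff_exists.mp h1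
    refine ⟨w, ?_, hw⟩
    apply H.star_of_adj
    have h2 := (f ⟨s(u, v), by simpa using huv'⟩).2
    rw [hw] at h2
    simpa using h2
  · intro u v w huv huw heq
    have huv' := (G.star_iff_of_closed hG).mp huv
    have huw' := (G.star_iff_of_closed hG).mp huw
    rw [dif_pos huv', dif_pos huw'] at heq
    exact (hφ u v huv').2 w huw' (Subtype.ext heq)

end Pool.Agent.Lib.MP_75ff39_co
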