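import Pool.Agent.Lib.MP_75ff39_co.LocInj

set_option autoImplicit false

/-!
# Colourings with one defect in every copy of `K`
-/

namespace Pool.Agent.Lib.MP_75ff39_co

open Finset

/-- Colour tables of the negator: for `m < 7` the table `m` has its only defect at the vertex `m`
and all pairs monochromatic of colour `1`; tables `7` and `8` are proper. Diagonal entries are the
colours of the semi-edges. -/
def negTab : List (List (List ℕ)) := [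
  [[1, 0, 0, 0, 0, 1, 0], [0, 1, 0, 0, 0, 0, 2], [0, 0, 1, 0, 2, 0, 0], [0, 0, 0, 0, 0, 2, 1], [0, 0, 2, 0, 1, 0, 0], [1, 0, 0, 2, 0, 0, 0], [0, 2, 0, 1, 0, 0, 0]],
  [[1, 0, 0, 0, 0, 2, 0], [0, 1, 0, 0, 0, 0, 1], [0, 0, 1, 0, 2, 0, 0], [0, 0, 0, 0, 0, 1, 2], [0, 0, 2, 0, 1, 0, 0], [2, 0, 0, 1, 0, 0, 0], [0, 1, 0, 2, 0, 0, 0]],
  [[1, 2, 0, 0, 0, 0, 0], [2, 1, 0, 0, 0, 0, 0], [0, 0, 1, 0, 0, 1, 0], [0, 0, 0, 0, 0, 2, 1], [0, 0, 0, 0, 1, 0, 2], [0, 0, 1, 2, 0, 0, 0], [0, 0, 0, 1, 2, 0, 0]],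
  [[1, 0, 0, 0, 0, 2, 0], [0, 1, 0, 0, 0, 0, 2], [0, 0, 1, 0, 2, 0, 0], [0, 0, 0, 0, 0, 1, 1], [0, 0, 2, 0, 1, 0, 0], [2, 0, 0, 1, 0, 0, 0], [0, 2, 0, 1, 0, 0, 0]],
  [[1, 2, 0, 0, 0, 0, 0], [2, 1, 0, 0, 0, 0, 0], [0, 0, 1, 0, 0, 2, 0], [0, 0, 0, 0, 0, 1, 2], [0, 0, 0, 0, 1, 0, 1], [0, 0, 2, 1, 0, 0, 0], [0, 0, 0, 2, 1, 0, 0]],
  [[1, 0, 0, 0, 0, 2, 0], [0, 1, 0, 0, 0, 0, 2], [0, 0, 1, 0, 2, 0, 0], [0, 0, 0, 0, 0, 2, 1], [0, 0, 2, 0, 1, 0, 0], [2, 0, 0, 2, 0, 0, 0], [0, 2, 0, 1, 0, 0, 0]],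
  [[1, 0, 0, 0, 0, 2, 0], [0, 1, 0, 0, 0, 0, 2], [0, 0, 1, 0, 2, 0, 0], [0, 0, 0, 0, 0, 1, 2], [0, 0, 2, 0, 1, 0, 0], [2, 0, 0, 1, 0, 0, 0], [0, 2, 0, 2, 0, 0, 0]],
  [[1, 2, 0, 0, 0, 0, 0], [2, 1, 0, 0, 0, 0, 0], [0, 0, 1, 0, 0, 2, 0], [0, 0, 0, 0, 0, 1, 2], [0, 0, 0, 0, 2, 0, 1], [0, 0, 2, 1, 0, 0, 0], [0, 0, 0, 2, 1, 0, 0]],
  [[1, 2, 0, 0, 0, 0, 0], [2, 1, 0, 0, 0, 0, 0], [0, 0, 2, 0, 0, 1, 0], [0, 0, 0, 0, 0, 2, 1], [0, 0, 0, 0, 1, 0, 2], [0, 0, 1, 2, 0, 0, 0], [0, 0, 0, 1, 2, 0, 0]]]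

def tabN (m u v : ℕ) : ℕ := ((negTab.getD m []).getD u []).getD v 0

def tabF (m : ℕ) (u v : Fin 7) : Fin 3 := Fin.ofNat 3 (tabN m u.val v.val)

theorem tab_symm : ∀ m : Fin 9, ∀ u v : Fin 7, tabF m u v = tabF m v u := by decide +kernel

theorem tab_inj : ∀ m : Fin 9, ∀ v : Fin 7, v.val ≠ m.val → ∀ u w : Fin 7,
    (negAdj v u = true ∨ (v = u ∧ decide (v.val ≤ 4) = true)) →
    (negAdj v w = true ∨ (v = w ∧ decide (v.val ≤ 4) = true)) →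
    tabF m v u = tabF m v w → u = w := by decide +kernel

/-- The table used at cyclic distance `t` from the defect `x0`. -/
def sel (t : ZMod 7) (x0 : Fin 7) : Fin 9 :=
  if t = 0 then ⟨x0.val, by omega⟩ else if t.val % 2 = 1 then 7 else 8

theorem sel_compat : ∀ t : ZMod 7, ∀ x0 : Fin 7, ∀ a : Fin 2,
    tabF (sel t x0) (negOut a) (negOut a) = tabF (sel (t + 1) x0) (negInn a) (negInn a) := by
  decide +kernel

theorem tab_res : ∀ m : Fin 9, tabF m 3 3 = 0 := by decide +kernel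

theorem sel_ne : ∀ t : ZMod 7, t ≠ 0 → ∀ x0 v : Fin 7, v.val ≠ (sel t x0).val := by
  decide +kernel

theorem sel_zero : ∀ x0 v : Fin 7, v ≠ x0 → v.val ≠ (sel 0 x0).val := by
  decide +kernel

/-- `X` can be coloured with all semi-edges of colour `0`, and with defects only at one chosen
vertex in each copy `κ k` of `K`. -/
def DC (X : Pole) {𝒦 : Type} (κ : 𝒦 → K.V → X.V) : Prop :=
  ∀ r : 𝒦 → K.V, ∃ c : X.V → X.V → Fin 3,
    LI X c (fun v => ∃ k, v = κ k (r k)) ∧ ∀ v, X.port v = true → c v v = 0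

theorem K_DC : DC K (fun (_ : Unit) x => x) := by
  intro r
  rcases hr : r () with ⟨j0, x0⟩
  have hLI : ∀ j : ZMod 7, LI Neg (tabF (sel (j - j0) x0)) (fun v => j = j0 ∧ v = x0) := by
    intro j
    refine ⟨fun u v _ => tab_symm _ u v, ?_⟩
    intro v hv u w hu hw e
    refine tab_inj (sel (j - j0) x0) v ?_ u w hu hw e
    by_cases hj : j = j0
    · have hv' : v ≠ x0 := fun e => hv ⟨hj, e⟩
      rw [hj, sub_self]
      exact sel_zero x0 v hv'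
    · exact sel_ne _ (sub_ne_zero.mpr hj) x0 v
  have hlink : ∀ x y : Σ _ : ZMod 7, Neg.V, KL.lk x y = true →
      tabF (sel (x.1 - j0) x0) x.2 x.2 = tabF (sel (y.1 - j0) x0) y.2 y.2 := by
    intro x y hxy
    rcases (ringLinks_lk negRing 7).mp hxy with ⟨h1, a, h2, h3⟩ | ⟨h1, a, h2, h3⟩
    · rw [h2, h3, h1]
      have := sel_compat (x.1 - j0) x0 a
      rw [show x.1 - j0 + 1 = x.1 + 1 - j0 by ring] at this
      exact this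
    · rw [h2, h3, h1]
      have := sel_compat (y.1 - j0) x0 a
      rw [show y.1 - j0 + 1 = y.1 + 1 - j0 by ring] at this
      exact this.symm
  have hg := glue_LI KL (c := fun j => tabF (sel (j - j0) x0)) hLI hlink
  refine ⟨glueF (f := fun _ : ZMod 7 => Neg) (fun j => tabF (sel (j - j0) x0)), ?_, ?_⟩
  · refine ⟨hg.symm, ?_⟩
    intro v hv u w hu hw e
    apply hg.inj v _ u w hu hw e
    rintro ⟨h1, h2⟩
    apply hv
    refine ⟨(), ?_⟩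
    change v = r ()
    rw [hr]
    exact Sigma.ext h1 (heq_of_eq h2)
  · rintro ⟨j, v⟩ hv
    have hv' := (KL_port_iff ⟨j, v⟩).mp hv
    simp only at hv'
    rw [hv', glueF_same]
    exact tab_res _

section

variable {I : Type} [Fintype I] [DecidableEq I] {f : I → Pole} (L : Links f)

theorem compose_DC {𝒦 : I → Type} {κ : ∀ i, 𝒦 i → K.V → (f i).V}
    (h : ∀ i, DC (f i) (κ i)) :
    DC (compose L) (fun (k : Σ i, 𝒦 i) x => (⟨k.1, κ k.1 k.2 x⟩ : Σ i, (f i).V)) := by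
  intro r
  choose c hc1 hc2 using fun i => h i (fun k => r ⟨i, k⟩)
  have hg := glue_LI L hc1 (by
    intro x y hxy
    rw [hc2 x.1 x.2 (L.port _ _ hxy), hc2 y.1 y.2 (L.port _ _ (by rw [L.symm]; exact hxy))])
  refine ⟨glueF c, ⟨hg.symm, ?_⟩, ?_⟩
  · intro v hv u w hu hw e
    apply hg.inj v _ u w hu hw e
    rintro ⟨k, hk⟩
    apply hv
    exact ⟨⟨v.1, k⟩, Sigma.ext rfl (heq_of_eq hk)⟩
  · rintro ⟨i, v⟩ hv
    have hv' := (cport_iff L).mp hv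
    change glueF c ⟨i, v⟩ ⟨i, v⟩ = 0
    rw [glueF_same]
    exact hc2 i v hv'.1

end

end Pool.Agent.Lib.MP_75ff39_co
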