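import Mathlib

set_option autoImplicit false

/-!
# Cycle-continuous maps and cyclic edge-connectivity

The notions of the problem, for finite simple graphs (all graphs we construct are simple).
-/

namespace Pool.Agent.Lib.MP_75ff39_co

/-- A `ℤ₂`-flow on a finite graph `G`: a map `φ : E(G) → ℤ₂` such that at every vertex `v` the
values of `φ` on the edges incident with `v` sum to `0`. (The finite sum is written with `∑ᶠ`.) -/
def IsFlow {V : Type*} (G : SimpleGraph V) (φ : G.edgeSet → ZMod 2) : Prop :=
  ∀ v : V, ∑ᶠ (e : G.edgeSet) (_ : v ∈ (e : Sym2 V)), φ e = 0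

/-- A map `f : E(G) → E(H)` is cycle-continuous if `φ ∘ f` is a `ℤ₂`-flow on `G` for every
`ℤ₂`-flow `φ` on `H`. -/
def IsCycleContinuous {V W : Type*} (G : SimpleGraph V) (H : SimpleGraph W)
    (f : G.edgeSet → H.edgeSet) : Prop :=
  ∀ φ : H.edgeSet → ZMod 2, IsFlow H φ → IsFlow G (φ ∘ f)

/-- `G ≤ H`: there is a cycle-continuous map `E(G) → E(H)`. -/
def CCLE {V W : Type*} (G : SimpleGraph V) (H : SimpleGraph W) : Prop :=
  ∃ f : G.edgeSet → H.edgeSet, IsCycleContinuous G H f

/-- `G` is cyclically `k`-edge-connected: after deleting a set `F` of fewer than `k` edges, any two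
cycles of the remaining graph lie in the same component. -/
def CyclicallyEdgeConnected {V : Type*} (k : ℕ) (G : SimpleGraph V) : Prop :=
  ∀ F : Set (Sym2 V), F.encard < k →
    ∀ (u v : V) (p : (G.deleteEdges F).Walk u u) (q : (G.deleteEdges F).Walk v v),
      p.IsCycle → q.IsCycle → (G.deleteEdges F).Reachable u v

/-- The class `𝒞_k`: connected cubic cyclically `k`-edge-connected graphs. -/
def InClass {V : Type*} (k : ℕ) (G : SimpleGraph V) : Prop :=
  G.Connected ∧ (∀ v : V, (G.neighborSet v).encard = 3) ∧ CyclicallyEdgeConnected k G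

end Pool.Agent.Lib.MP_75ff39_co
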