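import Pool.Agent.Lib.MP_75ff39_co.Pattern

set_option autoImplicit false

/-!
# Joining poles through long chains of blocks
-/

namespace Pool.Agent.Lib.MP_75ff39_co

open Finset

/-! ### The block as a pole with special ports -/

theorem LI.mono {X : Pole} {α : Type} {F : X.V → X.V → α} {R R' : X.V → Prop} (h : LI X F R)
    (hR : ∀ v, R v → R' v) : LI X F R' :=
  ⟨h.symm, fun v hv u w hu hw e => h.inj v (fun h' => hv (hR v h')) u w hu hw e⟩

/-- The empty system. -/
def blkSys : PSys Blk where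
  ι := Empty
  κ := fun k => k.elim
  inj := fun k => k.elim
  adj := fun k => k.elim
  next := Equiv.refl _
  link := fun k => k.elim
  ne1 := fun k => k.elim
  ne2 := fun k => k.elim
  hz := fun k => k.elim
  dc := fun _ => ⟨blkCol blkTab0, blkCol0_li.mono (fun _ h => h.elim), blkCol0_port⟩
  per := fun k => k.elim
  hper := fun k => k.elim

/-- The special ports of the block. -/
def blkSp (a : Fin 6) : Fin 12 := ⟨a.val, by omega⟩

/-- The block with its six ports. -/
def blk : SPole where
  X := Blk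
  good := Blk_good
  sp := blkSp
  sp_inj := by
    intro a b h
    have : blkSp a = blkSp b := h
    unfold blkSp at this
    rw [Fin.mk.injEq] at this
    exact Fin.ext this
  sp_port := by
    intro a
    change decide ((blkSp a).val ≤ 5) = true
    rw [decide_eq_true_eq]
    have := a.2
    change a.val ≤ 5
    omega
  sys := blkSys

theorem blk_lens (N : ℕ) : N ∉ blk.lens := by
  rintro ⟨k, _⟩
  exact Empty.elim k

/-- The block maps to the star of a vertex with prescribed images of the ports `4` and `3`. -/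
theorem blk_step {H : Pole} (hH : H.Closed) {w x y : H.V} (hx : H.adj w x = true)
    (hy : H.adj w y = true) : ∃ h : Hom blk.X H,
      h.F (blk.sp 4) (blk.sp 4) = s(w, x) ∧ h.F (blk.sp 3) (blk.sp 3) = s(w, y) := by
  by_cases hxy : x = y
  · subst hxy
    obtain ⟨e, he, hinj, h0⟩ := exists_frame hH hx
    refine ⟨starHom w e he hinj blkCol0_li, ?_, ?_⟩
    · change s(w, e (blkCol blkTab0 4 4)) = _
      rw [show blkCol blkTab0 4 4 = 0 by decide, h0]
    · change s(w, e (blkCol blkTab0 3 3)) = _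
      rw [show blkCol blkTab0 3 3 = 0 by decide, h0]
  · obtain ⟨e, he, hinj, h0, h1⟩ := exists_frame2 hH hx hy hxy
    refine ⟨starHom w e he hinj blkCol1_li, ?_, ?_⟩
    · change s(w, e (blkCol blkTab1 4 4)) = _
      rw [show blkCol blkTab1 4 4 = 0 by decide, h0]
    · change s(w, e (blkCol blkTab1 3 3)) = _
      rw [show blkCol blkTab1 3 3 = 1 by decide, h1]

/-! ### Step sequences -/

/-- Two edges with a common end. -/
def Step (H : Pole) (α β : Sym2 H.V) : Prop :=
  ∃ w x y, H.adj w x = true ∧ H.adj w y = true ∧ α = s(w, x) ∧ β = s(w, y)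

/-- A sequence of `L` steps. -/
def StepS (H : Pole) (L : ℕ) (α β : Sym2 H.V) : Prop :=
  ∃ s : ℕ → Sym2 H.V, s 0 = α ∧ s L = β ∧ ∀ i < L, Step H (s i) (s (i + 1))

theorem StepS.cons {H : Pole} {L : ℕ} {α β γ : Sym2 H.V} (h : Step H α γ) (h' : StepS H L γ β) :
    StepS H (L + 1) α β := by
  obtain ⟨s, h0, hL, hs⟩ := h'
  refine ⟨fun i => if i = 0 then α else s (i - 1), by simp, by simpa using hL, ?_⟩
  intro i hi
  rcases i with _ | i
  · simpa [h0] using h
  · simpa using hs i (by omega)

theorem stepS_walk {H : Pole} {a c : H.V} (p : H.toGraph.Walk a c) :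
    ∀ b d, H.adj a b = true → H.adj c d = true → StepS H (p.length + 1) s(a, b) s(c, d) := by
  induction p with
  | nil =>
    rename_i a
    intro b d hb hd
    refine StepS.cons (γ := s(a, d)) ⟨a, b, d, hb, hd, rfl, rfl⟩ ⟨fun _ => s(a, d), rfl, rfl, ?_⟩
    intro i hi
    exact absurd hi (Nat.not_lt_zero i)
  | cons hadj p ih =>
    rename_i a a' c
    intro b d hb hd
    have hadj' : H.adj a a' = true := hadj
    have h1 := ih a d (H.adj_comm.mp hadj') hd
    rw [SimpleGraph.Walk.length_cons]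
    refine StepS.cons (γ := s(a', a)) ⟨a, b, a', hb, hadj', rfl, Sym2.eq_swap⟩ h1

theorem StepS.mono {H : Pole} {L : ℕ} {a b : H.V} {β : Sym2 H.V} (hab : H.adj a b = true)
    (h : StepS H L s(a, b) β) (k : ℕ) : StepS H (L + k) s(a, b) β := by
  induction k with
  | zero => exact h
  | succ k ih => exact StepS.cons ⟨a, b, b, hab, hab, rfl, rfl⟩ ih

theorem stepS_of_connected {H : Pole} (hc : H.toGraph.Connected) {L : ℕ}
    (hL : Fintype.card H.V ≤ L) {a b c d : H.V} (hab : H.adj a b = true)
    (hcd : H.adj c d = true) : StepS H L s(a, b) s(c, d) := by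
  classical
  obtain ⟨p, hp⟩ := (hc.preconnected a c).exists_isPath
  have h1 := hp.length_lt
  have h2 := StepS.mono hab (stepS_walk p b d hab hcd) (L - (p.length + 1))
  rwa [show p.length + 1 + (L - (p.length + 1)) = L by omega] at h2

/-! ### Joins -/

instance factJ (L : ℕ) : Fact (2 ≤ 2 * L + 2) := ⟨by omega⟩

/-- The sequence of pieces of a join. -/
def jf (L : ℕ) (X Y : SPole) (l : ZMod (2 * L + 2)) : SPole :=
  if l.val = 0 then X else if l.val = L + 1 then Y else blk

/-- The join of two poles. -/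
def join (L : ℕ) (X Y : SPole) : SPole := ringOf (2 * L + 2) (jf L X Y)

theorem jf_zero (L : ℕ) (X Y : SPole) : jf L X Y 0 = X := by
  unfold jf
  rw [if_pos ZMod.val_zero]

theorem jf_mid (L : ℕ) (X Y : SPole) : jf L X Y ((L + 1 : ℕ) : ZMod (2 * L + 2)) = Y := by
  have h : ((L + 1 : ℕ) : ZMod (2 * L + 2)).val = L + 1 := by
    rw [ZMod.val_natCast, Nat.mod_eq_of_lt (by omega)]
  unfold jf
  rw [if_neg (by rw [h]; omega), if_pos h]

theorem jf_cases (L : ℕ) (X Y : SPole) (l : ZMod (2 * L + 2)) :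
    jf L X Y l = X ∨ jf L X Y l = Y ∨ jf L X Y l = blk := by
  unfold jf
  split_ifs
  · exact Or.inl rfl
  · exact Or.inr (Or.inl rfl)
  · exact Or.inr (Or.inr rfl)

theorem lens_join (L : ℕ) (X Y : SPole) (N : ℕ) :
    N ∈ (join L X Y).lens ↔ N ∈ X.lens ∨ N ∈ Y.lens := by
  unfold join
  rw [lens_ringOf]
  constructor
  · rintro ⟨l, hl⟩
    rcases jf_cases L X Y l with h | h | h
    · rw [h] at hl; exact Or.inl hl
    · rw [h] at hl; exact Or.inr hl
    · rw [h] at hl; exact absurd hl (blk_lens N)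
  · rintro (h | h)
    · exact ⟨0, by rw [jf_zero]; exact h⟩
    · exact ⟨_, by rw [jf_mid]; exact h⟩

theorem ringOf_piece (n : ℕ) [Fact (2 ≤ n)] (f : ZMod n → SPole) {H : Pole}
    (h : Hom (ringOf n f).X H) (l : ZMod n) : Nonempty (Hom (f l).X H) :=
  ⟨Hom.piece (patLinks (rp n) (fun i : ZMod n × Fin 4 => f i.1)) h (l, 0)⟩

theorem join_left {L : ℕ} {X Y : SPole} {H : Pole} (h : Hom (join L X Y).X H) :
    Nonempty (Hom X.X H) := by
  have := ringOf_piece _ _ h 0
  rwa [jf_zero] at this

theorem join_right {L : ℕ} {X Y : SPole} {H : Pole} (h : Hom (join L X Y).X H) :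
    Nonempty (Hom Y.X H) := by
  have := ringOf_piece _ _ h ((L + 1 : ℕ) : ZMod (2 * L + 2))
  rwa [jf_mid] at this

/-- Gluing maps of the pieces of a ring. -/
theorem ringOf_hom (n : ℕ) [Fact (2 ≤ n)] (f : ZMod n → SPole) {H : Pole}
    (h : ∀ l, Hom (f l).X H)
    (hc : ∀ l, (h l).F ((f l).sp 3) ((f l).sp 3) =
      (h (l + 1)).F ((f (l + 1)).sp 4) ((f (l + 1)).sp 4)) :
    Nonempty (Hom (ringOf n f).X H) := by
  refine ⟨Hom.glue (patLinks (rp n) (fun i : ZMod n × Fin 4 => f i.1)) (fun i => h i.1) ?_⟩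
  intro x y hxy
  rw [patLinks_lk] at hxy
  obtain ⟨⟨⟨l, q⟩, a⟩, hne, rfl, rfl⟩ := hxy
  fin_cases a
  · rfl
  · rfl
  · rfl
  · exact hc l
  · have := hc (l - 1)
    have e : l - 1 + 1 = l := sub_add_cancel l 1
    change (h l).F ((f l).sp 4) ((f l).sp 4) = (h (l - 1)).F ((f (l - 1)).sp 3) ((f (l - 1)).sp 3)
    rw [this]
    rw [e]
  · exact absurd rfl hne

theorem edge_of_port {X : SPole} {H : Pole} (hH : H.Closed) (h : Hom X.X H) (a : Fin 6) :
    ∃ u v, H.adj u v = true ∧ h.F (X.sp a) (X.sp a) = s(u, v) := by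
  obtain ⟨w, hw, e⟩ := h.mem (X.sp a) (X.sp a) (Or.inr ⟨rfl, X.sp_port a⟩)
  exact ⟨_, w, (H.star_iff_of_closed hH).mp hw, e⟩

theorem join_hom {L : ℕ} {X Y : SPole} {H : Pole} (hH : H.Closed) (hc : H.toGraph.Connected)
    (hL : Fintype.card H.V ≤ L) (hX : Hom X.X H) (hY : Hom Y.X H) :
    Nonempty (Hom (join L X Y).X H) := by
  obtain ⟨u3, v3, e3, f3⟩ := edge_of_port hH hX 3
  obtain ⟨u4, v4, e4, f4⟩ := edge_of_port hH hX 4
  obtain ⟨x3, y3, g3, k3⟩ := edge_of_port hH hY 3
  obtain ⟨x4, y4, g4, k4⟩ := edge_of_port hH hY 4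
  obtain ⟨s, s0, sL, hs⟩ := stepS_of_connected hc hL e3 g4
  obtain ⟨t, t0, tL, ht⟩ := stepS_of_connected hc hL g3 e4
  have hL1 : 1 ≤ L := le_trans (Fintype.card_pos_iff.mpr ⟨u3⟩) hL
  let a : ℕ → Sym2 H.V := fun v =>
    if v = 0 then s(u4, v4) else if v ≤ L + 1 then s (v - 1) else t (v - (L + 2))
  have key : ∀ l : ZMod (2 * L + 2), ∃ h : Hom (jf L X Y l).X H,
      h.F ((jf L X Y l).sp 4) ((jf L X Y l).sp 4) = a l.val ∧
      h.F ((jf L X Y l).sp 3) ((jf L X Y l).sp 3) = a (l.val + 1) := by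
    intro l
    have hlt : l.val < 2 * L + 2 := ZMod.val_lt l
    unfold jf
    by_cases h0 : l.val = 0
    · rw [if_pos h0]
      refine ⟨hX, ?_, ?_⟩
      · rw [f4]; simp [a, h0]
      · rw [f3, ← s0]; simp [a, h0]
    · rw [if_neg h0]
      by_cases h1 : l.val = L + 1
      · rw [if_pos h1]
        refine ⟨hY, ?_, ?_⟩
        · rw [k4, ← sL]; simp [a, h1]
        · rw [k3, ← t0]; simp [a, h1]
      · rw [if_neg h1]
        have hstep : Step H (a l.val) (a (l.val + 1)) := by
          by_cases h2 : l.val ≤ L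
          · have e1 : a l.val = s (l.val - 1) := by
              simp only [a]
              rw [if_neg h0, if_pos (by omega)]
            have e2 : a (l.val + 1) = s (l.val - 1 + 1) := by
              simp only [a]
              rw [if_neg (by omega), if_pos (by omega)]
              congr 1
              omega
            rw [e1, e2]
            exact hs _ (by omega)
          · have e1 : a l.val = t (l.val - (L + 2)) := by
              simp only [a]
              rw [if_neg h0, if_neg (by omega)]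
            have e2 : a (l.val + 1) = t (l.val - (L + 2) + 1) := by
              simp only [a]
              rw [if_neg (by omega), if_neg (by omega)]
              congr 1
              omega
            rw [e1, e2]
            exact ht _ (by omega)
        obtain ⟨w, x, y, hx, hy, e1, e2⟩ := hstep
        obtain ⟨h, h4, h3⟩ := blk_step hH hx hy
        exact ⟨h, h4.trans e1.symm, h3.trans e2.symm⟩
  choose h h4 h3 using key
  apply ringOf_hom _ _ h
  intro l
  rw [h3, h4]
  have hlt : l.val < 2 * L + 2 := ZMod.val_lt l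
  have hv : (l + 1).val = (l.val + 1) % (2 * L + 2) := by
    rw [ZMod.val_add, ZMod.val_one_eq_one_mod, Nat.add_mod_mod]
  rw [hv]
  by_cases hlast : l.val + 1 = 2 * L + 2
  · rw [hlast, Nat.mod_self]
    have e1 : a (2 * L + 2) = t L := by
      simp only [a]
      rw [if_neg (by omega), if_neg (by omega)]
      congr 1
      omega
    rw [e1, tL]
    simp [a]
  · rw [Nat.mod_eq_of_lt (by omega)]

end Pool.Agent.Lib.MP_75ff39_co
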