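import Pool.Agent.Lib.MP_75ff39_co.Negator

set_option autoImplicit false

/-!
# Locally injective edge labellings, restriction to pieces and gluing
-/

namespace Pool.Agent.Lib.MP_75ff39_co

open Finset

/-- `F` is a symmetric edge labelling (`F v v` labels the semi-edge of a port `v`) that is
injective on the star of every vertex not in `R`. -/
structure LI (X : Pole) {α : Type} (F : X.V → X.V → α) (R : X.V → Prop) : Prop where
  symm : ∀ u v, X.adj u v = true → F u v = F v u
  inj : ∀ v, ¬ R v → ∀ u w, X.Star v u → X.Star v w → F v u = F v w → u = w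

section

variable {I : Type} [Fintype I] [DecidableEq I] {f : I → Pole} (L : Links f)

open Classical in
/-- The partner of a linked port. -/
noncomputable def partner (x : Σ i, (f i).V) : Σ i, (f i).V :=
  if h : Linked L x then h.choose else x

theorem lk_partner {x : Σ i, (f i).V} (h : Linked L x) : L.lk x (partner L x) = true := by
  unfold partner
  rw [dif_pos h]
  exact h.choose_spec

theorem partner_eq {x y : Σ i, (f i).V} (h : L.lk x y = true) : partner L x = y :=
  L.func x _ _ (lk_partner L ⟨y, h⟩) h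

theorem partner_of_not {x : Σ i, (f i).V} (h : ¬ Linked L x) : partner L x = x := by
  unfold partner
  rw [dif_neg h]

/-- Restriction of an edge labelling of the glued graph to a piece. -/
noncomputable def restr {α : Type} (F : (Σ i, (f i).V) → (Σ i, (f i).V) → α) (i : I)
    (u v : (f i).V) : α :=
  if u = v then F ⟨i, v⟩ (partner L ⟨i, v⟩) else F ⟨i, u⟩ ⟨i, v⟩

theorem restr_adj {α : Type} (F : (Σ i, (f i).V) → (Σ i, (f i).V) → α) (i : I)
    {u v : (f i).V} (h : (f i).adj u v = true) : restr L F i u v = F ⟨i, u⟩ ⟨i, v⟩ := by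
  unfold restr
  rw [if_neg ((f i).ne_of_adj h)]

theorem restr_self {α : Type} (F : (Σ i, (f i).V) → (Σ i, (f i).V) → α) (i : I)
    (v : (f i).V) : restr L F i v v = F ⟨i, v⟩ (partner L ⟨i, v⟩) := by
  unfold restr
  rw [if_pos rfl]

/-- The other end, in the glued graph, of an element of the star of `v` in the piece `i`. -/
noncomputable def oend (i : I) (v u : (f i).V) : Σ i, (f i).V :=
  if v = u then partner L ⟨i, v⟩ else ⟨i, u⟩

theorem oend_star {i : I} {v u : (f i).V} (h : (f i).Star v u) :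
    (compose L).Star (⟨i, v⟩ : Σ i, (f i).V) (oend L i v u) := by
  unfold oend
  rcases h with h | ⟨rfl, h⟩
  · rw [if_neg ((f i).ne_of_adj h)]
    left
    change cadj L ⟨i, v⟩ ⟨i, u⟩ = true
    rw [cadj_same]; exact h
  · rw [if_pos rfl]
    by_cases hl : Linked L ⟨i, v⟩
    · left
      exact cadj_of_lk L (lk_partner L hl)
    · right
      rw [partner_of_not L hl]
      refine ⟨rfl, ?_⟩
      change cport L ⟨i, v⟩ = true
      rw [cport_iff]
      exact ⟨h, hl⟩

theorem oend_inj {i : I} {v u w : (f i).V} (h : oend L i v u = oend L i v w)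
    (hu : (f i).Star v u) (hw : (f i).Star v w) : u = w := by
  unfold oend at h
  by_cases h1 : v = u
  · by_cases h2 : v = w
    · exact h1.symm.trans h2
    · rw [if_pos h1, if_neg h2] at h
      exfalso
      by_cases hl : Linked L ⟨i, v⟩
      · have := L.ne _ _ (lk_partner L hl)
        rw [h] at this
        exact this rfl
      · rw [partner_of_not L hl] at h
        simp only [Sigma.mk.injEq, heq_eq_eq, true_and] at h
        exact h2 h
  · by_cases h2 : v = w
    · rw [if_neg h1, if_pos h2] at h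
      exfalso
      by_cases hl : Linked L ⟨i, v⟩
      · have := L.ne _ _ (lk_partner L hl)
        rw [← h] at this
        exact this rfl
      · rw [partner_of_not L hl] at h
        simp only [Sigma.mk.injEq, heq_eq_eq, true_and] at h
        exact h1 h.symm
    · rw [if_neg h1, if_neg h2] at h
      simpa using h

theorem restr_eq_oend {α : Type} (F : (Σ i, (f i).V) → (Σ i, (f i).V) → α) (i : I)
    (u v : (f i).V) : restr L F i u v = F ⟨i, u⟩ (oend L i u v) := by
  unfold restr oend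
  by_cases h : u = v
  · subst h; rw [if_pos rfl, if_pos rfl]
  · rw [if_neg h, if_neg h]

theorem LI.restr {α : Type} {F : (Σ i, (f i).V) → (Σ i, (f i).V) → α}
    {R : (Σ i, (f i).V) → Prop} (h : LI (compose L) F R) (i : I) :
    LI (f i) (restr L F i) (fun v => R ⟨i, v⟩) where
  symm u v huv := by
    rw [restr_adj L F i huv, restr_adj L F i ((f i).adj_comm.mp huv)]
    apply h.symm
    change cadj L ⟨i, u⟩ ⟨i, v⟩ = true
    rw [cadj_same]; exact huv
  inj v hv u w hu hw e := by
    rw [restr_eq_oend, restr_eq_oend] at e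
    exact oend_inj L (h.inj ⟨i, v⟩ hv _ _ (oend_star L hu) (oend_star L hw) e) hu hw

theorem LI.restr_link {α : Type} {F : (Σ i, (f i).V) → (Σ i, (f i).V) → α}
    {R : (Σ i, (f i).V) → Prop} (h : LI (compose L) F R) {x y : Σ i, (f i).V}
    (hxy : L.lk x y = true) :
    Pool.Agent.Lib.MP_75ff39_co.restr L F x.1 x.2 x.2 =
      Pool.Agent.Lib.MP_75ff39_co.restr L F y.1 y.2 y.2 := by
  obtain ⟨i, v⟩ := x
  obtain ⟨j, w⟩ := y
  simp only
  rw [restr_self, restr_self, partner_eq L hxy, partner_eq L (by rw [L.symm]; exact hxy)]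
  exact h.symm _ _ (cadj_of_lk L hxy)

/-- Gluing of edge labellings of the pieces. -/
def glueF {α : Type} (c : ∀ i, (f i).V → (f i).V → α) (x y : Σ i, (f i).V) : α :=
  if h : y.1 = x.1 then c x.1 x.2 (h ▸ y.2) else c x.1 x.2 x.2

omit [Fintype I] in
theorem glueF_same {α : Type} (c : ∀ i, (f i).V → (f i).V → α) (i : I) (u v : (f i).V) :
    glueF c ⟨i, u⟩ ⟨i, v⟩ = c i u v := by
  unfold glueF
  simp

omit [Fintype I] in
theorem glueF_diff {α : Type} (c : ∀ i, (f i).V → (f i).V → α) {x y : Σ i, (f i).V}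
    (h : x.1 ≠ y.1) : glueF c x y = c x.1 x.2 x.2 := by
  unfold glueF
  rw [dif_neg (fun e => h e.symm)]

theorem star_compose_cases {x y : Σ i, (f i).V} (h : (compose L).Star x y) :
    (∃ w, y = ⟨x.1, w⟩ ∧ (f x.1).adj x.2 w = true) ∨
    (L.lk x y = true) ∨ (x = y ∧ (f x.1).port x.2 = true ∧ ¬ Linked L x) := by
  rcases h with h | ⟨h1, h2⟩
  · rcases cadj_cases L h with h | h
    · exact Or.inl h
    · exact Or.inr (Or.inl h)
  · exact Or.inr (Or.inr ⟨h1, (cport_iff L).mp h2⟩)

theorem glue_LI {α : Type} {c : ∀ i, (f i).V → (f i).V → α} {R : ∀ i, (f i).V → Prop}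
    (h : ∀ i, LI (f i) (c i) (R i))
    (hl : ∀ x y, L.lk x y = true → c x.1 x.2 x.2 = c y.1 y.2 y.2) :
    LI (compose L) (glueF c) (fun x : Σ i, (f i).V => R x.1 x.2) where
  symm := by
    intro x y hxy
    rcases cadj_cases L hxy with ⟨w, rfl, hw⟩ | hlk
    · obtain ⟨i, v⟩ := x
      rw [glueF_same, glueF_same]
      exact (h i).symm _ _ hw
    · have hne := L.ne _ _ hlk
      rw [glueF_diff c hne, glueF_diff c hne.symm]
      exact hl x y hlk
  inj := by
    intro x hx y z hy hz e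
    -- represent star elements by elements of the star in the piece
    have rep : ∀ y : Σ i, (f i).V, (compose L).Star x y →
        ∃ u, (f x.1).Star x.2 u ∧ glueF c x y = c x.1 x.2 u ∧
          ((y = ⟨x.1, u⟩ ∧ ¬ Linked L x) ∨ (y = ⟨x.1, u⟩ ∧ u ≠ x.2) ∨
            (u = x.2 ∧ L.lk x y = true)) := by
      intro y hy
      rcases star_compose_cases L hy with ⟨w, rfl, hw⟩ | hlk | ⟨rfl, hp, hnl⟩
      · refine ⟨w, Or.inl hw, ?_, Or.inr (Or.inl ⟨rfl, ((f x.1).ne_of_adj hw).symm⟩)⟩
        obtain ⟨i, v⟩ := x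
        rw [glueF_same]
      · refine ⟨x.2, Or.inr ⟨rfl, L.port _ _ hlk⟩, ?_, Or.inr (Or.inr ⟨rfl, hlk⟩)⟩
        rw [glueF_diff c (L.ne _ _ hlk)]
      · refine ⟨x.2, Or.inr ⟨rfl, hp⟩, ?_, Or.inl ⟨rfl, hnl⟩⟩
        obtain ⟨i, v⟩ := x
        rw [glueF_same]
    obtain ⟨u, hu1, hu2, hu3⟩ := rep y hy
    obtain ⟨w, hw1, hw2, hw3⟩ := rep z hz
    rw [hu2, hw2] at e
    have huw := (h x.1).inj x.2 hx u w hu1 hw1 e
    subst huw
    rcases hu3 with ⟨h1, h1'⟩ | ⟨h1, h1'⟩ | ⟨h1, h1'⟩ <;>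
      rcases hw3 with ⟨h2, h2'⟩ | ⟨h2, h2'⟩ | ⟨h2, h2'⟩
    · rw [h1, h2]
    · rw [h1, h2]
    · exact absurd ⟨z, h2'⟩ h1'
    · rw [h1, h2]
    · rw [h1, h2]
    · exact absurd h2 h1'
    · exact absurd ⟨y, h1'⟩ h2'
    · exact absurd h1 h2'
    · exact L.func _ _ _ h1' h2'

end

/-! ### Uncolourability of the ring of seven negators -/

theorem third : ∀ a b c : Fin 3, a ≠ b → a ≠ c → b ≠ c → c = -(a + b) := by decide

theorem neg_core : ∀ e01 e05 : Fin 3, e01 ≠ e05 → ∀ e16 : Fin 3, e01 ≠ e16 → ∀ e35 : Fin 3,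
    e05 ≠ e35 → ∀ e46 : Fin 3, e16 ≠ e46 → -(e16 + e46) ≠ e35 → ∀ e24 : Fin 3, e24 ≠ e46 →
    e24 ≠ -(e05 + e35) →
    (-(e01 + e16) = -(e24 + -(e05 + e35)) ↔ ¬ (-(e01 + e05) = -(e24 + e46))) := by
  decide

/-- In a proper colouring of the negator exactly one of the two pairs is monochromatic. -/
theorem neg_flip (c : Fin 7 → Fin 7 → Fin 3) (h : LI Neg c (fun _ => False)) :
    (c 1 1 = c 2 2 ↔ ¬ (c 0 0 = c 4 4)) := by
  have S : ∀ u v : Fin 7, (negAdj u v = true) → c u v = c v u := h.symm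
  have J : ∀ v u w : Fin 7, Neg.Star v u → Neg.Star v w → u ≠ w → c v u ≠ c v w :=
    fun v u w hu hw hne e => hne (h.inj v (fun h => h) u w hu hw e)
  have st : ∀ v u : Fin 7, (negAdj v u = true ∨ (v = u ∧ decide (v.val ≤ 4) = true)) →
    Neg.Star v u := fun v u h => h
  -- vertex 0: 1, 5, 0
  have a1 := J 0 1 5 (st _ _ (by decide)) (st _ _ (by decide)) (by decide)
  have a2 := J 0 1 0 (st _ _ (by decide)) (st _ _ (by decide)) (by decide)
  have a3 := J 0 5 0 (st _ _ (by decide)) (st _ _ (by decide)) (by decide)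
  -- vertex 1: 0, 6, 1
  have b1 := J 1 0 6 (st _ _ (by decide)) (st _ _ (by decide)) (by decide)
  have b2 := J 1 0 1 (st _ _ (by decide)) (st _ _ (by decide)) (by decide)
  have b3 := J 1 6 1 (st _ _ (by decide)) (st _ _ (by decide)) (by decide)
  -- vertex 2: 4, 5, 2
  have c1 := J 2 4 5 (st _ _ (by decide)) (st _ _ (by decide)) (by decide)
  have c2 := J 2 4 2 (st _ _ (by decide)) (st _ _ (by decide)) (by decide)
  have c3 := J 2 5 2 (st _ _ (by decide)) (st _ _ (by decide)) (by decide)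
  -- vertex 3: 6, 5
  have d1 := J 3 6 5 (st _ _ (by decide)) (st _ _ (by decide)) (by decide)
  -- vertex 4: 2, 6, 4
  have e1 := J 4 2 6 (st _ _ (by decide)) (st _ _ (by decide)) (by decide)
  have e2 := J 4 2 4 (st _ _ (by decide)) (st _ _ (by decide)) (by decide)
  have e3 := J 4 6 4 (st _ _ (by decide)) (st _ _ (by decide)) (by decide)
  -- vertex 5: 0, 3, 2
  have f1 := J 5 0 3 (st _ _ (by decide)) (st _ _ (by decide)) (by decide)
  have f2 := J 5 0 2 (st _ _ (by decide)) (st _ _ (by decide)) (by decide)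
  have f3 := J 5 3 2 (st _ _ (by decide)) (st _ _ (by decide)) (by decide)
  -- vertex 6: 1, 4, 3
  have g1 := J 6 1 4 (st _ _ (by decide)) (st _ _ (by decide)) (by decide)
  have g2 := J 6 1 3 (st _ _ (by decide)) (st _ _ (by decide)) (by decide)
  have g3 := J 6 4 3 (st _ _ (by decide)) (st _ _ (by decide)) (by decide)
  have s10 := S 1 0 (by decide)
  have s50 := S 5 0 (by decide)
  have s61 := S 6 1 (by decide)
  have s42 := S 4 2 (by decide)
  have s64 := S 6 4 (by decide)
  have s36 := S 3 6 (by decide)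
  have s53 := S 5 3 (by decide)
  have s25 := S 2 5 (by decide)
  rw [s10] at b1 b2
  rw [s50] at f1 f2
  rw [s61] at g1 g2
  rw [s42] at e1 e2
  rw [s64] at g1 g3
  rw [s36] at d1
  rw [s53] at f1 f3
  rw [s25] at c1 c3
  have t0 := third _ _ _ a1 a2 a3
  have t1 := third _ _ _ b1 b2 b3
  have t2 := third _ _ _ c1 c2 c3
  have t4 := third _ _ _ e1 e2 e3
  have t5 := third _ _ _ f1 f2 f3
  have t6 := third _ _ _ g1 g2 g3
  rw [t0, t1, t2, t4, t5]
  apply neg_core _ _ a1 _ b1 _ f1 _ g1 _ _ e1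
  · rw [← t5]; exact c1
  · rw [← t6]; exact d1

theorem K_uncolourable (c : (Σ _ : ZMod 7, Neg.V) → (Σ _ : ZMod 7, Neg.V) → Fin 3)
    (h : LI K c (fun _ => False)) : False := by
  have hj : ∀ j : ZMod 7, (restr KL c j (1 : Fin 7) (1 : Fin 7) =
      restr KL c j (2 : Fin 7) (2 : Fin 7) ↔
      ¬ (restr KL c j (0 : Fin 7) (0 : Fin 7) = restr KL c j (4 : Fin 7) (4 : Fin 7))) := by
    intro j
    exact neg_flip _ (LI.restr KL h j)
  have hlink : ∀ j : ZMod 7, restr KL c j (0 : Fin 7) (0 : Fin 7) =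
      restr KL c (j + 1) (1 : Fin 7) (1 : Fin 7) ∧
      restr KL c j (4 : Fin 7) (4 : Fin 7) = restr KL c (j + 1) (2 : Fin 7) (2 : Fin 7) := by
    intro j
    exact ⟨LI.restr_link KL h (ringLinks_out negRing 7 j 0),
      LI.restr_link KL h (ringLinks_out negRing 7 j 1)⟩
  set P : ZMod 7 → Prop := fun j => restr KL c j (1 : Fin 7) (1 : Fin 7) =
      restr KL c j (2 : Fin 7) (2 : Fin 7) with hP
  have hstep : ∀ j, (P (j + 1) ↔ ¬ P j) := by
    intro j
    have h1 := hj j
    have h2 := hlink j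
    rw [h2.1, h2.2] at h1
    simp only [hP]
    tauto
  have e0 := hstep 0
  have e1 := hstep 1
  have e2 := hstep 2
  have e3 := hstep 3
  have e4 := hstep 4
  have e5 := hstep 5
  have e6 := hstep 6
  rw [show (0 : ZMod 7) + 1 = 1 by decide] at e0
  rw [show (1 : ZMod 7) + 1 = 2 by decide] at e1
  rw [show (2 : ZMod 7) + 1 = 3 by decide] at e2
  rw [show (3 : ZMod 7) + 1 = 4 by decide] at e3
  rw [show (4 : ZMod 7) + 1 = 5 by decide] at e4
  rw [show (5 : ZMod 7) + 1 = 6 by decide] at e5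
  rw [show (6 : ZMod 7) + 1 = 0 by decide] at e6
  tauto

end Pool.Agent.Lib.MP_75ff39_co
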