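import Pool.Agent.Lib.MP_75ff39_co.Ring

set_option autoImplicit false

/-!
# The Petersen negator and the ring of seven negators
-/

namespace Pool.Agent.Lib.MP_75ff39_co

open Finset

/-- The edges of the Petersen graph minus a path with three vertices. -/
def negEdges : List (ℕ × ℕ) := [(0,1),(0,5),(1,6),(2,4),(4,6),(6,3),(3,5),(5,2)]

def negAdj (u v : Fin 7) : Bool :=
  negEdges.contains (u.val, v.val) || negEdges.contains (v.val, u.val)

/-- The negator: Petersen graph minus a path with three vertices. The ports `1, 2` are the input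
pair, `0, 4` the output pair, `3` is the residual port. -/
def Neg : Pole where
  V := Fin 7
  adj := negAdj
  port v := decide (v.val ≤ 4)
  symm := by decide
  irrefl := by decide
  deg := by decide

theorem neg_n0 : Neg.acount univ = 5 := by
  unfold Neg
  decide +kernel

theorem neg_n1 : ∀ A : Finset Neg.V, A.Nonempty → A ≠ univ → 2 ≤ Neg.ecut A := by
  unfold Neg
  decide +kernel

theorem neg_n2 : ∀ A : Finset Neg.V,
    Neg.acount A ≤ Neg.ecut A ∨ 5 ≤ Neg.acount A + Neg.ecut A := by
  unfold Neg
  decide +kernel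

theorem neg_n3 : ∀ A : Finset Neg.V, Neg.acount A ≤ Neg.ecut A →
    Neg.ecut A + Neg.acount A ≤ 4 → A.card ≤ 2 := by
  unfold Neg
  decide +kernel

/-- Output pair of the negator. -/
def negOut : Fin 2 → Fin 7 := ![0, 4]

/-- Input pair of the negator. -/
def negInn : Fin 2 → Fin 7 := ![1, 2]

theorem neg_n5 : ∀ A : Finset (Fin 7), Neg.ecut A = 2 → Neg.acount A ≤ 2 →
    A.card ≤ 1 ∨ (negOut 0 ∈ A ∧ negInn 0 ∈ A ∧ A.card ≤ 2) ∨
      (negInn 1 ∈ A ∧ negOut 1 ∈ A ∧ A.card ≤ 2) := by
  unfold Neg
  decide +kernel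

/-- Ring data of the negator. -/
def negRing : RingData Neg 2 where
  out := negOut
  inn := negInn
  out_inj := by decide
  inn_inj := by decide
  disj := by
    change ∀ a b : Fin 2, negOut a ≠ negInn b
    decide
  out_port := by decide
  inn_port := by decide

/-- The residual port. -/
def r3 : Neg.V := (3 : Fin 7)

instance fact7 : Fact (2 ≤ 7) := ⟨by norm_num⟩

/-- The ring of seven negators. -/
def K : Pole := compose (ringLinks negRing 7)

/-- The links of the ring. -/
abbrev KL : Links (fun _ : ZMod 7 => Neg) := ringLinks negRing 7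

theorem KL_linked_iff (x : Σ _ : ZMod 7, Neg.V) : Linked KL x ↔ x.2 ≠ r3 ∧
    Neg.port x.2 = true := by
  rw [ringLinks_linked]
  obtain ⟨i, v⟩ := x
  revert v
  change ∀ v : Fin 7, (∃ a : Fin 2, v = negOut a ∨ v = negInn a) ↔
    v ≠ (3 : Fin 7) ∧ decide (v.val ≤ 4) = true
  decide

theorem KL_port_iff (x : Σ _ : ZMod 7, Neg.V) : cport KL x = true ↔ x.2 = r3 := by
  rw [cport_iff, KL_linked_iff]
  constructor
  · rintro ⟨h1, h2⟩
    by_contra h
    exact h2 ⟨h, h1⟩
  · intro h
    refine ⟨?_, fun h' => h'.1 h⟩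
    rw [h]
    decide

/-- Residual indicator of a slice. -/
def res (A : Finset (Σ _ : ZMod 7, Neg.V)) (j : ZMod 7) : ℕ :=
  if (⟨j, r3⟩ : Σ _ : ZMod 7, Neg.V) ∈ A then 1 else 0

theorem cacount_eq (A : Finset (Σ _ : ZMod 7, Neg.V)) : cacount KL A = ∑ j, res A j := by
  have h1 : ∑ j, res A j = (univ.filter (fun j : ZMod 7 =>
      (⟨j, r3⟩ : Σ _ : ZMod 7, Neg.V) ∈ A)).card := by
    rw [card_filter]
    rfl
  rw [h1]
  unfold cacount
  symm
  apply card_bij (fun j _ => (⟨j, r3⟩ : Σ _ : ZMod 7, Neg.V))
  · intro j hj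
    simp only [mem_filter, mem_univ, true_and] at hj ⊢
    exact ⟨hj, (KL_port_iff _).mpr rfl⟩
  · intro j _ j' _ h
    simp only [Sigma.mk.injEq] at h
    exact h.1
  · rintro ⟨j, v⟩ h
    simp only [mem_filter] at h
    have := (KL_port_iff _).mp h.2
    simp only at this
    subst this
    exact ⟨j, by simpa using h.1, rfl⟩

theorem lin_res (A : Finset (Σ _ : ZMod 7, Neg.V)) (j : ZMod 7) :
    lin KL A j + res A j = Neg.acount (slice A j) := by
  unfold lin Pole.acount res
  by_cases h : (⟨j, r3⟩ : Σ _ : ZMod 7, Neg.V) ∈ A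
  · rw [if_pos h]
    have : (slice A j).filter (fun v => Neg.port v = true) =
        insert r3 (univ.filter (fun v : Neg.V => (⟨j, v⟩ : Σ _ : ZMod 7, Neg.V) ∈ A ∧
          Linked KL ⟨j, v⟩)) := by
      ext v
      simp only [mem_filter, mem_slice, mem_insert, mem_univ, true_and, KL_linked_iff]
      constructor
      · rintro ⟨h1, h2⟩
        by_cases hv : v = r3
        · exact Or.inl hv
        · exact Or.inr ⟨h1, hv, h2⟩
      · rintro (rfl | ⟨h1, _, h2⟩)
        · exact ⟨h, by decide⟩
        · exact ⟨h1, h2⟩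
    rw [this, card_insert_of_notMem]
    simp only [mem_filter, mem_univ, true_and, KL_linked_iff]
    exact fun h' => h'.2.1 rfl
  · rw [if_neg h, add_zero]
    congr 1
    ext v
    simp only [mem_filter, mem_slice, mem_univ, true_and, KL_linked_iff]
    constructor
    · rintro ⟨h1, _, h2⟩
      exact ⟨h1, h2⟩
    · rintro ⟨h1, h2⟩
      refine ⟨h1, ?_, h2⟩
      rintro rfl
      exact h h1

theorem lout_res (A : Finset (Σ _ : ZMod 7, Neg.V)) (j : ZMod 7) :
    lout KL A j + (1 - res A j) + Neg.acount (slice A j) = 5 := by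
  have h1 := lin_res Aᶜ j
  have h2 := acount_compl Neg (slice A j)
  rw [slice_compl] at h1
  have h3 : lin KL Aᶜ j = lout KL A j := by
    unfold lin lout
    congr 1
    ext v
    simp
  have h4 : res Aᶜ j = 1 - res A j := by
    unfold res
    by_cases h : (⟨j, r3⟩ : Σ _ : ZMod 7, Neg.V) ∈ A
    · simp [h]
    · simp [h]
  rw [neg_n0] at h2
  rw [h3, h4] at h1
  omega

theorem sum_res_le (A : Finset (Σ _ : ZMod 7, Neg.V)) : cacount KL A ≤ 7 := by
  rw [cacount_eq]
  calc ∑ j, res A j ≤ ∑ _j : ZMod 7, 1 := by
        apply sum_le_sum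
        intro j _
        unfold res
        split_ifs <;> omega
    _ = 7 := by simp

theorem cacount_univ : cacount KL univ = 7 := by
  rw [cacount_eq]
  simp [res]

theorem clk_zero {A : Finset (Σ _ : ZMod 7, Neg.V)} (h : clk KL A = 0) {x y} (hx : x ∈ A)
    (hxy : KL.lk x y = true) : y ∈ A := by
  by_contra hy
  unfold clk at h
  rw [card_eq_zero, filter_eq_empty_iff] at h
  exact h (mem_univ (x, y)) ⟨hx, hy, hxy⟩

theorem zmod7_ne (i : ZMod 7) : i + 1 ≠ i - 1 ∧ i + 1 ≠ i ∧ i - 1 ≠ i := by
  revert i; decide

/-- The structure of small slices around. -/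
theorem slice_pair {A : Finset (Σ _ : ZMod 7, Neg.V)} (hclk : clk KL A = 0) (j : ZMod 7)
    (h2 : Neg.ecut (slice A j) = 2) (ha : Neg.acount (slice A j) ≤ 2) :
    (slice A j).card ≤ 1 ∨ ((slice A (j + 1)).Nonempty ∧ (slice A (j - 1)).Nonempty) := by
  rcases neg_n5 (slice A j) h2 ha with h | ⟨h0, h1, _⟩ | ⟨h0, h1, _⟩
  · exact Or.inl h
  · right
    have e1 := ringLinks_out negRing 7 j 0
    have e2 := ringLinks_out negRing 7 (j - 1) 0
    rw [sub_add_cancel] at e2
    refine ⟨⟨negInn 0, ?_⟩, ⟨negOut 0, ?_⟩⟩
    · exact mem_slice.mpr (clk_zero hclk (mem_slice.mp h0) e1)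
    · apply mem_slice.mpr
      apply clk_zero hclk (mem_slice.mp h1)
      rw [KL.symm]
      exact e2
  · right
    have e1 := ringLinks_out negRing 7 j 1
    have e2 := ringLinks_out negRing 7 (j - 1) 1
    rw [sub_add_cancel] at e2
    refine ⟨⟨negInn 1, ?_⟩, ⟨negOut 1, ?_⟩⟩
    · exact mem_slice.mpr (clk_zero hclk (mem_slice.mp h1) e1)
    · apply mem_slice.mpr
      apply clk_zero hclk (mem_slice.mp h0)
      rw [KL.symm]
      exact e2

theorem neg_slice_two {A : Finset (Σ _ : ZMod 7, Neg.V)} {i : ZMod 7}
    (h : Neg.acount (slice A i) ≤ Neg.ecut (slice A i)) (hne : (slice A i).Nonempty) :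
    2 ≤ Neg.ecut (slice A i) := by
  apply neg_n1 _ hne
  intro hu
  rw [hu, neg_n0] at h
  have h1 : Neg.ecut univ = 0 := by
    unfold Pole.ecut
    rw [card_eq_zero, filter_eq_empty_iff]
    rintro p _ ⟨_, h2, _⟩
    exact h2 (mem_univ _)
  omega

theorem K_small_side (A : Finset (Σ _ : ZMod 7, Neg.V))
    (hae : ∀ i, Neg.acount (slice A i) ≤ Neg.ecut (slice A i))
    (hA : cecut KL A + cacount KL A ≤ 4) :
    A.card ≤ 2 ∧ (cecut KL A = 2 → A.card ≤ 1) := by
  have hsum := sum_ecut_add_clk_le KL A
  set S : Finset (ZMod 7) := univ.filter (fun i => (slice A i).Nonempty) with hS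
  have hS2 : ∀ i ∈ S, 2 ≤ Neg.ecut (slice A i) := by
    intro i hi
    apply neg_slice_two (hae i)
    simpa [hS] using hi
  have hSout : ∀ i ∉ S, slice A i = ∅ := by
    intro i hi
    rw [← not_nonempty_iff_eq_empty]
    simpa [hS] using hi
  have hsumS : ∑ i ∈ S, Neg.ecut (slice A i) ≤ ∑ i, Neg.ecut (slice A i) :=
    sum_le_sum_of_subset (subset_univ _)
  have hScard : S.card * 2 ≤ ∑ i ∈ S, Neg.ecut (slice A i) := by
    rw [← smul_eq_mul]
    exact card_nsmul_le_sum S _ 2 hS2
  have hAcard : A.card = ∑ i ∈ S, (slice A i).card := by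
    rw [card_eq_sum_slice]
    symm
    apply sum_subset (subset_univ _)
    intro i _ hi
    rw [hSout i hi, card_empty]
  have hScard2 : S.card ≤ 2 := by omega
  have hcases : S.card = 0 ∨ S.card = 1 ∨ S.card = 2 := by omega
  -- three different indices cannot all be in S
  have h3 : ∀ i : ZMod 7, i ∈ S → ¬ ((slice A (i + 1)).Nonempty ∧ (slice A (i - 1)).Nonempty) := by
    rintro i hi ⟨ha, hb⟩
    have hne := zmod7_ne i
    have hsub : ({i, i + 1, i - 1} : Finset (ZMod 7)) ⊆ S := by
      intro x hx
      simp only [mem_insert, mem_singleton] at hx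
      rcases hx with rfl | rfl | rfl
      · exact hi
      · simpa [hS] using ha
      · simpa [hS] using hb
    have hc : ({i, i + 1, i - 1} : Finset (ZMod 7)).card = 3 := by
      rw [card_insert_of_notMem, card_insert_of_notMem, card_singleton]
      · simpa using hne.1
      · simp only [mem_insert, mem_singleton, not_or]
        exact ⟨hne.2.1.symm, hne.2.2.symm⟩
    have := card_le_card hsub
    omega
  rcases hcases with h0 | h1 | h2
  · rw [card_eq_zero] at h0
    rw [h0, sum_empty] at hAcard
    omega
  · obtain ⟨i, hi⟩ := card_eq_one.mp h1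
    rw [hi, sum_singleton] at hAcard
    rw [hi, sum_singleton] at hsumS
    have hsp := single_piece KL (A := A) (i := i) (by
      intro j hj
      apply hSout
      rw [hi, mem_singleton]
      exact hj)
    constructor
    · rw [hAcard]
      apply neg_n3 _ (hae i)
      change Neg.acount (slice A i) ≤ _ at hsp
      omega
    · intro he
      rw [hAcard]
      have hiS : i ∈ S := by rw [hi]; exact mem_singleton_self i
      have h2 := hS2 i hiS
      have := hae i
      rcases slice_pair (A := A) (by omega) i (by omega) (by omega) with h | h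
      · exact h
      · exact absurd h (h3 i hiS)
  · obtain ⟨i, j, hij, hi⟩ := card_eq_two.mp h2
    rw [hi, sum_pair hij] at hAcard hsumS
    have hiS : i ∈ S := by rw [hi]; simp
    have hjS : j ∈ S := by rw [hi]; simp
    have h2i := hS2 i hiS
    have h2j := hS2 j hjS
    have ei : Neg.ecut (slice A i) = 2 := by omega
    have ej : Neg.ecut (slice A j) = 2 := by omega
    have ai := hae i
    have aj := hae j
    have hi1 : (slice A i).card ≤ 1 := by
      rcases slice_pair (A := A) (by omega) i ei (by omega) with h | h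
      · exact h
      · exact absurd h (h3 i hiS)
    have hj1 : (slice A j).card ≤ 1 := by
      rcases slice_pair (A := A) (by omega) j ej (by omega) with h | h
      · exact h
      · exact absurd h (h3 j hjS)
    constructor
    · omega
    · intro he
      omega

/-- The main alternative for a small cut of `K`. -/
theorem K_alternative (A : Finset (Σ _ : ZMod 7, Neg.V))
    (hA : cecut KL A ≤ 3 ∨ (cecut KL A = 4 ∧ cacount KL A = 0)) :
    (∀ i, Neg.acount (slice A i) ≤ Neg.ecut (slice A i)) ∨
    (∀ i, 5 ≤ Neg.acount (slice A i) + Neg.ecut (slice A i)) := by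
  have hsum := sum_ecut_add_clk_le KL A
  set J : Finset (ZMod 7) := univ.filter
    (fun i => ¬ Neg.acount (slice A i) ≤ Neg.ecut (slice A i)) with hJ
  have hJin : ∀ i ∈ J, 5 ≤ Neg.acount (slice A i) + Neg.ecut (slice A i) := by
    intro i hi
    rcases neg_n2 (slice A i) with h | h
    · simp only [hJ, mem_filter, mem_univ, true_and] at hi
      exact absurd h hi
    · exact h
  have hJout : ∀ i ∉ J, Neg.acount (slice A i) ≤ Neg.ecut (slice A i) := by
    intro i hi
    simp only [hJ, mem_filter, mem_univ, true_and, not_not] at hi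
    exact hi
  by_cases hJe : J = ∅
  · left
    intro i
    exact hJout i (by rw [hJe]; exact notMem_empty _)
  · by_cases hJu : J = univ
    · right
      intro i
      exact hJin i (by rw [hJu]; exact mem_univ _)
    · exfalso
      have hne : J.Nonempty := nonempty_iff_ne_empty.mpr hJe
      have h4 : 2 * 2 ≤ linkcut KL J := ring_linkcut negRing 7 J hne hJu
      have h1 := linkcut_le KL J A
      have h3 : ∑ i ∈ Jᶜ, lin KL A i ≤ ∑ i ∈ Jᶜ, Neg.ecut (slice A i) := by
        apply sum_le_sum
        intro i hi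
        have := lin_le KL A i
        have := hJout i (mem_compl.mp hi)
        change lin KL A i ≤ Neg.acount (slice A i) at *
        omega
      have h5 := sum_add_sum_compl J (fun i => Neg.ecut (slice A i))
      rcases hA with hA | ⟨hA, ha⟩
      · have h2 : ∑ i ∈ J, lout KL A i ≤ ∑ i ∈ J, Neg.ecut (slice A i) := by
          apply sum_le_sum
          intro i hi
          have := lout_res A i
          have := hJin i hi
          omega
        change ∑ i, Neg.ecut (slice A i) + clk KL A ≤ cecut KL A at hsum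
        omega
      · have hres : ∀ i, res A i = 0 := by
          intro i
          rw [cacount_eq, sum_eq_zero_iff] at ha
          exact ha i (mem_univ i)
        have h2 : ∑ i ∈ J, lout KL A i + J.card ≤ ∑ i ∈ J, Neg.ecut (slice A i) := by
          rw [card_eq_sum_ones, ← sum_add_distrib]
          apply sum_le_sum
          intro i hi
          have := lout_res A i
          have := hJin i hi
          have := hres i
          omega
        have hcard : 0 < J.card := card_pos.mpr hne
        change ∑ i, Neg.ecut (slice A i) + clk KL A ≤ cecut KL A at hsum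
        omega

theorem K_good : Good K := by
  have small : ∀ A : Finset (Σ _ : ZMod 7, Neg.V),
      (∀ i, Neg.acount (slice A i) ≤ Neg.ecut (slice A i)) →
      cacount KL A ≤ cecut KL A := by
    intro A h
    have h1 : cacount KL A ≤ ∑ i, Neg.acount (slice A i) := by
      rw [cacount_eq]
      apply sum_le_sum
      intro i _
      have := lin_res A i
      omega
    have h2 : ∑ i, Neg.acount (slice A i) ≤ ∑ i, Neg.ecut (slice A i) :=
      sum_le_sum (fun i _ => h i)
    have h3 := sum_ecut_add_clk_le KL A
    change ∑ i, Neg.ecut (slice A i) + clk KL A ≤ cecut KL A at h3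
    omega
  have flip : ∀ A : Finset (Σ _ : ZMod 7, Neg.V),
      (∀ i, 5 ≤ Neg.acount (slice A i) + Neg.ecut (slice A i)) →
      (∀ i, Neg.acount (slice Aᶜ i) ≤ Neg.ecut (slice Aᶜ i)) := by
    intro A h i
    rw [slice_compl, Neg.ecut_compl]
    have h1 := acount_compl Neg (slice A i)
    rw [neg_n0] at h1
    have := h i
    omega
  have hcompl : ∀ A : Finset (Σ _ : ZMod 7, Neg.V), cacount KL Aᶜ + cacount KL A = 7 := by
    intro A
    have h1 : cacount KL Aᶜ + cacount KL A = cacount KL univ := acount_compl K A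
    have h2 := cacount_univ
    omega
  have hecompl : ∀ A : Finset (Σ _ : ZMod 7, Neg.V), cecut KL Aᶜ = cecut KL A :=
    fun A => K.ecut_compl A
  have hle7 := sum_res_le
  have G0 : 5 ≤ cacount KL univ := by rw [cacount_univ]; norm_num
  have G1 : ∀ A : Finset (Σ _ : ZMod 7, Neg.V), A.Nonempty → A ≠ univ → 2 ≤ cecut KL A := by
    have aux : ∀ A : Finset (Σ _ : ZMod 7, Neg.V), A.Nonempty → cecut KL A ≤ 1 →
        (∀ i, Neg.acount (slice A i) ≤ Neg.ecut (slice A i)) → False := by
      rintro A ⟨⟨i, v⟩, hx⟩ h1 h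
      have h2 := neg_slice_two (h i) ⟨v, mem_slice.mpr hx⟩
      have h3 := sum_ecut_add_clk_le KL A
      have : Neg.ecut (slice A i) ≤ ∑ i, Neg.ecut (slice A i) :=
        single_le_sum (f := fun i => Neg.ecut (slice A i)) (fun _ _ => Nat.zero_le _)
        (mem_univ i)
      change ∑ i, Neg.ecut (slice A i) + clk KL A ≤ cecut KL A at h3
      omega
    intro A hne hu
    by_contra hlt
    have hlt' : cecut KL A ≤ 1 := by omega
    rcases K_alternative A (by omega) with h | h
    · exact aux A hne hlt' h
    · apply aux Aᶜ _ (by rw [hecompl]; exact hlt') (flip A h)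
      rw [nonempty_iff_ne_empty]
      intro h0
      apply hu
      rwa [compl_eq_empty_iff] at h0
  have G2 : ∀ A : Finset (Σ _ : ZMod 7, Neg.V), cecut KL A ≤ 4 →
      cacount KL A ≤ cecut KL A ∨ cacount KL univ ≤ cacount KL A + cecut KL A := by
    intro A h4
    rw [cacount_univ]
    by_cases h3 : 3 < cecut KL A
    · omega
    · rcases K_alternative A (by omega) with h | h
      · exact Or.inl (small A h)
      · right
        have h1 := small Aᶜ (flip A h)
        rw [hecompl] at h1
        have := hcompl A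
        omega
  have G3 : ∀ A : Finset (Σ _ : ZMod 7, Neg.V), cacount KL A ≤ cecut KL A →
      cecut KL A + cacount KL A ≤ 4 → A.card ≤ 2 := by
    intro A hae h4
    rcases K_alternative A (by omega) with h | h
    · exact (K_small_side A h h4).1
    · exfalso
      have h1 := small Aᶜ (flip A h)
      rw [hecompl] at h1
      have := hcompl A
      omega
  have G4 : ∀ A : Finset (Σ _ : ZMod 7, Neg.V), cecut KL A = 2 → cacount KL A ≤ 2 →
      A.card ≤ 1 := by
    intro A h2 ha
    rcases K_alternative A (by omega) with h | h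
    · exact (K_small_side A h (by omega)).2 h2
    · exfalso
      have h1 := small Aᶜ (flip A h)
      rw [hecompl] at h1
      have := hcompl A
      omega
  exact ⟨G0, G1, G2, G3, G4⟩

end Pool.Agent.Lib.MP_75ff39_co
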