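import Pool.Agent.Lib.MP_75ff39_co.Rings

set_option autoImplicit false

/-!
# Operations on pole maps: gluing, restriction, doubling, star maps
-/

namespace Pool.Agent.Lib.MP_75ff39_co

open Finset

theorem Hom.li {X H : Pole} (h : Hom X H) : LI X h.F (fun _ => False) :=
  ⟨h.symm, fun v _ u w hu hw e => h.inj v u w hu hw e⟩

section

variable {I : Type} [Fintype I] [DecidableEq I] {f : I → Pole} (L : Links f)

/-- Gluing pole maps which agree on linked ports. -/
def Hom.glue {H : Pole} (h : ∀ i, Hom (f i) H)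
    (hl : ∀ x y, L.lk x y = true → (h x.1).F x.2 x.2 = (h y.1).F y.2 y.2) :
    Hom (compose L) H where
  φ := fun x : Σ i, (f i).V => (h x.1).φ x.2
  F := glueF (fun i => (h i).F)
  symm := (glue_LI L (c := fun i => (h i).F) (R := fun _ _ => False) (fun i => (h i).li) hl).symm
  inj := fun v u w hu hw e =>
    (glue_LI L (c := fun i => (h i).F) (R := fun _ _ => False)
      (fun i => (h i).li) hl).inj v (fun h => h) u w hu hw e
  mem := by
    intro x y hxy
    rcases star_compose_cases L hxy with ⟨w, rfl, hw⟩ | hlk | ⟨rfl, hp, _⟩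
    · obtain ⟨i, v⟩ := x
      obtain ⟨w', hw', e⟩ := (h i).mem v w ((f i).star_of_adj hw)
      refine ⟨w', hw', ?_⟩
      rw [glueF_same]
      exact e
    · obtain ⟨w', hw', e⟩ := (h x.1).mem x.2 x.2 (Or.inr ⟨rfl, L.port _ _ hlk⟩)
      refine ⟨w', hw', ?_⟩
      rw [glueF_diff _ (L.ne _ _ hlk)]
      exact e
    · obtain ⟨i, v⟩ := x
      obtain ⟨w', hw', e⟩ := (h i).mem v v (Or.inr ⟨rfl, hp⟩)
      refine ⟨w', hw', ?_⟩
      rw [glueF_same]
      exact e

theorem Hom.glue_F {H : Pole} (h : ∀ i, Hom (f i) H)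
    (hl : ∀ x y, L.lk x y = true → (h x.1).F x.2 x.2 = (h y.1).F y.2 y.2) (i : I)
    (u v : (f i).V) : (Hom.glue L h hl).F (⟨i, u⟩ : Σ i, (f i).V) (⟨i, v⟩ : Σ i, (f i).V) =
      (h i).F u v := glueF_same (fun i => (h i).F) i u v

/-- Restriction of a map of the glued pole to a piece. -/
noncomputable def Hom.piece {H : Pole} (h : Hom (compose L) H) (i : I) : Hom (f i) H where
  φ v := h.φ (⟨i, v⟩ : Σ i, (f i).V)
  F := restr L h.F i
  symm := (h.li.restr L i).symm
  inj := fun v u w hu hw e => (h.li.restr L i).inj v (fun h => h) u w hu hw e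
  mem := by
    intro u v huv
    obtain ⟨w, hw, e⟩ := h.mem (⟨i, u⟩ : Σ i, (f i).V) _ (oend_star L huv)
    exact ⟨w, hw, (restr_eq_oend L h.F i u v).trans e⟩

end

/-- A map of a pole extends to its double. -/
theorem Hom.to_double {X H : Pole} (h : Hom X H) : Nonempty (Hom (double X) H) := by
  refine ⟨Hom.glue (twinLinks X) (fun _ => h) ?_⟩
  intro x y hxy
  rw [twinLinks_lk] at hxy
  rw [hxy.2.1]

theorem Hom.of_double {X H : Pole} (h : Hom (double X) H) : Nonempty (Hom X H) :=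
  ⟨Hom.piece (f := fun _ : Bool => X) (twinLinks X) h true⟩

/-- The identity map. -/
def Hom.id (X : Pole) : Hom X X where
  φ v := v
  F u v := s(u, v)
  symm _ _ _ := Sym2.eq_swap
  mem _ v h := ⟨v, h, rfl⟩
  inj _ _ _ _ _ e := Sym2.congr_right.mp e

/-- A proper colouring gives a map onto the star of a vertex. -/
def starHom {X H : Pole} (w : H.V) (e : Fin 3 → H.V) (he : ∀ a, H.adj w (e a) = true)
    (hinj : Function.Injective e) {c : X.V → X.V → Fin 3} (hc : LI X c (fun _ => False)) :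
    Hom X H where
  φ _ := w
  F u v := s(w, e (c u v))
  symm u v h := by rw [hc.symm u v h]
  mem u v _ := ⟨e (c u v), Or.inl (he _), rfl⟩
  inj v u u' h h' e' := hc.inj v (fun h => h) u u' h h' (hinj (Sym2.congr_right.mp e'))

/-- The neighbours of a vertex of a closed pole, starting with a given one. -/
theorem exists_frame {H : Pole} (hH : H.Closed) {w x : H.V} (hx : H.adj w x = true) :
    ∃ e : Fin 3 → H.V, (∀ a, H.adj w (e a) = true) ∧ Function.Injective e ∧ e 0 = x := by
  classical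
  have h3 := H.adj_card_of_closed hH w
  let e0 : Fin 3 ≃ {u // u ∈ univ.filter (fun u => H.adj w u = true)} :=
    (Fintype.equivFinOfCardEq (by rw [Fintype.card_coe]; exact h3)).symm
  have hσ : ∀ i : Fin 3, ∃ σ : Equiv.Perm (Fin 3), σ 0 = i := fun i => ⟨Equiv.swap 0 i, by simp⟩
  obtain ⟨i, hi⟩ := e0.surjective ⟨x, by simpa using hx⟩
  obtain ⟨σ, hσ⟩ := hσ i
  refine ⟨fun a => (e0 (σ a)).1, ?_, ?_, ?_⟩
  · intro a
    exact (mem_filter.mp (e0 (σ a)).2).2
  · intro a b h
    exact σ.injective (e0.injective (Subtype.ext h))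
  · simp only [hσ, hi]

theorem exists_perm : ∀ i j : Fin 3, i ≠ j → ∃ σ : Equiv.Perm (Fin 3), σ 0 = i ∧ σ 1 = j := by
  decide

theorem exists_frame2 {H : Pole} (hH : H.Closed) {w x y : H.V} (hx : H.adj w x = true)
    (hy : H.adj w y = true) (hxy : x ≠ y) :
    ∃ e : Fin 3 → H.V, (∀ a, H.adj w (e a) = true) ∧ Function.Injective e ∧ e 0 = x ∧
      e 1 = y := by
  classical
  have h3 := H.adj_card_of_closed hH w
  let e0 : Fin 3 ≃ {u // u ∈ univ.filter (fun u => H.adj w u = true)} :=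
    (Fintype.equivFinOfCardEq (by rw [Fintype.card_coe]; exact h3)).symm
  obtain ⟨i, hi⟩ := e0.surjective ⟨x, by simpa using hx⟩
  obtain ⟨j, hj⟩ := e0.surjective ⟨y, by simpa using hy⟩
  have hij : i ≠ j := by
    rintro rfl
    rw [hi] at hj
    exact hxy (Subtype.ext_iff.mp hj)
  obtain ⟨σ, hσ, hσ'⟩ := exists_perm i j hij
  refine ⟨fun a => (e0 (σ a)).1, ?_, ?_, ?_, ?_⟩
  · intro a
    exact (mem_filter.mp (e0 (σ a)).2).2
  · intro a b h
    exact σ.injective (e0.injective (Subtype.ext h))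
  · simp only [hσ, hi]
  · simp only [hσ', hj]

/-! ### Systems of copies of `K` in poles -/

/-- A family of disjoint copies of `K` in a pole arranged in directed rings, with defect
colourings; `per k` is the length of the ring of the copy `k`. -/
structure PSys (X : Pole) where
  ι : Type
  κ : ι → K.V → X.V
  inj : ∀ k k' x x', κ k x = κ k' x' → k = k' ∧ x = x'
  adj : ∀ k x y, X.adj (κ k x) (κ k y) = K.adj x y
  next : ι ≃ ι
  link : ∀ k a, X.adj (κ k (KRing.out a)) (κ (next k) (KRing.inn a)) = true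
  ne1 : ∀ k, next k ≠ k
  ne2 : ∀ k, next (next k) ≠ k
  hz : ∀ k, X.adj (κ k kz) (κ (next k) kz) = false
  dc : DC X κ
  per : ι → ℕ
  hper : ∀ k n, next^[n] k = k ↔ per k ∣ n

/-- The system of a closed pole. -/
def PSys.toKSys {X : Pole} (S : PSys X) (hX : X.Closed) : KSys X where
  closed := hX
  ι := S.ι
  κ := S.κ
  inj := S.inj
  adj := S.adj
  next := S.next
  link := S.link
  ne1 := S.ne1
  ne2 := S.ne2
  hz := S.hz
  dc := S.dc

section

variable {I : Type} [Fintype I] [DecidableEq I] {f : I → Pole} (L : Links f)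

/-- The union of the systems of the pieces. -/
def PSys.compose (S : ∀ i, PSys (f i)) : PSys (compose L) where
  ι := Σ i, (S i).ι
  κ := fun k x => (⟨k.1, (S k.1).κ k.2 x⟩ : Σ i, (f i).V)
  inj := by
    rintro ⟨i, k⟩ ⟨i', k'⟩ x x' h
    have h' : (⟨i, (S i).κ k x⟩ : Σ i, (f i).V) = ⟨i', (S i').κ k' x'⟩ := h
    rw [Sigma.mk.injEq] at h'
    obtain ⟨rfl, h'⟩ := h'
    obtain ⟨rfl, rfl⟩ := (S i).inj _ _ _ _ (eq_of_heq h')
    exact ⟨rfl, rfl⟩
  adj := by
    rintro ⟨i, k⟩ x y
    change cadj L ⟨i, _⟩ ⟨i, _⟩ = _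
    rw [cadj_same, (S i).adj]
  next := Equiv.sigmaCongrRight (fun i => (S i).next)
  link := by
    rintro ⟨i, k⟩ a
    change cadj L ⟨i, (S i).κ k (KRing.out a)⟩ ⟨i, (S i).κ ((S i).next k) (KRing.inn a)⟩ = true
    rw [cadj_same]
    exact (S i).link k a
  ne1 := by
    rintro ⟨i, k⟩ h
    change (⟨i, (S i).next k⟩ : Σ i, (S i).ι) = ⟨i, k⟩ at h
    rw [Sigma.mk.injEq] at h
    exact (S i).ne1 k (eq_of_heq h.2)
  ne2 := by
    rintro ⟨i, k⟩ h
    change (⟨i, (S i).next ((S i).next k)⟩ : Σ i, (S i).ι) = ⟨i, k⟩ at h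
    rw [Sigma.mk.injEq] at h
    exact (S i).ne2 k (eq_of_heq h.2)
  hz := by
    rintro ⟨i, k⟩
    change cadj L ⟨i, (S i).κ k kz⟩ ⟨i, (S i).κ ((S i).next k) kz⟩ = false
    rw [cadj_same]
    exact (S i).hz k
  dc := compose_DC L (fun i => (S i).dc)
  per := fun k => (S k.1).per k.2
  hper := by
    rintro ⟨i, k⟩ n
    have h : ∀ n, (Equiv.sigmaCongrRight (fun i => (S i).next))^[n] (⟨i, k⟩ : Σ i, (S i).ι) =
        ⟨i, (S i).next^[n] k⟩ := by
      intro n
      induction n with
      | zero => rfl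
      | succ n ih =>
        rw [Function.iterate_succ_apply', Function.iterate_succ_apply', ih]
        rfl
    rw [h, ← (S i).hper k n]
    constructor
    · intro e
      rw [Sigma.mk.injEq] at e
      exact eq_of_heq e.2
    · intro e
      rw [e]

end

/-- **Rigidity for periods**: a map between closed poles with systems sends a ring of length `n`
to a ring whose length divides `n`. -/
theorem exists_per_dvd {G H : Pole} (hG : G.Closed) (hH : H.Closed) (SG : PSys G) (SH : PSys H)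
    (h : Hom G H) (k : SG.ι) : ∃ k' : SH.ι, SH.per k' ∣ SG.per k := by
  obtain ⟨τ, hτ'⟩ : ∃ τ : SG.ι → SH.ι, ∀ k, τ (SG.next k) = SH.next (τ k) :=
    exists_tau (SG.toKSys hG) (SH.toKSys hH) h
  have hiter : ∀ (n : ℕ) (k : SG.ι), τ (SG.next^[n] k) = SH.next^[n] (τ k) := by
    intro n
    induction n with
    | zero => intro k; rfl
    | succ n ih =>
      intro k
      rw [Function.iterate_succ_apply', Function.iterate_succ_apply', hτ', ih]
  refine ⟨τ k, ?_⟩
  rw [← SH.hper, ← hiter, (SG.hper k _).mpr (dvd_refl _)]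

end Pool.Agent.Lib.MP_75ff39_co
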