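import Pool.Agent.Lib.MP_75ff39_co.Block

set_option autoImplicit false

/-!
# Gluing poles with six special ports along a ring of complete graphs `K₄`
-/

namespace Pool.Agent.Lib.MP_75ff39_co

open Finset

/-- A good pole with six special ports and a system of copies of `K`. -/
structure SPole where
  X : Pole
  good : Good X
  sp : Fin 6 → X.V
  sp_inj : Function.Injective sp
  sp_port : ∀ a, X.port (sp a) = true
  sys : PSys X

/-- The lengths of the rings of copies of `K`. -/
def SPole.lens (S : SPole) : Set ℕ := Set.range S.sys.per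

/-- A partial matching of the special ports of a family of poles. -/
structure Pattern (I : Type) where
  m : I × Fin 6 → I × Fin 6
  invol : ∀ p, m (m p) = p
  ne : ∀ p, m p ≠ p → (m p).1 ≠ p.1

section

variable {I : Type} [Fintype I] [DecidableEq I] (P : Pattern I) (f : I → SPole)

/-- The special port with index `p`. -/
def spt (p : I × Fin 6) : Σ i, (f i).X.V := ⟨p.1, (f p.1).sp p.2⟩

omit [Fintype I] [DecidableEq I] in
theorem spt_inj {p q : I × Fin 6} (h : spt f p = spt f q) : p = q := by
  obtain ⟨i, a⟩ := p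
  obtain ⟨j, b⟩ := q
  unfold spt at h
  rw [Sigma.mk.injEq] at h
  obtain ⟨h1, h2⟩ := h
  simp only at h1
  subst h1
  have h3 : a = b := (f i).sp_inj (eq_of_heq h2)
  rw [h3]

/-- The links given by a pattern. -/
def patLinks : Links (fun i => (f i).X) where
  lk x y := decide (∃ p : I × Fin 6, P.m p ≠ p ∧ x = spt f p ∧ y = spt f (P.m p))
  symm x y := by
    rw [decide_eq_decide]
    constructor
    · rintro ⟨p, h1, h2, h3⟩
      exact ⟨P.m p, by rw [P.invol]; exact h1.symm, h3, by rw [P.invol]; exact h2⟩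
    · rintro ⟨p, h1, h2, h3⟩
      exact ⟨P.m p, by rw [P.invol]; exact h1.symm, h3, by rw [P.invol]; exact h2⟩
  ne x y h := by
    rw [decide_eq_true_eq] at h
    obtain ⟨p, h1, h2, h3⟩ := h
    rw [h2, h3]
    exact (P.ne p h1).symm
  port x y h := by
    rw [decide_eq_true_eq] at h
    obtain ⟨p, h1, h2, h3⟩ := h
    rw [h2]
    exact (f p.1).sp_port p.2
  func x y z h h' := by
    rw [decide_eq_true_eq] at h h'
    obtain ⟨p, h1, h2, h3⟩ := h
    obtain ⟨p', h1', h2', h3'⟩ := h'
    have : p = p' := spt_inj f (h2.symm.trans h2')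
    subst this
    rw [h3, h3']

theorem patLinks_lk {x y : Σ i, (f i).X.V} : (patLinks P f).lk x y = true ↔
    ∃ p : I × Fin 6, P.m p ≠ p ∧ x = spt f p ∧ y = spt f (P.m p) := by
  unfold patLinks
  rw [decide_eq_true_eq]

/-- The number of links of the pattern leaving `J`. -/
def patCut (J : Finset I) : ℕ :=
  (univ.filter (fun p : I × Fin 6 => p.1 ∈ J ∧ (P.m p).1 ∉ J)).card

theorem patCut_le (J : Finset I) : patCut P J ≤ linkcut (patLinks P f) J := by
  unfold patCut linkcut
  apply card_le_card_of_injOn (fun p => (spt f p, spt f (P.m p)))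
  · intro p hp
    simp only [coe_filter, mem_univ, true_and, Set.mem_ofPred_eq] at hp ⊢
    refine ⟨hp.1, hp.2, ?_⟩
    rw [patLinks_lk]
    refine ⟨p, ?_, rfl, rfl⟩
    intro e
    rw [e] at hp
    exact hp.2 hp.1
  · intro p _ q _ h
    simp only [Prod.mk.injEq] at h
    exact spt_inj f h.1

theorem spt_not_linked {p : I × Fin 6} (h : P.m p = p) : ¬ Linked (patLinks P f) (spt f p) := by
  rintro ⟨y, hy⟩
  rw [patLinks_lk] at hy
  obtain ⟨q, h1, h2, _⟩ := hy
  have := spt_inj f h2
  subst this
  exact h1 h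

theorem spt_cport {p : I × Fin 6} (h : P.m p = p) : cport (patLinks P f) (spt f p) = true := by
  rw [cport_iff]
  exact ⟨(f p.1).sp_port p.2, spt_not_linked P f h⟩

end

/-! ### The ring of complete graphs -/

/-- Three disjoint perfect matchings of `K₄`. -/
def mt (a : Fin 3) (q : Fin 4) : Fin 4 :=
  (![![1, 0, 3, 2], ![2, 3, 0, 1], ![3, 2, 1, 0]] : Fin 3 → Fin 4 → Fin 4) a q

theorem mt_invol : ∀ a q, mt a (mt a q) = q := by decide

theorem mt_ne : ∀ a q, mt a q ≠ q := by decide

theorem mt_cut : ∀ S : Finset (Fin 4), S.Nonempty → S ≠ univ →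
    3 ≤ (univ.filter (fun p : Fin 4 × Fin 3 => p.1 ∈ S ∧ mt p.2 p.1 ∉ S)).card := by
  decide +kernel

section

variable (n : ℕ) [Fact (2 ≤ n)]

/-- The matching of the ring pattern. -/
def rm (p : (ZMod n × Fin 4) × Fin 6) : (ZMod n × Fin 4) × Fin 6 :=
  match p.2 with
  | 0 => ((p.1.1, mt 0 p.1.2), 0)
  | 1 => ((p.1.1, mt 1 p.1.2), 1)
  | 2 => ((p.1.1, mt 2 p.1.2), 2)
  | 3 => ((p.1.1 + 1, p.1.2), 4)
  | 4 => ((p.1.1 - 1, p.1.2), 3)
  | 5 => p

/-- The ring pattern: positions in `ZMod n`, four copies at every position joined like `K₄` by the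
special ports `0, 1, 2`; port `3` is joined to the port `4` of the same copy at the next
position; port `5` is free. -/
def rp : Pattern (ZMod n × Fin 4) where
  m := rm n
  invol := by
    rintro ⟨⟨l, q⟩, a⟩
    fin_cases a <;> simp [rm, mt_invol]
  ne := by
    rintro ⟨⟨l, q⟩, a⟩ h
    have h1 := zmod_succ_ne n l
    have h2 := zmod_succ_ne n (l - 1)
    rw [sub_add_cancel] at h2
    fin_cases a
    · simp [rm, mt_ne]
    · simp [rm, mt_ne]
    · simp [rm, mt_ne]
    · intro e
      exact h1 (congrArg Prod.fst e).symm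
    · intro e
      exact h2 (congrArg Prod.fst e)
    · exact absurd rfl h

omit [Fact (2 ≤ n)] in
theorem rm_lt (l : ZMod n) (q : Fin 4) (a : Fin 3) :
    rm n ((l, q), ⟨a.val, by omega⟩) = ((l, mt a q), ⟨a.val, by omega⟩) := by
  fin_cases a <;> rfl

/-- The copies at the position `l` in `J`. -/
def layer (J : Finset (ZMod n × Fin 4)) (l : ZMod n) : Finset (Fin 4) :=
  univ.filter (fun q => (l, q) ∈ J)

/-- The positions of the copies `q` in `J`. -/
def line (J : Finset (ZMod n × Fin 4)) (q : Fin 4) : Finset (ZMod n) :=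
  univ.filter (fun l => (l, q) ∈ J)

omit [Fact (2 ≤ n)] in
theorem mem_layer {J : Finset (ZMod n × Fin 4)} {l : ZMod n} {q : Fin 4} :
    q ∈ layer n J l ↔ (l, q) ∈ J := by simp [layer]

theorem mem_line {J : Finset (ZMod n × Fin 4)} {l : ZMod n} {q : Fin 4} :
    l ∈ line n J q ↔ (l, q) ∈ J := by simp [line]

/-- The links leaving `J` inside the position `l`. -/
def inCut (J : Finset (ZMod n × Fin 4)) (l : ZMod n) : Finset ((ZMod n × Fin 4) × Fin 6) :=
  (univ.filter (fun p : Fin 4 × Fin 3 => p.1 ∈ layer n J l ∧ mt p.2 p.1 ∉ layer n J l)).image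
    (fun p => ((l, p.1), ⟨p.2.val, by omega⟩))

omit [Fact (2 ≤ n)] in
theorem inCut_card (J : Finset (ZMod n × Fin 4)) (l : ZMod n) (h1 : (layer n J l).Nonempty)
    (h2 : layer n J l ≠ univ) : 3 ≤ (inCut n J l).card := by
  unfold inCut
  rw [card_image_of_injective]
  · exact mt_cut _ h1 h2
  · rintro ⟨q, a⟩ ⟨q', a'⟩ h
    simp only [Prod.mk.injEq, Fin.mk.injEq, true_and] at h
    rw [h.1, Fin.ext h.2]

theorem inCut_sub (J : Finset (ZMod n × Fin 4)) (l : ZMod n) : inCut n J l ⊆
    univ.filter (fun p : (ZMod n × Fin 4) × Fin 6 => p.1 ∈ J ∧ ((rp n).m p).1 ∉ J) := by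
  intro x hx
  unfold inCut at hx
  rw [mem_image] at hx
  obtain ⟨⟨q, a⟩, h, rfl⟩ := hx
  simp only [mem_filter, mem_univ, true_and, mem_layer] at h ⊢
  refine ⟨h.1, ?_⟩
  change (rm n _).1 ∉ J
  rw [rm_lt]
  exact h.2

omit [Fact (2 ≤ n)] in
theorem inCut_lt (J : Finset (ZMod n × Fin 4)) (l : ZMod n) {x : (ZMod n × Fin 4) × Fin 6}
    (hx : x ∈ inCut n J l) : x.2.val < 3 ∧ x.1.1 = l := by
  unfold inCut at hx
  rw [mem_image] at hx
  obtain ⟨⟨q, a⟩, h, rfl⟩ := hx
  exact ⟨a.2, rfl⟩

/-- The two links of the line `q` leaving `J`. -/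
theorem line_cut (J : Finset (ZMod n × Fin 4)) (q : Fin 4) (h1 : (line n J q).Nonempty)
    (h2 : line n J q ≠ univ) : ∃ l l' : ZMod n,
    ((((l, q), 3) : (ZMod n × Fin 4) × Fin 6) ∈ univ.filter
      (fun p : (ZMod n × Fin 4) × Fin 6 => p.1 ∈ J ∧ ((rp n).m p).1 ∉ J)) ∧
    ((((l', q), 4) : (ZMod n × Fin 4) × Fin 6) ∈ univ.filter
      (fun p : (ZMod n × Fin 4) × Fin 6 => p.1 ∈ J ∧ ((rp n).m p).1 ∉ J)) := by
  obtain ⟨l, hl, hl'⟩ := exists_leave n _ h1 h2
  obtain ⟨l', hk, hk'⟩ := exists_enter n _ h1 h2
  rw [mem_line] at hl hl' hk hk'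
  refine ⟨l, l' + 1, ?_, ?_⟩
  · rw [mem_filter]
    exact ⟨mem_univ _, hl, hl'⟩
  · rw [mem_filter]
    refine ⟨mem_univ _, hk', ?_⟩
    change (l' + 1 - 1, q) ∉ J
    rw [add_sub_cancel_right]
    exact hk

theorem rp_cut (J : Finset (ZMod n × Fin 4)) (h1 : J.Nonempty) (h2 : J ≠ univ) :
    5 ≤ patCut (rp n) J := by
  unfold patCut
  set C := univ.filter
      (fun p : (ZMod n × Fin 4) × Fin 6 => p.1 ∈ J ∧ ((rp n).m p).1 ∉ J) with hC
  by_cases hA : ∃ l, (layer n J l).Nonempty ∧ layer n J l ≠ univ
  · obtain ⟨l, hl1, hl2⟩ := hA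
    have h3 := inCut_card n J l hl1 hl2
    have hs := inCut_sub n J l
    by_cases hB : ∃ q, (line n J q).Nonempty ∧ line n J q ≠ univ
    · obtain ⟨q, hq1, hq2⟩ := hB
      obtain ⟨k, k', hk, hk'⟩ := line_cut n J q hq1 hq2
      have hsub : insert (((k, q), 3) : (ZMod n × Fin 4) × Fin 6)
          (insert (((k', q), 4) : (ZMod n × Fin 4) × Fin 6) (inCut n J l)) ⊆ C := by
        intro x hx
        rw [mem_insert, mem_insert] at hx
        rcases hx with rfl | rfl | hx
        · exact hk
        · exact hk'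
        · exact hs hx
      have hn1 : (((k', q), 4) : (ZMod n × Fin 4) × Fin 6) ∉ inCut n J l := by
        intro h
        have := (inCut_lt n J l h).1
        change (4 : Fin 6).val < 3 at this
        exact absurd this (by decide)
      have hn2 : (((k, q), 3) : (ZMod n × Fin 4) × Fin 6) ∉
          insert (((k', q), 4) : (ZMod n × Fin 4) × Fin 6) (inCut n J l) := by
        rw [mem_insert, not_or]
        constructor
        · intro e
          have := congrArg Prod.snd e
          change (3 : Fin 6) = 4 at this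
          exact absurd this (by decide)
        · intro h
          have := (inCut_lt n J l h).1
          change (3 : Fin 6).val < 3 at this
          exact absurd this (by decide)
      have := card_le_card hsub
      rw [card_insert_of_notMem hn2, card_insert_of_notMem hn1] at this
      omega
    · push Not at hB
      have hl : layer n J (l + 1) = layer n J l := by
        ext q
        rw [mem_layer, mem_layer, ← mem_line, ← mem_line]
        by_cases hne : (line n J q).Nonempty
        · rw [hB q hne]; simp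
        · rw [not_nonempty_iff_eq_empty] at hne
          rw [hne]; simp
      have h3' := inCut_card n J (l + 1) (by rw [hl]; exact hl1) (by rw [hl]; exact hl2)
      have hs' := inCut_sub n J (l + 1)
      have hd : Disjoint (inCut n J l) (inCut n J (l + 1)) := by
        rw [disjoint_left]
        intro x hx hx'
        have e1 := (inCut_lt n J l hx).2
        have e2 := (inCut_lt n J (l + 1) hx').2
        exact zmod_succ_ne n l (e1.symm.trans e2)
      have := card_le_card (union_subset hs hs' : _ ⊆ C)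
      rw [card_union_of_disjoint hd] at this
      omega
  · push Not at hA
    have hline : ∀ q, (line n J q).Nonempty ∧ line n J q ≠ univ := by
      obtain ⟨⟨l, q0⟩, hl⟩ := h1
      have hlu : layer n J l = univ := hA l ⟨q0, (mem_layer n).mpr hl⟩
      have : ∃ l' q', (l', q') ∉ J := by
        by_contra hcon
        push Not at hcon
        apply h2
        rw [eq_univ_iff_forall]
        rintro ⟨l', q'⟩
        exact hcon l' q'
      obtain ⟨l', q', hl'⟩ := this
      have hle : ¬ (layer n J l').Nonempty := by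
        intro hne
        have := hA l' hne
        apply hl'
        rw [← mem_layer, this]
        exact mem_univ _
      intro q
      refine ⟨⟨l, (mem_line n).mpr ((mem_layer n).mp (by rw [hlu]; exact mem_univ q))⟩, ?_⟩
      intro hu
      apply hle
      refine ⟨q, (mem_layer n).mpr ((mem_line n).mp (by rw [hu]; exact mem_univ _))⟩
    have hc := fun q => line_cut n J q (hline q).1 (hline q).2
    choose k k' hk hk' using hc
    have hsub : (univ : Finset (Fin 4)).image
          (fun q => (((k q, q), 3) : (ZMod n × Fin 4) × Fin 6)) ∪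
        (univ : Finset (Fin 4)).image
          (fun q => (((k' q, q), 4) : (ZMod n × Fin 4) × Fin 6)) ⊆ C := by
      intro x hx
      rw [mem_union, mem_image, mem_image] at hx
      rcases hx with ⟨q, _, rfl⟩ | ⟨q, _, rfl⟩
      · exact hk q
      · exact hk' q
    have hd : Disjoint ((univ : Finset (Fin 4)).image
          (fun q => (((k q, q), 3) : (ZMod n × Fin 4) × Fin 6)))
        ((univ : Finset (Fin 4)).image
          (fun q => (((k' q, q), 4) : (ZMod n × Fin 4) × Fin 6))) := by
      rw [disjoint_left]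
      intro x hx hx'
      rw [mem_image] at hx hx'
      obtain ⟨q, _, rfl⟩ := hx
      obtain ⟨q', _, e⟩ := hx'
      have := congrArg Prod.snd e
      change (4 : Fin 6) = 3 at this
      exact absurd this (by decide)
    have := card_le_card hsub
    rw [card_union_of_disjoint hd, card_image_of_injective, card_image_of_injective] at this
    · simp only [card_univ, Fintype.card_fin] at this
      omega
    · intro q q' e
      simp only [Prod.mk.injEq] at e
      exact e.1.2
    · intro q q' e
      simp only [Prod.mk.injEq] at e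
      exact e.1.2

/-- Places of the new special ports. -/
def pos (j : Fin 6) : ZMod n × Fin 4 := (((j.val / 4 : ℕ) : ZMod n), ⟨j.val % 4, by omega⟩)

theorem pos_inj {i j : Fin 6} (h : pos n i = pos n j) : i = j := by
  unfold pos at h
  simp only [Prod.mk.injEq, Fin.mk.injEq] at h
  obtain ⟨h1, h2⟩ := h
  have hn := Fact.out (p := 2 ≤ n)
  rw [ZMod.natCast_eq_natCast_iff'] at h1
  have hi : i.val / 4 < n := by omega
  have hj : j.val / 4 < n := by omega
  rw [Nat.mod_eq_of_lt hi, Nat.mod_eq_of_lt hj] at h1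
  apply Fin.ext
  omega

/-- The ring of four-fold copies of the poles `f l`. -/
def ringOf (f : ZMod n → SPole) : SPole where
  X := compose (patLinks (rp n) (fun i : ZMod n × Fin 4 => f i.1))
  good := by
    apply compose_good _ (fun i : ZMod n × Fin 4 => (f i.1).good)
    · intro J h1 h2
      exact (rp_cut n J h1 h2).trans (patCut_le _ _ J)
    · have h6 : (univ.image (fun j : Fin 6 => spt (fun i : ZMod n × Fin 4 => f i.1)
          (pos n j, 5))).card = 6 := by
        rw [card_image_of_injective]
        · simp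
        · intro i j h
          exact pos_inj n (congrArg Prod.fst (spt_inj _ h))
      refine le_trans (by omega : 5 ≤ 6) (le_trans (le_of_eq h6.symm) ?_)
      unfold cacount
      apply card_le_card
      intro x hx
      rw [mem_image] at hx
      obtain ⟨j, _, rfl⟩ := hx
      rw [mem_filter]
      exact ⟨mem_univ _, spt_cport _ _ rfl⟩
  sp j := spt (fun i : ZMod n × Fin 4 => f i.1) (pos n j, 5)
  sp_inj := by
    intro i j h
    exact pos_inj n (congrArg Prod.fst (spt_inj _ h))
  sp_port j := spt_cport (rp n) (fun i : ZMod n × Fin 4 => f i.1) (p := (pos n j, 5)) rfl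
  sys := PSys.compose _ (fun i : ZMod n × Fin 4 => (f i.1).sys)

theorem lens_ringOf (f : ZMod n → SPole) (N : ℕ) :
    N ∈ (ringOf n f).lens ↔ ∃ l, N ∈ (f l).lens := by
  constructor
  · rintro ⟨k, h⟩
    let k' : Σ i : ZMod n × Fin 4, (f i.1).sys.ι := k
    exact ⟨k'.1.1, k'.2, h⟩
  · rintro ⟨l, k, h⟩
    exact ⟨(⟨(l, 0), k⟩ : Σ i : ZMod n × Fin 4, (f i.1).sys.ι), h⟩

end

end Pool.Agent.Lib.MP_75ff39_co
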