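import Pool.Agent.Lib.MP_75ff39_co.Defs

set_option autoImplicit false

/-!
# Cubic poles

A pole is a finite simple graph all of whose vertices have degree `3`, where a degree-2 vertex
carries in addition one dangling semi-edge (such a vertex is called a port).
-/

namespace Pool.Agent.Lib.MP_75ff39_co

open Finset

structure Pole : Type 1 where
  V : Type
  [fin : Fintype V]
  [dec : DecidableEq V]
  adj : V → V → Bool
  port : V → Bool
  symm : ∀ u v, adj u v = adj v u
  irrefl : ∀ v, adj v v = false
  deg : ∀ v, (univ.filter (fun u => adj v u = true)).card + (if port v = true then 1 else 0) = 3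

attribute [instance] Pole.fin Pole.dec

namespace Pole

/-- The underlying simple graph. -/
def toGraph (X : Pole) : SimpleGraph X.V where
  Adj u v := X.adj u v = true
  symm := ⟨fun u v h => by rw [X.symm]; exact h⟩
  loopless := ⟨fun v h => by rw [X.irrefl] at h; exact Bool.noConfusion h⟩

@[simp] theorem toGraph_adj (X : Pole) (u v : X.V) : X.toGraph.Adj u v ↔ X.adj u v = true :=
  Iff.rfl

theorem ne_of_adj (X : Pole) {u v : X.V} (h : X.adj u v = true) : u ≠ v := by
  rintro rfl
  rw [X.irrefl] at h
  exact Bool.noConfusion h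

theorem adj_comm (X : Pole) {u v : X.V} : X.adj u v = true ↔ X.adj v u = true := by
  rw [X.symm]

/-- A pole is closed if it has no port, i.e. it is a cubic graph. -/
def Closed (X : Pole) : Prop := ∀ v, X.port v = false

/-- `u` is in the star of `v`: either a neighbour of `v`, or `v` itself if `v` is a port. -/
def Star (X : Pole) (v u : X.V) : Prop := X.adj v u = true ∨ (v = u ∧ X.port v = true)

instance (X : Pole) (v u : X.V) : Decidable (X.Star v u) := by unfold Star; infer_instance

theorem star_of_adj (X : Pole) {u v : X.V} (h : X.adj u v = true) : X.Star u v := Or.inl h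

theorem star_iff_of_closed (X : Pole) (hX : X.Closed) {u v : X.V} :
    X.Star u v ↔ X.adj u v = true := by
  unfold Star
  simp [hX u]

theorem star_card (X : Pole) (v : X.V) : (univ.filter (fun u => X.Star v u)).card = 3 := by
  have h := X.deg v
  by_cases hp : X.port v = true
  · have : univ.filter (fun u => X.Star v u) =
        insert v (univ.filter (fun u => X.adj v u = true)) := by
      ext u
      simp only [Star, hp, and_true, mem_filter, mem_univ, true_and, mem_insert]
      constructor
      · rintro (h | h)
        · exact Or.inr h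
        · exact Or.inl h.symm
      · rintro (h | h)
        · exact Or.inr h.symm
        · exact Or.inl h
    rw [this, card_insert_of_notMem (by simp [X.irrefl])]
    simpa [hp] using h
  · have : univ.filter (fun u => X.Star v u) = univ.filter (fun u => X.adj v u = true) := by
      ext u
      simp [Star, hp]
    rw [this]
    simpa [hp] using h

theorem adj_card_of_closed (X : Pole) (hX : X.Closed) (v : X.V) :
    (univ.filter (fun u => X.adj v u = true)).card = 3 := by
  have h := X.deg v
  simpa [hX v] using h

/-- The number of edges between `A` and its complement. -/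
def ecut (X : Pole) (A : Finset X.V) : ℕ :=
  (univ.filter (fun p : X.V × X.V => p.1 ∈ A ∧ p.2 ∉ A ∧ X.adj p.1 p.2 = true)).card

/-- The number of ports in `A`. -/
def acount (X : Pole) (A : Finset X.V) : ℕ := (A.filter (fun v => X.port v = true)).card

/-- Strong connectivity of a closed pole: an edge cut with at most `4` edges has at most two
vertices on one side. -/
def Strong (X : Pole) : Prop := ∀ A : Finset X.V, X.ecut A ≤ 4 → A.card ≤ 2 ∨ Aᶜ.card ≤ 2

theorem ecut_compl (X : Pole) (A : Finset X.V) : X.ecut Aᶜ = X.ecut A := by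
  unfold ecut
  refine card_bij (fun p _ => (p.2, p.1)) ?_ ?_ ?_
  · rintro ⟨u, v⟩ h
    simp only [mem_filter, mem_univ, true_and, mem_compl, not_not] at h ⊢
    exact ⟨h.2.1, h.1, by rw [X.symm]; exact h.2.2⟩
  · rintro ⟨u, v⟩ _ ⟨u', v'⟩ _ h
    simp only [Prod.mk.injEq] at h ⊢
    exact ⟨h.2, h.1⟩
  · rintro ⟨u, v⟩ h
    simp only [mem_filter, mem_univ, true_and, mem_compl, not_not] at h ⊢
    refine ⟨(v, u), ⟨h.2.1, h.1, by rw [X.symm]; exact h.2.2⟩, rfl⟩

/-- A single vertex of a closed pole has a cut with three edges. -/
theorem ecut_singleton (X : Pole) (hX : X.Closed) (v : X.V) : X.ecut {v} = 3 := by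
  rw [← X.adj_card_of_closed hX v]
  unfold ecut
  refine card_bij (fun p _ => p.2) ?_ ?_ ?_
  · rintro ⟨u, w⟩ h
    simp only [mem_filter, mem_univ, true_and, mem_singleton] at h ⊢
    obtain ⟨rfl, _, h⟩ := h
    exact h
  · rintro ⟨u, w⟩ h ⟨u', w'⟩ h' e
    simp only [mem_filter, mem_univ, true_and, mem_singleton] at h h' e ⊢
    rw [h.1, h'.1, e]
  · intro w h
    simp only [mem_filter, mem_univ, true_and, mem_singleton] at h ⊢
    exact ⟨(v, w), ⟨rfl, fun e => X.ne_of_adj h e.symm, h⟩, rfl⟩

/-- Two vertices of a closed pole have a cut with at least four edges. -/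
theorem ecut_pair (X : Pole) (hX : X.Closed) {v w : X.V} (hvw : v ≠ w) :
    4 ≤ X.ecut {v, w} := by
  -- neighbours of v other than w, neighbours of w other than v
  have hv : 2 ≤ ((univ.filter (fun u => X.adj v u = true)).erase w).card := by
    have h1 := card_le_card_sdiff_add_card (s := (univ.filter (fun u => X.adj v u = true)))
      (t := {w})
    have h2 : (univ.filter (fun u => X.adj v u = true)) \ {w} =
      (univ.filter (fun u => X.adj v u = true)).erase w := by
      rw [sdiff_singleton_eq_erase]
    rw [h2, X.adj_card_of_closed hX v] at h1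
    simp only [card_singleton] at h1
    omega
  have hw : 2 ≤ ((univ.filter (fun u => X.adj w u = true)).erase v).card := by
    have h1 := card_le_card_sdiff_add_card (s := (univ.filter (fun u => X.adj w u = true)))
      (t := {v})
    have h2 : (univ.filter (fun u => X.adj w u = true)) \ {v} =
      (univ.filter (fun u => X.adj w u = true)).erase v := by
      rw [sdiff_singleton_eq_erase]
    rw [h2, X.adj_card_of_closed hX w] at h1
    simp only [card_singleton] at h1
    omega
  have hsub : (((univ.filter (fun u => X.adj v u = true)).erase w).map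
        ⟨fun u => (v, u), fun a b h => by simpa using h⟩) ∪
      (((univ.filter (fun u => X.adj w u = true)).erase v).map
        ⟨fun u => (w, u), fun a b h => by simpa using h⟩) ⊆
      univ.filter (fun p : X.V × X.V => p.1 ∈ ({v, w} : Finset X.V) ∧
        p.2 ∉ ({v, w} : Finset X.V) ∧ X.adj p.1 p.2 = true) := by
    rintro ⟨a, b⟩ h
    simp only [mem_union, mem_map, mem_erase, mem_filter, mem_univ, true_and,
      Function.Embedding.coeFn_mk, Prod.mk.injEq] at h
    simp only [mem_filter, mem_univ, true_and, mem_insert, mem_singleton, not_or]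
    rcases h with ⟨u, ⟨hu1, hu2⟩, rfl, rfl⟩ | ⟨u, ⟨hu1, hu2⟩, rfl, rfl⟩
    · exact ⟨Or.inl rfl, ⟨fun e => X.ne_of_adj hu2 e.symm, hu1⟩, hu2⟩
    · exact ⟨Or.inr rfl, ⟨hu1, fun e => X.ne_of_adj hu2 e.symm⟩, hu2⟩
  have hdisj : Disjoint (((univ.filter (fun u => X.adj v u = true)).erase w).map
        ⟨fun u => (v, u), fun a b h => by simpa using h⟩)
      (((univ.filter (fun u => X.adj w u = true)).erase v).map
        ⟨fun u => (w, u), fun a b h => by simpa using h⟩) := by
    rw [disjoint_left]
    rintro ⟨a, b⟩ h h'
    simp only [mem_map, Function.Embedding.coeFn_mk, Prod.mk.injEq] at h h'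
    obtain ⟨_, _, h1, _⟩ := h
    obtain ⟨_, _, h2, _⟩ := h'
    exact hvw (h1.trans h2.symm)
  unfold ecut
  refine le_trans ?_ (card_le_card hsub)
  rw [card_union_of_disjoint hdisj, card_map, card_map]
  omega

/-- In a strong closed pole a cut with at most three edges around a nonempty proper vertex set
is the star of a single vertex. -/
theorem small_cut (X : Pole) (hX : X.Closed) (hS : X.Strong) (A : Finset X.V)
    (h : X.ecut A ≤ 3) : A = ∅ ∨ Aᶜ = ∅ ∨ (∃ v, A = {v}) ∨ ∃ v, Aᶜ = {v} := by
  have key : ∀ B : Finset X.V, X.ecut B ≤ 3 → B.card ≤ 2 → B = ∅ ∨ ∃ v, B = {v} := by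
    intro B hB hc
    have : B.card = 0 ∨ B.card = 1 ∨ B.card = 2 := by omega
    rcases this with h0 | h1 | h2
    · exact Or.inl (card_eq_zero.mp h0)
    · exact Or.inr (card_eq_one.mp h1)
    · obtain ⟨v, w, hvw, rfl⟩ := card_eq_two.mp h2
      have := X.ecut_pair hX hvw
      omega
  rcases hS A (by omega) with h1 | h1
  · rcases key A h h1 with h2 | h2
    · exact Or.inl h2
    · exact Or.inr (Or.inr (Or.inl h2))
  · rcases key Aᶜ (by rw [ecut_compl]; exact h) h1 with h2 | h2
    · exact Or.inr (Or.inl h2)
    · exact Or.inr (Or.inr (Or.inr h2))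

end Pole

/-- A map of poles `X → H`: a map of vertices together with a map of edges and semi-edges (the
semi-edge at a port `v` is `F v v`) sending the star of each vertex injectively into the star
of its image. -/
structure Hom (X H : Pole) where
  φ : X.V → H.V
  F : X.V → X.V → Sym2 H.V
  symm : ∀ u v, X.adj u v = true → F u v = F v u
  mem : ∀ u v, X.Star u v → ∃ w, H.Star (φ u) w ∧ F u v = s(φ u, w)
  inj : ∀ u v w, X.Star u v → X.Star u w → F u v = F u w → v = w

end Pool.Agent.Lib.MP_75ff39_co
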