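import Pool.Agent.Lib.MP_75ff39_co.Defect

set_option autoImplicit false

/-!
# Rigidity of the copies of `K`
-/

namespace Pool.Agent.Lib.MP_75ff39_co

open Finset

/-- The ports of `K`. -/
def pt (j : ZMod 7) : K.V := (⟨j, r3⟩ : Σ _ : ZMod 7, Neg.V)

theorem pt_inj {i j : ZMod 7} (h : pt i = pt j) : i = j := by
  have : (pt i).1 = (pt j).1 := by rw [h]
  exact this

theorem K_port_iff (x : K.V) : K.port x = true ↔ ∃ j, x = pt j := by
  have h := KL_port_iff x
  constructor
  · intro hx
    exact ⟨x.1, Sigma.ext rfl (heq_of_eq (h.mp hx))⟩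
  · rintro ⟨j, rfl⟩
    exact h.mpr rfl

/-- Outgoing ports of `K`. -/
def kOut : Fin 3 → ZMod 7 := ![0, 1, 3]

/-- Incoming ports of `K`. -/
def kInn : Fin 3 → ZMod 7 := ![2, 4, 6]

def KRing : RingData K 3 where
  out a := pt (kOut a)
  inn a := pt (kInn a)
  out_inj := by
    intro a b h
    have := pt_inj h
    revert this
    revert a b
    decide
  inn_inj := by
    intro a b h
    have := pt_inj h
    revert this
    revert a b
    decide
  disj := by
    intro a b h
    have := pt_inj h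
    revert this
    revert a b
    decide
  out_port a := (K_port_iff _).mpr ⟨_, rfl⟩
  inn_port a := (K_port_iff _).mpr ⟨_, rfl⟩

/-- The last port of `K`. -/
def kz : K.V := pt 5

theorem port_cases (x : K.V) (h : K.port x = true) :
    (∃ a, x = KRing.out a) ∨ (∃ a, x = KRing.inn a) ∨ x = kz := by
  obtain ⟨j, rfl⟩ := (K_port_iff x).mp h
  have : (∃ a, j = kOut a) ∨ (∃ a, j = kInn a) ∨ j = 5 := by
    revert j; decide
  rcases this with ⟨a, rfl⟩ | ⟨a, rfl⟩ | rfl
  · exact Or.inl ⟨a, rfl⟩
  · exact Or.inr (Or.inl ⟨a, rfl⟩)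
  · exact Or.inr (Or.inr rfl)

theorem kz_ne_out (a : Fin 3) : kz ≠ KRing.out a := by
  intro h
  have := pt_inj h
  revert this
  revert a
  decide

theorem kz_ne_inn (a : Fin 3) : kz ≠ KRing.inn a := by
  intro h
  have := pt_inj h
  revert this
  revert a
  decide

theorem kz_port : K.port kz = true := (K_port_iff _).mpr ⟨_, rfl⟩

/-! ### Walks of length five -/

/-- There is a walk of length `n` from `x` to `y`. -/
def Wk (X : Pole) : ℕ → X.V → X.V → Prop
  | 0, x, y => x = y
  | n + 1, x, y => ∃ w, X.adj x w = true ∧ Wk X n w y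

def distTab : List (List ℕ) :=
  [[2, 2, 2, 0, 2, 1, 1], [4, 3, 3, 5, 4, 4, 4], [6, 5, 5, 7, 6, 6, 6], [8, 7, 7, 9, 8, 8, 8],
   [7, 8, 8, 9, 7, 8, 8], [5, 6, 6, 7, 5, 6, 6], [3, 4, 4, 5, 3, 4, 4]]

def distF (t : ZMod 7) (v : Fin 7) : ℕ := (distTab.getD t.val []).getD v.val 0

theorem dist_inner : ∀ t : ZMod 7, ∀ u v : Fin 7, negAdj u v = true → distF t v ≤ distF t u + 1 := by
  decide +kernel

theorem dist_link : ∀ t : ZMod 7, ∀ a : Fin 2,
    distF (t + 1) (negInn a) ≤ distF t (negOut a) + 1 ∧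
    distF t (negOut a) ≤ distF (t + 1) (negInn a) + 1 := by
  decide +kernel

theorem dist_adj (j0 : ZMod 7) (x y : K.V) (h : K.adj x y = true) :
    distF (y.1 - j0) y.2 ≤ distF (x.1 - j0) x.2 + 1 := by
  rcases cadj_cases KL h with ⟨w, rfl, hw⟩ | hlk
  · exact dist_inner _ _ _ hw
  · rcases (ringLinks_lk negRing 7).mp hlk with ⟨h1, a, h2, h3⟩ | ⟨h1, a, h2, h3⟩
    · rw [h1, h2, h3, show x.1 + 1 - j0 = x.1 - j0 + 1 by ring]
      exact (dist_link _ a).1
    · rw [h1, h2, h3, show y.1 + 1 - j0 = y.1 - j0 + 1 by ring]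
      exact (dist_link _ a).2

theorem dist_walk (j0 : ZMod 7) : ∀ (n : ℕ) (x y : K.V), Wk K n x y →
    distF (y.1 - j0) y.2 ≤ distF (x.1 - j0) x.2 + n := by
  intro n
  induction n with
  | zero =>
    rintro x y h
    have h' : x = y := h
    rw [h']
    exact le_rfl
  | succ n ih =>
    rintro x y ⟨w, hw, h⟩
    have h1 := ih w y h
    have h2 := dist_adj j0 x w hw
    omega

theorem far_ports : ∀ a b : Fin 3, a ≠ b → 5 < distF (kInn b - kInn a) 3 := by decide +kernel

theorem no_walk_inn (a b : Fin 3) (hab : a ≠ b) : ¬ Wk K 5 (KRing.inn a) (KRing.inn b) := by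
  intro h
  have h1 := dist_walk (kInn a) 5 _ _ h
  have h2 := far_ports a b hab
  have h3 : distF ((KRing.inn a).1 - kInn a) (KRing.inn a).2 = 0 := by
    change distF (kInn a - kInn a) 3 = 0
    rw [sub_self]
    decide
  have h4 : distF ((KRing.inn b).1 - kInn a) (KRing.inn b).2 = distF (kInn b - kInn a) 3 := rfl
  omega

theorem KRing_link_adj (j : ZMod 7) (a : Fin 2) :
    K.adj (⟨j, negOut a⟩ : Σ _ : ZMod 7, Neg.V) (⟨j + 1, negInn a⟩ : Σ _ : ZMod 7, Neg.V) =
      true :=
  cadj_of_lk KL (ringLinks_out negRing 7 j a)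

theorem KRing_inner_adj (j : ZMod 7) (u v : Fin 7) (h : negAdj u v = true) :
    K.adj (⟨j, u⟩ : Σ _ : ZMod 7, Neg.V) (⟨j, v⟩ : Σ _ : ZMod 7, Neg.V) = true := by
  change cadj KL ⟨j, u⟩ ⟨j, v⟩ = true
  rw [cadj_same]
  exact h

theorem walk_out : Wk K 5 (KRing.out 0) (KRing.out 1) := by
  refine ⟨(⟨0, (5 : Fin 7)⟩ : Σ _ : ZMod 7, Neg.V), KRing_inner_adj 0 3 5 (by decide), ?_⟩
  refine ⟨(⟨0, (0 : Fin 7)⟩ : Σ _ : ZMod 7, Neg.V), KRing_inner_adj 0 5 0 (by decide), ?_⟩
  refine ⟨(⟨0 + 1, (1 : Fin 7)⟩ : Σ _ : ZMod 7, Neg.V), KRing_link_adj 0 0, ?_⟩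
  refine ⟨(⟨0 + 1, (6 : Fin 7)⟩ : Σ _ : ZMod 7, Neg.V), KRing_inner_adj _ 1 6 (by decide), ?_⟩
  exact ⟨(⟨0 + 1, (3 : Fin 7)⟩ : Σ _ : ZMod 7, Neg.V), KRing_inner_adj _ 6 3 (by decide), rfl⟩

/-! ### Copies of `K` are mapped onto copies of `K` -/

theorem rigid (H : Pole) (hH : H.Closed) {𝒦 : Type} (κ : 𝒦 → K.V → H.V)
    (hinj : ∀ k, Function.Injective (κ k)) (hDC : DC H κ) (h : Hom K H) :
    ∃ k, ∃ g : K.V → K.V, Function.Bijective g ∧ ∀ x, h.φ x = κ k (g x) := by
  classical
  by_cases hcov : ∃ k, ∀ y, ∃ x, h.φ x = κ k y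
  · obtain ⟨k, hk⟩ := hcov
    have hsub : univ.image (κ k) ⊆ univ.image h.φ := by
      intro v hv
      rw [mem_image] at hv ⊢
      obtain ⟨y, _, rfl⟩ := hv
      obtain ⟨x, hx⟩ := hk y
      exact ⟨x, mem_univ _, hx⟩
    have heq : univ.image (κ k) = univ.image h.φ := by
      apply eq_of_subset_of_card_le hsub
      rw [card_image_of_injective _ (hinj k)]
      exact card_image_le
    have hφinj : Function.Injective h.φ := by
      have h1 : (univ.image h.φ).card = (univ : Finset K.V).card := by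
        rw [← heq, card_image_of_injective _ (hinj k)]
      have h2 := card_image_iff.mp h1
      intro x y e
      exact h2 (by simp) (by simp) e
    have hg : ∀ x, ∃ y, h.φ x = κ k y := by
      intro x
      have : h.φ x ∈ univ.image (κ k) := by rw [heq]; exact mem_image_of_mem _ (mem_univ _)
      rw [mem_image] at this
      obtain ⟨y, _, hy⟩ := this
      exact ⟨y, hy.symm⟩
    choose g hg using hg
    refine ⟨k, g, ?_, hg⟩
    rw [← Finite.injective_iff_bijective]
    intro x y e
    apply hφinj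
    rw [hg x, hg y, e]
  · exfalso
    push Not at hcov
    choose r hr using hcov
    obtain ⟨c, hc, _⟩ := hDC r
    let cs : Sym2 H.V → Fin 3 := Sym2.lift ⟨fun a b => if H.adj a b = true then c a b else 0, by
      intro a b
      by_cases hab : H.adj a b = true
      · simp only [if_pos hab, if_pos (H.adj_comm.mp hab)]
        exact hc.symm a b hab
      · simp only [if_neg hab, if_neg (fun e => hab (H.adj_comm.mp e))]⟩
    have hcs : ∀ a b, H.adj a b = true → cs s(a, b) = c a b := by
      intro a b hab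
      simp [cs, hab]
    apply K_uncolourable (fun u v => cs (h.F u v))
    refine ⟨?_, ?_⟩
    · intro u v huv
      rw [h.symm u v huv]
    · intro v _ u w hu hw e
      obtain ⟨a, ha, ea⟩ := h.mem v u hu
      obtain ⟨b, hb, eb⟩ := h.mem v w hw
      have ha' := (H.star_iff_of_closed hH).mp ha
      have hb' := (H.star_iff_of_closed hH).mp hb
      rw [ea, eb, hcs _ _ ha', hcs _ _ hb'] at e
      have hR : ¬ ∃ k, h.φ v = κ k (r k) := by
        rintro ⟨k, hk⟩
        exact hr k v hk
      have hab := hc.inj (h.φ v) hR a b ha hb e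
      apply h.inj v u w hu hw
      rw [ea, eb, hab]

/-! ### Systems of copies of `K` in a closed pole -/

/-- A closed pole `H` together with a family of disjoint copies of `K` arranged in directed rings,
with defect colourings. -/
structure KSys (H : Pole) where
  closed : H.Closed
  ι : Type
  κ : ι → K.V → H.V
  inj : ∀ k k' x x', κ k x = κ k' x' → k = k' ∧ x = x'
  adj : ∀ k x y, H.adj (κ k x) (κ k y) = K.adj x y
  next : ι ≃ ι
  link : ∀ k a, H.adj (κ k (KRing.out a)) (κ (next k) (KRing.inn a)) = true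
  ne1 : ∀ k, next k ≠ k
  ne2 : ∀ k, next (next k) ≠ k
  hz : ∀ k, H.adj (κ k kz) (κ (next k) kz) = false
  dc : DC H κ

namespace KSys

variable {H : Pole} (S : KSys H)

theorem exists_outer (k : S.ι) (p : K.V) (hp : K.port p = true) :
    ∃ o, H.adj (S.κ k p) o = true ∧ ∀ x, S.κ k x ≠ o := by
  classical
  by_contra hcon
  push Not at hcon
  have h3 := H.adj_card_of_closed S.closed (S.κ k p)
  have hd := K.deg p
  rw [if_pos hp] at hd
  have : univ.filter (fun u => H.adj (S.κ k p) u = true) ⊆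
      (univ.filter (fun u => K.adj p u = true)).image (S.κ k) := by
    intro o ho
    rw [mem_filter] at ho
    obtain ⟨x, hx⟩ := hcon o ho.2
    rw [mem_image]
    refine ⟨x, ?_, hx⟩
    rw [mem_filter]
    refine ⟨mem_univ _, ?_⟩
    rw [← S.adj k p x, hx]
    exact ho.2
  have := (card_le_card this).trans card_image_le
  omega

theorem outer_unique (k : S.ι) (p : K.V) (hp : K.port p = true) {o o' : H.V}
    (h1 : H.adj (S.κ k p) o = true) (h2 : ∀ x, S.κ k x ≠ o)
    (h1' : H.adj (S.κ k p) o' = true) (h2' : ∀ x, S.κ k x ≠ o') : o = o' := by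
  classical
  by_contra hne
  have h3 := H.adj_card_of_closed S.closed (S.κ k p)
  have hd := K.deg p
  rw [if_pos hp] at hd
  have hsub : insert o (insert o' ((univ.filter (fun u => K.adj p u = true)).image (S.κ k))) ⊆
      univ.filter (fun u => H.adj (S.κ k p) u = true) := by
    intro v hv
    rw [mem_filter]
    refine ⟨mem_univ _, ?_⟩
    rw [mem_insert, mem_insert, mem_image] at hv
    rcases hv with rfl | rfl | ⟨x, hx, rfl⟩
    · exact h1
    · exact h1'
    · rw [S.adj]; exact (mem_filter.mp hx).2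
  have hinjκ : Function.Injective (S.κ k) := fun x y e => (S.inj k k x y e).2
  have hcard := card_le_card hsub
  rw [card_insert_of_notMem, card_insert_of_notMem, card_image_of_injective _ hinjκ] at hcard
  · omega
  · rw [mem_image]
    rintro ⟨x, _, hx⟩
    exact h2' x hx
  · rw [mem_insert, mem_image, not_or]
    refine ⟨hne, ?_⟩
    rintro ⟨x, _, hx⟩
    exact h2 x hx

/-- The neighbour of a port of a copy outside the copy. -/
noncomputable def outer (k : S.ι) (p : K.V) : H.V :=
  open Classical in if h : K.port p = true then (S.exists_outer k p h).choose else S.κ k p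

theorem outer_adj (k : S.ι) (p : K.V) (hp : K.port p = true) :
    H.adj (S.κ k p) (S.outer k p) = true := by
  unfold outer
  rw [dif_pos hp]
  exact (S.exists_outer k p hp).choose_spec.1

theorem outer_ne (k : S.ι) (p : K.V) (hp : K.port p = true) (x : K.V) :
    S.κ k x ≠ S.outer k p := by
  unfold outer
  rw [dif_pos hp]
  exact (S.exists_outer k p hp).choose_spec.2 x

theorem outer_eq (k : S.ι) (p : K.V) (hp : K.port p = true) {o : H.V}
    (h1 : H.adj (S.κ k p) o = true) (h2 : ∀ x, S.κ k x ≠ o) : S.outer k p = o :=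
  S.outer_unique k p hp (S.outer_adj k p hp) (S.outer_ne k p hp) h1 h2

theorem outer_out (k : S.ι) (a : Fin 3) :
    S.outer k (KRing.out a) = S.κ (S.next k) (KRing.inn a) := by
  apply S.outer_eq k _ (KRing.out_port a) (S.link k a)
  intro x e
  exact S.ne1 k (S.inj _ _ _ _ e).1.symm

theorem outer_inn (k : S.ι) (a : Fin 3) :
    S.outer (S.next k) (KRing.inn a) = S.κ k (KRing.out a) := by
  apply S.outer_eq _ _ (KRing.inn_port a)
  · exact H.adj_comm.mp (S.link k a)
  · intro x e
    exact S.ne1 k (S.inj _ _ _ _ e).1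

theorem outer_inn' (k : S.ι) (a : Fin 3) :
    S.outer k (KRing.inn a) = S.κ (S.next.symm k) (KRing.out a) := by
  have := S.outer_inn (S.next.symm k) a
  rw [Equiv.apply_symm_apply] at this
  exact this

end KSys

section

variable {G H : Pole} (SG : KSys G) (SH : KSys H)

/-- The restriction of a map to a copy of `K`. -/
noncomputable def KSys.restrict (h : Hom G H) (k : SG.ι) : Hom K H where
  φ x := h.φ (SG.κ k x)
  F u v := if u = v then h.F (SG.κ k v) (SG.outer k v) else h.F (SG.κ k u) (SG.κ k v)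
  symm u v huv := by
    rw [if_neg (K.ne_of_adj huv), if_neg (K.ne_of_adj huv).symm]
    apply h.symm
    rw [SG.adj]; exact huv
  mem u v huv := by
    rcases huv with huv | ⟨rfl, hp⟩
    · rw [if_neg (K.ne_of_adj huv)]
      apply h.mem
      apply G.star_of_adj
      rw [SG.adj]; exact huv
    · rw [if_pos rfl]
      exact h.mem _ _ (G.star_of_adj (SG.outer_adj k u hp))
  inj v u w hu hw e := by
    rcases hu with hu | ⟨rfl, hp⟩ <;> rcases hw with hw | ⟨rfl, hp'⟩
    · rw [if_neg (K.ne_of_adj hu), if_neg (K.ne_of_adj hw)] at e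
      have := h.inj _ _ _ (G.star_of_adj (by rw [SG.adj]; exact hu))
        (G.star_of_adj (by rw [SG.adj]; exact hw)) e
      exact (SG.inj _ _ _ _ this).2
    · rw [if_neg (K.ne_of_adj hu), if_pos rfl] at e
      have := h.inj _ _ _ (G.star_of_adj (by rw [SG.adj]; exact hu))
        (G.star_of_adj (SG.outer_adj k v hp')) e
      exact absurd this (SG.outer_ne k v hp' u)
    · rw [if_neg (K.ne_of_adj hw), if_pos rfl] at e
      have := h.inj _ _ _ (G.star_of_adj (SG.outer_adj k v hp))
        (G.star_of_adj (by rw [SG.adj]; exact hw)) e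
      exact absurd this.symm (SG.outer_ne k v hp w)
    · rfl

theorem restrict_φ (h : Hom G H) (k : SG.ι) (x : K.V) :
    (SG.restrict h k).φ x = h.φ (SG.κ k x) := rfl

/-- A bijective self-map of `K` preserving adjacency reflects adjacency. -/
theorem adj_reflect {g : K.V → K.V} (hg : Function.Bijective g)
    (h : ∀ x y, K.adj x y = true → K.adj (g x) (g y) = true) (x y : K.V)
    (hxy : K.adj (g x) (g y) = true) : K.adj x y = true := by
  classical
  set E := univ.filter (fun p : K.V × K.V => K.adj p.1 p.2 = true) with hE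
  have hinj : Function.Injective (fun p : K.V × K.V => (g p.1, g p.2)) := by
    rintro ⟨a, b⟩ ⟨a', b'⟩ e
    simp only [Prod.mk.injEq] at e
    rw [hg.1 e.1, hg.1 e.2]
  have hsub : E.image (fun p => (g p.1, g p.2)) ⊆ E := by
    intro p hp
    rw [mem_image] at hp
    obtain ⟨q, hq, rfl⟩ := hp
    rw [hE, mem_filter] at hq ⊢
    exact ⟨mem_univ _, h _ _ hq.2⟩
  have heq : E.image (fun p => (g p.1, g p.2)) = E := by
    apply eq_of_subset_of_card_le hsub
    rw [card_image_of_injective _ hinj]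
  have : (g x, g y) ∈ E := by rw [hE, mem_filter]; exact ⟨mem_univ _, hxy⟩
  rw [← heq, mem_image] at this
  obtain ⟨⟨a, b⟩, hab, e⟩ := this
  simp only [Prod.mk.injEq] at e
  rw [hE, mem_filter] at hab
  rw [← hg.1 e.1, ← hg.1 e.2]
  exact hab.2

theorem port_preserve {g : K.V → K.V} (hg : Function.Bijective g)
    (h : ∀ x y, K.adj x y = true → K.adj (g x) (g y) = true) (x : K.V)
    (hx : K.port x = true) : K.port (g x) = true := by
  classical
  have h1 := K.deg x
  have h2 := K.deg (g x)
  rw [if_pos hx] at h1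
  by_contra hgx
  rw [if_neg hgx] at h2
  have hle : (univ.filter (fun u => K.adj (g x) u = true)).card ≤
      (univ.filter (fun u => K.adj x u = true)).card := by
    rw [← card_image_of_injective (univ.filter (fun u => K.adj x u = true)) hg.1]
    apply card_le_card
    intro v hv
    rw [mem_filter] at hv
    obtain ⟨u, rfl⟩ := hg.2 v
    rw [mem_image]
    exact ⟨u, by rw [mem_filter]; exact ⟨mem_univ _, adj_reflect hg h x u hv.2⟩, rfl⟩
  omega

theorem walk_map {g : K.V → K.V}
    (h : ∀ x y, K.adj x y = true → K.adj (g x) (g y) = true) :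
    ∀ (n : ℕ) (x y : K.V), Wk K n x y → Wk K n (g x) (g y) := by
  intro n
  induction n with
  | zero => rintro x y h; exact congrArg g h
  | succ n ih =>
    rintro x y ⟨w, hw, hwy⟩
    exact ⟨g w, h _ _ hw, ih w y hwy⟩

theorem walk_reflect {g : K.V → K.V} (hg : Function.Bijective g)
    (h : ∀ x y, K.adj x y = true → K.adj (g x) (g y) = true) :
    ∀ (n : ℕ) (x y : K.V), Wk K n (g x) (g y) → Wk K n x y := by
  intro n
  induction n with
  | zero => rintro x y h; exact hg.1 h
  | succ n ih =>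
    rintro x y ⟨w, hw, hwy⟩
    obtain ⟨w', rfl⟩ := hg.2 w
    exact ⟨w', adj_reflect hg h _ _ hw, ih w' y hwy⟩

/-- **Main rigidity statement**: a map between closed poles with systems of copies of `K` induces
a map on copies commuting with `next`. -/
theorem exists_tau (h : Hom G H) :
    ∃ τ : SG.ι → SH.ι, ∀ k, τ (SG.next k) = SH.next (τ k) := by
  classical
  have hr : ∀ k : SG.ι, ∃ k', ∃ g : K.V → K.V, Function.Bijective g ∧
      ∀ x, h.φ (SG.κ k x) = SH.κ k' (g x) := fun k =>
    rigid H SH.closed SH.κ (fun k x y e => (SH.inj k k x y e).2) SH.dc (SG.restrict h k)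
  choose τ g hg hφ using hr
  -- adjacency
  have hadj : ∀ k x y, K.adj x y = true → K.adj (g k x) (g k y) = true := by
    intro k x y hxy
    have hxy' : G.adj (SG.κ k x) (SG.κ k y) = true := by rw [SG.adj]; exact hxy
    obtain ⟨w, hw, e⟩ := h.mem _ _ (G.star_of_adj hxy')
    obtain ⟨w', hw', e'⟩ := h.mem _ _ (G.star_of_adj (G.adj_comm.mp hxy'))
    rw [H.star_iff_of_closed SH.closed] at hw hw'
    rw [h.symm _ _ hxy', e'] at e
    rw [Sym2.eq_iff] at e
    rcases e with ⟨e1, _⟩ | ⟨e1, e2⟩
    · exfalso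
      rw [hφ, hφ] at e1
      have := (SH.inj _ _ _ _ e1).2
      exact K.ne_of_adj hxy ((hg k).1 this).symm
    · rw [← e1, hφ, hφ, SH.adj] at hw
      exact hw
  -- outer edges
  have hout : ∀ k p, K.port p = true →
      h.F (SG.κ k p) (SG.outer k p) = s(SH.κ (τ k) (g k p), SH.outer (τ k) (g k p)) := by
    intro k p hp
    have hp' := port_preserve (hg k) (hadj k) p hp
    obtain ⟨w, hw, e⟩ := h.mem _ _ (G.star_of_adj (SG.outer_adj k p hp))
    rw [H.star_iff_of_closed SH.closed, hφ] at hw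
    rw [e, hφ]
    congr 1
    refine (SH.outer_eq (τ k) (g k p) hp' hw ?_).symm
    intro x hx
    obtain ⟨y, rfl⟩ := (hg k).2 x
    have h1 : K.adj (g k p) (g k y) = true := by
      rw [← SH.adj (τ k), hx]; exact hw
    have h2 := adj_reflect (hg k) (hadj k) p y h1
    have h2' : G.adj (SG.κ k p) (SG.κ k y) = true := by rw [SG.adj]; exact h2
    obtain ⟨w', hw', e'⟩ := h.mem _ _ (G.star_of_adj h2')
    obtain ⟨w'', hw'', e''⟩ := h.mem _ _ (G.star_of_adj (G.adj_comm.mp h2'))
    have e3 : h.F (SG.κ k p) (SG.κ k y) = s(h.φ (SG.κ k p), h.φ (SG.κ k y)) := by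
      rw [← h.symm _ _ h2'] at e''
      rw [e'] at e''
      rw [Sym2.eq_iff] at e''
      rcases e'' with ⟨e1, _⟩ | ⟨e1, e2⟩
      · exfalso
        rw [hφ, hφ] at e1
        have := (SH.inj _ _ _ _ e1).2
        exact K.ne_of_adj h2 ((hg k).1 this)
      · rw [e', e2]
    have e4 : h.F (SG.κ k p) (SG.outer k p) = h.F (SG.κ k p) (SG.κ k y) := by
      rw [e, e3, hφ k y, hx]
    have := h.inj _ _ _ (G.star_of_adj (SG.outer_adj k p hp)) (G.star_of_adj h2') e4
    exact SG.outer_ne k p hp y this.symm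
  refine ⟨τ, ?_⟩
  intro k
  -- comparison of the two ends of the link edges
  have hcmp : ∀ a : Fin 3,
      (τ k = τ (SG.next k) ∧ g k (KRing.out a) = g (SG.next k) (KRing.inn a)) ∨
      SH.outer (τ k) (g k (KRing.out a)) = SH.κ (τ (SG.next k)) (g (SG.next k) (KRing.inn a)) := by
    intro a
    have h1 := hout k _ (KRing.out_port a)
    have h2 := hout (SG.next k) _ (KRing.inn_port a)
    rw [SG.outer_out] at h1
    rw [SG.outer_inn] at h2
    rw [h.symm _ _ (SG.link k a), h2, Sym2.eq_iff] at h1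
    rcases h1 with ⟨e1, _⟩ | ⟨e1, _⟩
    · left
      have := SH.inj _ _ _ _ e1
      exact ⟨this.1.symm, this.2.symm⟩
    · right
      exact e1.symm
  have hw0 : Wk K 5 (g k (KRing.out 0)) (g k (KRing.out 1)) :=
    walk_map (hadj k) 5 _ _ walk_out
  have hP : ∀ a, K.port (g k (KRing.out a)) = true := fun a =>
    port_preserve (hg k) (hadj k) _ (KRing.out_port a)
  have hQ : ∀ a, K.port (g (SG.next k) (KRing.inn a)) = true := fun a =>
    port_preserve (hg _) (hadj _) _ (KRing.inn_port a)
  have hne01 : g k (KRing.out 0) ≠ g k (KRing.out 1) := by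
    intro e
    have := KRing.out_inj ((hg k).1 e)
    exact absurd this (by decide)
  -- the folded case is impossible
  have hnofold : ∀ a : Fin 3, a = 0 ∨ a = 1 → ¬ (τ k = τ (SG.next k) ∧
      g k (KRing.out a) = g (SG.next k) (KRing.inn a)) := by
    rintro a ha ⟨e1, e2⟩
    have hall : ∀ b : Fin 3, g k (KRing.out b) = g (SG.next k) (KRing.inn b) := by
      intro b
      rcases hcmp b with ⟨_, h2⟩ | h2
      · exact h2
      · exfalso
        rw [← e1] at h2
        exact SH.outer_ne (τ k) _ (hP b) _ h2.symm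
    rw [hall 0, hall 1] at hw0
    exact no_walk_inn 0 1 (by decide) (walk_reflect (hg _) (hadj _) 5 _ _ hw0)
  have ho0 := (hcmp 0).resolve_left (hnofold 0 (Or.inl rfl))
  have ho1 := (hcmp 1).resolve_left (hnofold 1 (Or.inr rfl))
  have hτne : τ k ≠ τ (SG.next k) := by
    intro e
    rw [← e] at ho0
    exact SH.outer_ne (τ k) _ (hP 0) _ ho0.symm
  -- if a z-port is joined to a port of another copy in the system, that port is a z-port
  have hzz : ∀ (l l' : SH.ι) (q : K.V), l ≠ l' → K.port q = true →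
      SH.outer l kz = SH.κ l' q → q = kz := by
    intro l l' q hl hq e
    have hadjz : H.adj (SH.κ l kz) (SH.κ l' q) = true := by
      rw [← e]; exact SH.outer_adj l kz kz_port
    rcases port_cases q hq with ⟨a, rfl⟩ | ⟨a, rfl⟩ | h
    · exfalso
      have h1 := SH.outer_eq l' _ (KRing.out_port a) (H.adj_comm.mp hadjz)
        (fun x e => hl (SH.inj _ _ _ _ e).1.symm)
      rw [SH.outer_out] at h1
      exact kz_ne_inn a (SH.inj _ _ _ _ h1).2.symm
    · exfalso
      have h1 := SH.outer_eq l' _ (KRing.inn_port a) (H.adj_comm.mp hadjz)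
        (fun x e => hl (SH.inj _ _ _ _ e).1.symm)
      rw [SH.outer_inn'] at h1
      exact kz_ne_out a (SH.inj _ _ _ _ h1).2.symm
    · exact h
  -- no z-z link between consecutive copies
  have hzprev : ∀ l, SH.outer l kz ≠ SH.κ (SH.next.symm l) kz := by
    intro l e
    have h1 := SH.hz (SH.next.symm l)
    rw [Equiv.apply_symm_apply] at h1
    have h2 := SH.outer_adj l kz kz_port
    rw [e, H.symm, h1] at h2
    exact Bool.noConfusion h2
  have hprev_ne : ∀ l, SH.next.symm l ≠ SH.next l := by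
    intro l e
    have := SH.ne2 (SH.next.symm l)
    rw [Equiv.apply_symm_apply] at this
    exact this e.symm
  rcases port_cases _ (hP 0) with ⟨a, ha⟩ | ⟨a, ha⟩ | ha
  · rw [ha, SH.outer_out] at ho0
    exact (SH.inj _ _ _ _ ho0).1.symm
  · rw [ha, SH.outer_inn'] at ho0
    have hτ := (SH.inj _ _ _ _ ho0).1
    exfalso
    rcases port_cases _ (hP 1) with ⟨b, hb⟩ | ⟨b, hb⟩ | hb
    · rw [hb, SH.outer_out] at ho1
      have := (SH.inj _ _ _ _ ho1).1
      exact hprev_ne _ (hτ.trans this.symm)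
    · rw [ha, hb] at hw0
      refine no_walk_inn a b ?_ hw0
      rintro rfl
      exact hne01 (ha.trans hb.symm)
    · rw [hb] at ho1
      have hq := hzz _ _ _ hτne (hQ 1) ho1
      rw [hq, ← hτ] at ho1
      exact hzprev _ ho1
  · rw [ha] at ho0
    have hq := hzz _ _ _ hτne (hQ 0) ho0
    rw [hq] at ho0
    rcases port_cases _ (hP 1) with ⟨b, hb⟩ | ⟨b, hb⟩ | hb
    · rw [hb, SH.outer_out] at ho1
      exact (SH.inj _ _ _ _ ho1).1.symm
    · exfalso
      rw [hb, SH.outer_inn'] at ho1
      have hτ := (SH.inj _ _ _ _ ho1).1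
      rw [← hτ] at ho0
      exact hzprev _ ho0
    · exact absurd (ha.trans hb.symm) hne01

end

end Pool.Agent.Lib.MP_75ff39_co
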