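import Pool.Agent.Lib.MP_75ff39_co.Compose

set_option autoImplicit false

/-!
# Rings of copies of a pole, and doubles of a pole
-/

namespace Pool.Agent.Lib.MP_75ff39_co

open Finset

/-- `k` outgoing and `k` incoming ports of a pole. -/
structure RingData (X : Pole) (k : ℕ) where
  out : Fin k → X.V
  inn : Fin k → X.V
  out_inj : Function.Injective out
  inn_inj : Function.Injective inn
  disj : ∀ a b, out a ≠ inn b
  out_port : ∀ a, X.port (out a) = true
  inn_port : ∀ a, X.port (inn a) = true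

section

variable {X : Pole} {k : ℕ} (D : RingData X k) (n : ℕ) [Fact (2 ≤ n)]

instance : NeZero n := ⟨by have := Fact.out (p := 2 ≤ n); omega⟩

theorem zmod_succ_ne (i : ZMod n) : i ≠ i + 1 := by
  intro h
  have h1 : (1 : ZMod n) = 0 := by
    have := congrArg (fun x => x - i) h
    simp only [sub_self, add_sub_cancel_left] at this
    exact this.symm
  have h2 : ((1 : ℕ) : ZMod n) = 0 := by exact_mod_cast h1
  rw [ZMod.natCast_eq_zero_iff] at h2
  have := Fact.out (p := 2 ≤ n)
  have := Nat.le_of_dvd one_pos h2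
  omega

/-- The link relation of the ring: the outgoing port `a` of the copy `i` is joined to the incoming
port `a` of the copy `i + 1`. -/
def RingRel (x y : Σ _ : ZMod n, X.V) : Prop :=
  y.1 = x.1 + 1 ∧ ∃ a, x.2 = D.out a ∧ y.2 = D.inn a

instance (x y : Σ _ : ZMod n, X.V) : Decidable (RingRel D n x y) := by
  unfold RingRel; infer_instance

/-- The links of the ring of `n` copies of `X`. -/
def ringLinks : Links (fun _ : ZMod n => X) where
  lk x y := decide (RingRel D n x y ∨ RingRel D n y x)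
  symm x y := by
    rw [decide_eq_decide]
    exact or_comm
  ne x y h := by
    rw [decide_eq_true_eq] at h
    rcases h with ⟨h, _⟩ | ⟨h, _⟩
    · rw [h]; exact zmod_succ_ne n _
    · rw [h]; exact (zmod_succ_ne n _).symm
  port x y h := by
    rw [decide_eq_true_eq] at h
    rcases h with ⟨_, a, h, _⟩ | ⟨_, a, _, h⟩
    · rw [h]; exact D.out_port a
    · rw [h]; exact D.inn_port a
  func x y z h h' := by
    rw [decide_eq_true_eq] at h h'
    rcases h with ⟨h1, a, h2, h3⟩ | ⟨h1, a, h2, h3⟩ <;>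
      rcases h' with ⟨h1', a', h2', h3'⟩ | ⟨h1', a', h2', h3'⟩
    · have : a = a' := D.out_inj (h2.symm.trans h2')
      subst this
      refine Sigma.ext (h1.trans h1'.symm) ?_
      rw [heq_eq_eq, h3, h3']
    · exact absurd (h2.symm.trans h3') (D.disj _ _)
    · exact absurd (h2'.symm.trans h3) (D.disj _ _)
    · have : a = a' := D.inn_inj (h3.symm.trans h3')
      subst this
      refine Sigma.ext ?_ ?_
      · have : y.1 + 1 = z.1 + 1 := h1.symm.trans h1'
        exact add_right_cancel this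
      · rw [heq_eq_eq, h2, h2']

theorem ringLinks_lk {x y : Σ _ : ZMod n, X.V} :
    (ringLinks D n).lk x y = true ↔ (RingRel D n x y ∨ RingRel D n y x) := by
  unfold ringLinks
  simp

theorem ringLinks_out (i : ZMod n) (a : Fin k) :
    (ringLinks D n).lk ⟨i, D.out a⟩ ⟨i + 1, D.inn a⟩ = true := by
  rw [ringLinks_lk]
  exact Or.inl ⟨rfl, a, rfl, rfl⟩

theorem ringLinks_linked {x : Σ _ : ZMod n, X.V} :
    Linked (ringLinks D n) x ↔ ∃ a, x.2 = D.out a ∨ x.2 = D.inn a := by
  constructor
  · rintro ⟨y, hy⟩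
    rw [ringLinks_lk] at hy
    rcases hy with ⟨_, a, h, _⟩ | ⟨_, a, _, h⟩
    · exact ⟨a, Or.inl h⟩
    · exact ⟨a, Or.inr h⟩
  · rintro ⟨a, h | h⟩
    · refine ⟨⟨x.1 + 1, D.inn a⟩, ?_⟩
      rw [ringLinks_lk]
      exact Or.inl ⟨rfl, a, h, rfl⟩
    · refine ⟨⟨x.1 - 1, D.out a⟩, ?_⟩
      rw [ringLinks_lk]
      exact Or.inr ⟨by simp, a, rfl, h⟩

/-- In a cyclic order, a nonempty proper set is left somewhere. -/
theorem exists_leave (n : ℕ) [NeZero n] (J : Finset (ZMod n)) (h1 : J.Nonempty) (h2 : J ≠ univ) :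
    ∃ j ∈ J, j + 1 ∉ J := by
  by_contra hcon
  push Not at hcon
  obtain ⟨j0, hj0⟩ := h1
  have hk : ∀ k : ℕ, j0 + (k : ZMod n) ∈ J := by
    intro k
    induction k with
    | zero => simpa using hj0
    | succ k ih =>
      have := hcon _ ih
      push_cast
      rwa [← add_assoc]
  apply h2
  rw [eq_univ_iff_forall]
  intro x
  have := hk (x - j0).val
  rw [ZMod.natCast_val, ZMod.cast_id', id] at this
  simpa using this

theorem exists_enter (n : ℕ) [NeZero n] (J : Finset (ZMod n)) (h1 : J.Nonempty) (h2 : J ≠ univ) :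
    ∃ j, j ∉ J ∧ j + 1 ∈ J := by
  obtain ⟨j, hj, hj'⟩ := exists_leave n Jᶜ
    (by rw [nonempty_iff_ne_empty]; intro h; rw [compl_eq_empty_iff] at h; exact h2 h)
    (by intro h; rw [compl_eq_univ_iff] at h; exact absurd h (nonempty_iff_ne_empty.mp h1))
  exact ⟨j, mem_compl.mp hj, by simpa using hj'⟩

theorem ring_linkcut (J : Finset (ZMod n)) (h1 : J.Nonempty) (h2 : J ≠ univ) :
    2 * k ≤ linkcut (ringLinks D n) J := by
  obtain ⟨j, hj, hj'⟩ := exists_leave n J h1 h2
  obtain ⟨i, hi, hi'⟩ := exists_enter n J h1 h2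
  let g1 : Fin k → (Σ _ : ZMod n, X.V) × (Σ _ : ZMod n, X.V) :=
    fun a => (⟨j, D.out a⟩, ⟨j + 1, D.inn a⟩)
  let g2 : Fin k → (Σ _ : ZMod n, X.V) × (Σ _ : ZMod n, X.V) :=
    fun a => (⟨i + 1, D.inn a⟩, ⟨i, D.out a⟩)
  have hg1 : Function.Injective g1 := by
    intro a b h
    simp only [g1, Prod.mk.injEq, Sigma.mk.injEq, heq_eq_eq, true_and] at h
    exact D.out_inj h.1
  have hg2 : Function.Injective g2 := by
    intro a b h
    simp only [g2, Prod.mk.injEq, Sigma.mk.injEq, heq_eq_eq, true_and] at h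
    exact D.inn_inj h.1
  have hsub : univ.image g1 ∪ univ.image g2 ⊆
      univ.filter (fun p : (Σ _ : ZMod n, X.V) × (Σ _ : ZMod n, X.V) =>
        p.1.1 ∈ J ∧ p.2.1 ∉ J ∧ (ringLinks D n).lk p.1 p.2 = true) := by
    intro p hp
    simp only [mem_union, mem_image, mem_univ, true_and] at hp
    simp only [mem_filter, mem_univ, true_and]
    rcases hp with ⟨a, rfl⟩ | ⟨a, rfl⟩
    · exact ⟨hj, hj', ringLinks_out D n j a⟩
    · refine ⟨hi', hi, ?_⟩
      rw [(ringLinks D n).symm]
      exact ringLinks_out D n i a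
  have hdisj : Disjoint (univ.image g1) (univ.image g2) := by
    rw [disjoint_left]
    intro p hp hp'
    simp only [mem_image, mem_univ, true_and] at hp hp'
    obtain ⟨a, rfl⟩ := hp
    obtain ⟨b, hb⟩ := hp'
    simp only [g1, g2, Prod.mk.injEq, Sigma.mk.injEq, heq_eq_eq] at hb
    exact D.disj _ _ hb.1.2.symm
  have hcard : (univ.image g1 ∪ univ.image g2).card = 2 * k := by
    rw [card_union_of_disjoint hdisj, card_image_of_injective _ hg1,
      card_image_of_injective _ hg2]
    simp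
    omega
  rw [← hcard]
  exact card_le_card hsub

end

/-! ### Doubles -/

/-- The links of the double: every port is joined to its twin. -/
def twinLinks (X : Pole) : Links (fun _ : Bool => X) where
  lk x y := decide (y.1 = !x.1 ∧ y.2 = x.2 ∧ X.port x.2 = true)
  symm x y := by
    rw [decide_eq_decide]
    constructor
    · rintro ⟨h1, h2, h3⟩
      exact ⟨by rw [h1]; simp, h2.symm, by rw [h2]; exact h3⟩
    · rintro ⟨h1, h2, h3⟩
      exact ⟨by rw [h1]; simp, h2.symm, by rw [h2]; exact h3⟩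
  ne x y h := by
    rw [decide_eq_true_eq] at h
    rw [h.1]
    cases x.1 <;> simp
  port x y h := by
    rw [decide_eq_true_eq] at h
    exact h.2.2
  func x y z h h' := by
    rw [decide_eq_true_eq] at h h'
    refine Sigma.ext (h.1.trans h'.1.symm) ?_
    rw [heq_eq_eq, h.2.1, h'.2.1]

theorem twinLinks_lk {X : Pole} {x y : Σ _ : Bool, X.V} :
    (twinLinks X).lk x y = true ↔ (y.1 = !x.1 ∧ y.2 = x.2 ∧ X.port x.2 = true) := by
  unfold twinLinks
  simp

/-- The double of a pole: two copies with twin ports joined. It is a cubic graph. -/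
def double (X : Pole) : Pole := compose (twinLinks X)

theorem double_closed (X : Pole) : (double X).Closed := by
  rintro ⟨b, v⟩
  change cport (twinLinks X) ⟨b, v⟩ = false
  rw [← Bool.not_eq_true, cport_iff]
  rintro ⟨h1, h2⟩
  apply h2
  refine ⟨⟨!b, v⟩, ?_⟩
  rw [twinLinks_lk]
  exact ⟨rfl, rfl, h1⟩

theorem double_linkcut (X : Pole) (J : Finset Bool) (h1 : J.Nonempty) (h2 : J ≠ univ) :
    X.acount univ ≤ linkcut (twinLinks X) J := by
  obtain ⟨b, hb, hb'⟩ : ∃ b, b ∈ J ∧ (!b) ∉ J := by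
    obtain ⟨b, hb⟩ := h1
    refine ⟨b, hb, ?_⟩
    intro hb'
    apply h2
    rw [eq_univ_iff_forall]
    intro c
    by_cases hc : c = b
    · rw [hc]; exact hb
    · have : c = !b := by cases c <;> cases b <;> simp_all
      rw [this]; exact hb'
  unfold Pole.acount linkcut
  apply card_le_card_of_injOn (fun v => ((⟨b, v⟩, ⟨!b, v⟩) :
    (Σ _ : Bool, X.V) × (Σ _ : Bool, X.V)))
  · intro v hv
    simp only [coe_filter, mem_univ, true_and, Set.mem_ofPred_eq] at hv ⊢
    exact ⟨hb, hb', twinLinks_lk.mpr ⟨rfl, rfl, hv⟩⟩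
  · intro v _ w _ h
    simpa using h

theorem double_strong (X : Pole) (hX : Good X) : (double X).Strong := by
  apply compose_strong (twinLinks X) (fun _ => hX) _ (double_closed X)
  intro J h1 h2
  exact le_trans hX.g0 (double_linkcut X J h1 h2)

end Pool.Agent.Lib.MP_75ff39_co
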