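import Pool.Agent.Lib.MP_75ff39_co.Rigid
import Pool.Agent.Lib.MP_75ff39_co.Conv
import Pool.Agent.Lib.MP_75ff39_co.Conn

set_option autoImplicit false

/-!
# Doubled rings of copies of `K`
-/

namespace Pool.Agent.Lib.MP_75ff39_co

open Finset

section

variable (N : ℕ) [Fact (2 ≤ N)]

/-- The links of the ring of `N` copies of `K`. -/
abbrev NL : Links (fun _ : ZMod N => K) := ringLinks KRing N

/-- The ring of `N` copies of `K`. -/
def KB : Pole := compose (NL N)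

theorem kz_not_linked (i : ZMod N) : ¬ Linked (NL N) ⟨i, kz⟩ := by
  intro h
  obtain ⟨a, h | h⟩ := (ringLinks_linked KRing N).mp h
  · exact kz_ne_out a h
  · exact kz_ne_inn a h

theorem kz_cport (i : ZMod N) : cport (NL N) ⟨i, kz⟩ = true :=
  (cport_iff _).mpr ⟨kz_port, kz_not_linked N i⟩

theorem KB_cacount : N ≤ cacount (NL N) univ := by
  have h : (univ.image (fun i : ZMod N => (⟨i, kz⟩ : Σ _ : ZMod N, K.V))).card = N := by
    rw [card_image_of_injective]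
    · rw [card_univ, ZMod.card]
    · intro i j h
      simpa using h
  conv_lhs => rw [← h]
  unfold cacount
  apply card_le_card
  intro x hx
  rw [mem_image] at hx
  obtain ⟨i, _, rfl⟩ := hx
  rw [mem_filter]
  exact ⟨mem_univ _, kz_cport N i⟩

theorem KB_good (h5 : 5 ≤ N) : Good (KB N) := by
  apply compose_good (NL N) (fun _ => K_good)
  · intro J h1 h2
    have : 2 * 3 ≤ linkcut (NL N) J := ring_linkcut KRing N J h1 h2
    omega
  · exact le_trans h5 (KB_cacount N)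

/-- The double of the ring. -/
def GB : Pole := double (KB N)

theorem GB_closed : (GB N).Closed := double_closed _

theorem GB_strong (h5 : 5 ≤ N) : (GB N).Strong := double_strong _ (KB_good N h5)

/-- The vertex `x` of the copy `i` of `K` in the copy `b` of the ring. -/
def gv (b : Bool) (i : ZMod N) (x : K.V) : (GB N).V :=
  (⟨b, (⟨i, x⟩ : Σ _ : ZMod N, K.V)⟩ : Σ _ : Bool, (KB N).V)

theorem gv_inj {b b' : Bool} {i i' : ZMod N} {x x' : K.V} (h : gv N b i x = gv N b' i' x') :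
    b = b' ∧ i = i' ∧ x = x' := by
  have h1 : (⟨b, (⟨i, x⟩ : Σ _ : ZMod N, K.V)⟩ : Σ _ : Bool, Σ _ : ZMod N, K.V) =
    ⟨b', (⟨i', x'⟩ : Σ _ : ZMod N, K.V)⟩ := h
  simpa using h1

theorem gv_adj_same (b : Bool) (i : ZMod N) (x y : K.V) :
    (GB N).adj (gv N b i x) (gv N b i y) = K.adj x y := by
  change cadj (twinLinks (KB N)) ⟨b, _⟩ ⟨b, _⟩ = _
  rw [cadj_same]
  change cadj (NL N) ⟨i, x⟩ ⟨i, y⟩ = _
  rw [cadj_same]

theorem gv_link (b : Bool) (i : ZMod N) (a : Fin 3) :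
    (GB N).adj (gv N b i (KRing.out a)) (gv N b (i + 1) (KRing.inn a)) = true := by
  change cadj (twinLinks (KB N)) ⟨b, _⟩ ⟨b, _⟩ = _
  rw [cadj_same]
  exact cadj_of_lk (NL N) (ringLinks_out KRing N i a)

theorem gv_hz (b : Bool) (i : ZMod N) :
    (GB N).adj (gv N b i kz) (gv N b (i + 1) kz) = false := by
  change cadj (twinLinks (KB N)) ⟨b, _⟩ ⟨b, _⟩ = _
  rw [cadj_same]
  change cadj (NL N) ⟨i, kz⟩ ⟨i + 1, kz⟩ = _
  rw [cadj_diff (NL N) (by exact zmod_succ_ne N i), ← Bool.not_eq_true]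
  intro h
  exact kz_not_linked N i ⟨_, h⟩

theorem GB_DC : DC (GB N) (fun (k : Σ _ : Bool, Σ _ : ZMod N, Unit) x =>
    gv N k.1 k.2.1 x) :=
  compose_DC (twinLinks (KB N)) (fun _ => compose_DC (NL N) (fun _ => K_DC))

/-- Shifting the copies of `K`. -/
def shiftE : (Σ _ : Bool, Σ _ : ZMod N, Unit) ≃ (Σ _ : Bool, Σ _ : ZMod N, Unit) where
  toFun k := ⟨k.1, ⟨k.2.1 + 1, ()⟩⟩
  invFun k := ⟨k.1, ⟨k.2.1 - 1, ()⟩⟩
  left_inv := by rintro ⟨b, i, u⟩; simp
  right_inv := by rintro ⟨b, i, u⟩; simp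

theorem zmod_two_ne (h3 : 3 ≤ N) (i : ZMod N) : i + 1 + 1 ≠ i := by
  intro h
  have h1 : ((2 : ℕ) : ZMod N) = 0 := by
    have h2 : i + (1 + 1) = i + 0 := by rw [← add_assoc, add_zero]; exact h
    have h3 := add_left_cancel h2
    push_cast
    rw [← h3]
    norm_num
  rw [ZMod.natCast_eq_zero_iff] at h1
  have := Nat.le_of_dvd (by norm_num) h1
  omega

/-- The system of copies of `K` in the doubled ring. -/
def GB_sys (h3 : 3 ≤ N) : KSys (GB N) where
  closed := GB_closed N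
  ι := Σ _ : Bool, Σ _ : ZMod N, Unit
  κ k x := gv N k.1 k.2.1 x
  inj := by
    rintro ⟨b, i, u⟩ ⟨b', i', u'⟩ x x' h
    obtain ⟨rfl, rfl, rfl⟩ := gv_inj N h
    exact ⟨rfl, rfl⟩
  adj := fun k x y => gv_adj_same N _ _ x y
  next := shiftE N
  link := fun k a => gv_link N _ _ a
  ne1 := by
    rintro ⟨b, i, u⟩ h
    have : i + 1 = i := by
      have := congrArg (fun k => k.2.1) h
      exact this
    exact zmod_succ_ne N i this.symm
  ne2 := by
    rintro ⟨b, i, u⟩ h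
    have : i + 1 + 1 = i := by
      have := congrArg (fun k => k.2.1) h
      exact this
    exact zmod_two_ne N h3 i this
  hz := fun k => gv_hz N _ _
  dc := GB_DC N

theorem shift_iter (n : ℕ) (k : Σ _ : Bool, Σ _ : ZMod N, Unit) :
    (shiftE N)^[n] k = ⟨k.1, ⟨k.2.1 + (n : ZMod N), ()⟩⟩ := by
  induction n with
  | zero =>
    obtain ⟨b, i, u⟩ := k
    simp
  | succ n ih =>
    rw [Function.iterate_succ_apply', ih]
    change (⟨k.1, ⟨k.2.1 + (n : ZMod N) + 1, ()⟩⟩ : Σ _ : Bool, Σ _ : ZMod N, Unit) = _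
    push_cast
    rw [add_assoc]

end

theorem dvd_of_hom (N M : ℕ) [Fact (2 ≤ N)] [Fact (2 ≤ M)] (hN : 3 ≤ N) (hM : 3 ≤ M)
    (h : Hom (GB N) (GB M)) : M ∣ N := by
  obtain ⟨τ, hτ⟩ := exists_tau (GB_sys N hN) (GB_sys M hM) h
  have hiter : ∀ (n : ℕ) (k : Σ _ : Bool, Σ _ : ZMod N, Unit),
      τ ((shiftE N)^[n] k) = (shiftE M)^[n] (τ k) := by
    intro n
    induction n with
    | zero => intro k; rfl
    | succ n ih =>
      intro k
      rw [Function.iterate_succ_apply', Function.iterate_succ_apply', ← ih]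
      exact hτ _
  have h1 := hiter N ⟨false, ⟨0, ()⟩⟩
  rw [shift_iter, shift_iter] at h1
  simp only [CharP.cast_eq_zero, add_zero] at h1
  have h2 : (τ ⟨false, ⟨0, ()⟩⟩ : Σ _ : Bool, Σ _ : ZMod M, Unit).2.1 =
      (τ ⟨false, ⟨0, ()⟩⟩ : Σ _ : Bool, Σ _ : ZMod M, Unit).2.1 + (N : ZMod M) := by
    have := congrArg (fun k : Σ _ : Bool, Σ _ : ZMod M, Unit => k.2.1) h1
    exact this
  have h3 : (N : ZMod M) = 0 := by
    have h4 := h2
    nth_rewrite 1 [← add_zero (τ ⟨false, ⟨0, ()⟩⟩ : Σ _ : Bool, Σ _ : ZMod M, Unit).2.1] at h4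
    exact (add_left_cancel h4).symm
  exact (ZMod.natCast_eq_zero_iff N M).mp h3

/-- **Infinite antichain.** -/
theorem antichain (k : ℕ) (hk : k ≤ 5) :
    ∃ (V : ℕ → Type) (_ : ∀ n, Finite (V n)) (G : ∀ n, SimpleGraph (V n)),
      (∀ n, InClass k (G n)) ∧ ∀ m n, m ≠ n → ¬ CCLE (G m) (G n) := by
  let P : ℕ → ℕ := fun n => Nat.nth Nat.Prime (n + 3)
  have hP5 : ∀ n, 5 ≤ P n := by
    intro n
    have := Nat.add_two_le_nth_prime (n + 3)
    change 5 ≤ Nat.nth Nat.Prime (n + 3)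
    omega
  have hPp : ∀ n, (P n).Prime := fun n => Nat.prime_nth_prime _
  have hF : ∀ n, Fact (2 ≤ P n) := fun n => ⟨le_trans (by norm_num) (hP5 n)⟩
  refine ⟨fun n => (@GB (P n) (hF n)).V, fun n => inferInstance,
    fun n => (@GB (P n) (hF n)).toGraph, ?_, ?_⟩
  · intro n
    haveI := hF n
    exact (GB (P n)).inClass_of_strong (GB_closed _) (GB_strong _ (hP5 n))
      ⟨gv (P n) false 0 kz⟩ k hk
  · intro m n hmn h
    haveI := hF n
    haveI := hF m
    obtain ⟨h'⟩ := hom_of_ccle (GB_closed (P m)) (GB_closed (P n)) (GB_strong _ (hP5 n)) h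
    have hd := dvd_of_hom (P m) (P n) (by have := hP5 m; omega) (by have := hP5 n; omega) h'
    have heq := (Nat.prime_dvd_prime_iff_eq (hPp n) (hPp m)).mp hd
    have hinj := Nat.nth_injective Nat.infinite_setOfPred_prime heq
    omega

end Pool.Agent.Lib.MP_75ff39_co
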