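import Pool.Agent.Lib.MP_75ff39_co.Atom

set_option autoImplicit false

/-!
# Representing countable partial orders
-/

namespace Pool.Agent.Lib.MP_75ff39_co

open Finset

section coding

variable (R : ℕ → ℕ → Prop)

/-- A coding of the relation `R` in the free Boolean algebra: `aP R x n` is the value of the
element `n` at the assignment `x`. -/
def aP (x : ℕ → Bool) (n : ℕ) : Prop :=
  (x n = true ∧ ∀ j : Fin n, R n j → aP x j.1) ∨ (∃ i : Fin n, R i n ∧ aP x i.1)
termination_by n
decreasing_by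
  · exact j.2
  · exact i.2

theorem aP_iff (x : ℕ → Bool) (n : ℕ) : aP R x n ↔
    (x n = true ∧ ∀ j < n, R n j → aP R x j) ∨ (∃ i < n, R i n ∧ aP R x i) := by
  rw [aP]
  constructor
  · rintro (⟨h1, h2⟩ | ⟨i, h1, h2⟩)
    · exact Or.inl ⟨h1, fun j hj hR => h2 ⟨j, hj⟩ hR⟩
    · exact Or.inr ⟨i.1, i.2, h1, h2⟩
  · rintro (⟨h1, h2⟩ | ⟨i, hi, h1, h2⟩)
    · exact Or.inl ⟨h1, fun j hR => h2 j.1 j.2 hR⟩
    · exact Or.inr ⟨⟨i, hi⟩, h1, h2⟩

variable {R}

theorem aP_mono (htrans : ∀ a b c, R a b → R b c → R a c) (x : ℕ → Bool) :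
    ∀ i j, R i j → aP R x i → aP R x j := by
  intro i
  induction i using Nat.strong_induction_on with
  | _ i ih =>
    intro j hij hi
    rcases lt_trichotomy i j with h | h | h
    · rw [aP_iff]
      exact Or.inr ⟨i, h, hij, hi⟩
    · rw [← h]; exact hi
    · rw [aP_iff] at hi
      rcases hi with ⟨_, h2⟩ | ⟨l, hl, h1, h2⟩
      · exact h2 j h hij
      · exact ih l hl j (htrans _ _ _ h1 hij) h2

open Classical in
theorem aP_real (htrans : ∀ a b c, R a b → R b c → R a c) (n : ℕ) :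
    ∀ k, aP R (fun k => decide (R n k)) k ↔ R n k := by
  intro k
  induction k using Nat.strong_induction_on with
  | _ k ih =>
    rw [aP_iff]
    constructor
    · rintro (⟨h1, _⟩ | ⟨i, hi, h1, h2⟩)
      · simpa using h1
      · exact htrans _ _ _ ((ih i hi).mp h2) h1
    · intro h
      left
      refine ⟨by simpa using h, ?_⟩
      intro j hj hR
      exact (ih j hj).mpr (htrans _ _ _ h hR)

theorem aP_congr {x y : ℕ → Bool} : ∀ n, (∀ k ≤ n, x k = y k) → (aP R x n ↔ aP R y n) := by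
  intro n
  induction n using Nat.strong_induction_on with
  | _ n ih =>
    intro h
    have h' : ∀ j < n, (aP R x j ↔ aP R y j) := fun j hj =>
      ih j hj (fun k hk => h k (hk.trans hj.le))
    rw [aP_iff, aP_iff, h n le_rfl]
    constructor
    · rintro (⟨h1, h2⟩ | ⟨i, hi, h1, h2⟩)
      · exact Or.inl ⟨h1, fun j hj hR => (h' j hj).mp (h2 j hj hR)⟩
      · exact Or.inr ⟨i, hi, h1, (h' i hi).mp h2⟩
    · rintro (⟨h1, h2⟩ | ⟨i, hi, h1, h2⟩)
      · exact Or.inl ⟨h1, fun j hj hR => (h' j hj).mpr (h2 j hj hR)⟩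
      · exact Or.inr ⟨i, hi, h1, (h' i hi).mpr h2⟩

end coding

/-! ### The lengths of the rings -/

/-- The length of the ring coding the first `n + 1` digits of `x`. -/
noncomputable def rl (x : ℕ → Bool) (n : ℕ) : ℕ :=
  ∏ k ∈ range (n + 1), Nat.nth Nat.Prime (2 * k + (x k).toNat + 10)

theorem rl_prime (x : ℕ → Bool) (k : ℕ) : (Nat.nth Nat.Prime (2 * k + (x k).toNat + 10)).Prime :=
  Nat.prime_nth_prime _

theorem rl_pos (x : ℕ → Bool) (n : ℕ) : 0 < rl x n :=
  prod_pos fun k _ => (rl_prime x k).pos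

theorem rl_ge (x : ℕ → Bool) (n : ℕ) : 6 ≤ rl x n := by
  have h1 : Nat.nth Nat.Prime (2 * 0 + (x 0).toNat + 10) ∣ rl x n :=
    dvd_prod_of_mem _ (mem_range.mpr (Nat.succ_pos n))
  have h2 := Nat.le_of_dvd (rl_pos x n) h1
  have h3 := Nat.add_two_le_nth_prime (2 * 0 + (x 0).toNat + 10)
  omega

theorem rl_dvd {x y : ℕ → Bool} {m n : ℕ} (hmn : m ≤ n) (h : ∀ k ≤ m, x k = y k) :
    rl x m ∣ rl y n := by
  unfold rl
  rw [prod_congr rfl (g := fun k => Nat.nth Nat.Prime (2 * k + (y k).toNat + 10))]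
  · apply prod_dvd_prod_of_subset
    apply range_subset_range.mpr
    omega
  · intro k hk
    rw [mem_range] at hk
    rw [h k (by omega)]

theorem agree_of_dvd {x y : ℕ → Bool} {m n : ℕ} (h : rl x m ∣ rl y n) :
    ∀ k ≤ m, x k = y k := by
  intro k hk
  have h1 : Nat.nth Nat.Prime (2 * k + (x k).toNat + 10) ∣ rl x m :=
    dvd_prod_of_mem _ (mem_range.mpr (by omega))
  have h2 := h1.trans h
  unfold rl at h2
  obtain ⟨k', _, h3⟩ := ((rl_prime x k).prime.dvd_finsetProd_iff _).mp h2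
  have h4 := (Nat.prime_dvd_prime_iff_eq (rl_prime x k) (rl_prime y k')).mp h3
  have h5 := Nat.nth_injective Nat.infinite_setOfPred_prime h4
  have hx : (x k).toNat ≤ 1 := Bool.toNat_le _
  have hy : (y k').toNat ≤ 1 := Bool.toNat_le _
  have h6 : k = k' := by omega
  subst h6
  have h7 : (x k).toNat = (y k).toNat := by omega
  cases hxk : x k <;> cases hyk : y k <;> simp_all

theorem fact_rl (x : ℕ → Bool) (n : ℕ) : Fact (2 ≤ rl x n) := ⟨by have := rl_ge x n; omega⟩

/-- The ring of copies of `K` coding `x`. -/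
noncomputable def rS (x : ℕ → Bool) (n : ℕ) : SPole := @ringS (rl x n) (fact_rl x n) (rl_ge x n)

theorem lens_rS (x : ℕ → Bool) (n N : ℕ) : N ∈ (rS x n).lens ↔ N = rl x n :=
  @lens_ringS (rl x n) (fact_rl x n) (rl_ge x n) N

/-! ### Joins of lists -/

/-- The join of a list of poles. -/
def joinL (L : ℕ) (l : List SPole) : SPole := l.foldr (join L) blk

theorem lens_joinL (L : ℕ) (l : List SPole) (N : ℕ) :
    N ∈ (joinL L l).lens ↔ ∃ X ∈ l, N ∈ X.lens := by
  induction l with
  | nil =>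
    constructor
    · intro h
      exact absurd h (blk_lens N)
    · rintro ⟨X, hX, _⟩
      exact absurd hX List.not_mem_nil
  | cons X l ih =>
    have h : joinL L (X :: l) = join L X (joinL L l) := rfl
    rw [h, lens_join, ih]
    simp

theorem joinL_piece {L : ℕ} {l : List SPole} {H : Pole} (h : Nonempty (Hom (joinL L l).X H)) :
    ∀ X ∈ l, Nonempty (Hom X.X H) := by
  induction l with
  | nil => intro X hX; exact absurd hX List.not_mem_nil
  | cons Y l ih =>
    obtain ⟨h⟩ := h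
    have h' : Hom (join L Y (joinL L l)).X H := h
    intro X hX
    rcases List.mem_cons.mp hX with rfl | hX
    · exact join_left h'
    · exact ih (join_right h') X hX

theorem blk_hom {H : Pole} (hH : H.Closed) (hc : H.toGraph.Connected) :
    Nonempty (Hom blk.X H) := by
  obtain ⟨w⟩ := hc.nonempty
  have h3 := H.adj_card_of_closed hH w
  have : (univ.filter (fun u => H.adj w u = true)).Nonempty := by
    rw [← card_pos]; omega
  obtain ⟨x, hx⟩ := this
  have hx' := (mem_filter.mp hx).2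
  obtain ⟨h, _⟩ := blk_step hH hx' hx'
  exact ⟨h⟩

theorem joinL_hom {L : ℕ} {l : List SPole} {H : Pole} (hH : H.Closed)
    (hc : H.toGraph.Connected) (hL : Fintype.card H.V ≤ L)
    (h : ∀ X ∈ l, Nonempty (Hom X.X H)) : Nonempty (Hom (joinL L l).X H) := by
  induction l with
  | nil => exact blk_hom hH hc
  | cons Y l ih =>
    obtain ⟨h1⟩ := h Y List.mem_cons_self
    obtain ⟨h2⟩ := ih (fun X hX => h X (List.mem_cons_of_mem _ hX))
    exact join_hom hH hc hL h1 h2

/-! ### The construction -/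

section construction

open Classical

variable (R : ℕ → ℕ → Prop)

/-- All assignments supported on the first `n + 1` digits. -/
noncomputable def strs (n : ℕ) : List (ℕ → Bool) :=
  ((univ : Finset (Fin (n + 1) → Bool)).toList).map
    (fun s k => if h : k < n + 1 then s ⟨k, h⟩ else false)

theorem exists_strs (n : ℕ) (y : ℕ → Bool) : ∃ x ∈ strs n, ∀ k ≤ n, x k = y k := by
  refine ⟨fun k => if h : k < n + 1 then y k else false, ?_, ?_⟩
  · unfold strs
    rw [List.mem_map]
    exact ⟨fun i => y i.1, by simp, rfl⟩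
  · intro k hk
    exact dif_pos (by omega)

/-- The condition on the digits of the new rings at stage `n`. -/
def newC (n : ℕ) (x : ℕ → Bool) : Prop := x n = true ∧ ∀ j < n, R n j → aP R x j

/-- The pieces at stage `n`. -/
noncomputable def pieces (n : ℕ) (prev : Fin n → SPole) : List SPole :=
  (((List.finRange n).filter (fun i : Fin n => decide (R i.1 n))).map prev) ++
    (((strs n).filter (fun x => decide (newC R n x))).map (fun x => rS x n))

theorem mem_pieces (n : ℕ) (prev : Fin n → SPole) (X : SPole) : X ∈ pieces R n prev ↔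
    (∃ i : Fin n, R i n ∧ X = prev i) ∨ (∃ x ∈ strs n, newC R n x ∧ X = rS x n) := by
  unfold pieces
  rw [List.mem_append, List.mem_map, List.mem_map]
  constructor
  · rintro (⟨i, hi, rfl⟩ | ⟨x, hx, rfl⟩)
    · rw [List.mem_filter, decide_eq_true_eq] at hi
      exact Or.inl ⟨i, hi.2, rfl⟩
    · rw [List.mem_filter, decide_eq_true_eq] at hx
      exact Or.inr ⟨x, hx.1, hx.2, rfl⟩
  · rintro (⟨i, hi, rfl⟩ | ⟨x, hx, hx', rfl⟩)
    · left
      refine ⟨i, ?_, rfl⟩
      rw [List.mem_filter, decide_eq_true_eq]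
      exact ⟨List.mem_finRange i, hi⟩
    · right
      refine ⟨x, ?_, rfl⟩
      rw [List.mem_filter, decide_eq_true_eq]
      exact ⟨hx, hx'⟩

/-- The pole representing `n`. -/
noncomputable def EP (n : ℕ) : SPole :=
  joinL (∑ i : Fin n, Fintype.card (double (EP i.1).X).V) (pieces R n (fun i => EP i.1))
termination_by n
decreasing_by
  · exact i.2
  · exact i.2

/-- The length of the chains at stage `n`. -/
noncomputable def Lb (n : ℕ) : ℕ := ∑ i : Fin n, Fintype.card (double (EP R i.1).X).V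

theorem EP_eq (n : ℕ) : EP R n = joinL (Lb R n) (pieces R n (fun i => EP R i.1)) := by
  rw [EP]
  rfl

theorem Lb_ge {n m : ℕ} (h : m < n) : Fintype.card (double (EP R m).X).V ≤ Lb R n := by
  unfold Lb
  exact single_le_sum (f := fun i : Fin n => Fintype.card (double (EP R i.1).X).V)
    (fun _ _ => Nat.zero_le _) (mem_univ (⟨m, h⟩ : Fin n))

theorem mem_lens_EP {n N : ℕ} : N ∈ (EP R n).lens ↔
    (∃ i < n, R i n ∧ N ∈ (EP R i).lens) ∨ (∃ x ∈ strs n, newC R n x ∧ N = rl x n) := by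
  rw [EP_eq, lens_joinL]
  constructor
  · rintro ⟨X, hX, hN⟩
    rcases (mem_pieces R n _ X).mp hX with ⟨i, hi, rfl⟩ | ⟨x, hx, hx', rfl⟩
    · exact Or.inl ⟨i.1, i.2, hi, hN⟩
    · exact Or.inr ⟨x, hx, hx', (lens_rS x n N).mp hN⟩
  · rintro (⟨i, hi, hR, hN⟩ | ⟨x, hx, hx', rfl⟩)
    · exact ⟨EP R i, (mem_pieces R n _ _).mpr (Or.inl ⟨⟨i, hi⟩, hR, rfl⟩), hN⟩
    · exact ⟨rS x n, (mem_pieces R n _ _).mpr (Or.inr ⟨x, hx, hx', rfl⟩),
        (lens_rS x n _).mpr rfl⟩

variable {R}

theorem F1 (htrans : ∀ a b c, R a b → R b c → R a c) : ∀ m, ∀ N ∈ (EP R m).lens,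
    ∀ y j, N ∣ rl y j → aP R y m := by
  intro m
  induction m using Nat.strong_induction_on with
  | _ m ih =>
    intro N hN y j hd
    rcases (mem_lens_EP R).mp hN with ⟨i, hi, hR, hN'⟩ | ⟨x, _, hx, rfl⟩
    · exact aP_mono htrans y i m hR (ih i hi N hN' y j hd)
    · have hag := agree_of_dvd hd
      rw [aP_iff]
      left
      refine ⟨by rw [← hag m le_rfl]; exact hx.1, ?_⟩
      intro i hi hR
      rw [← aP_congr i (fun k hk => hag k (hk.trans hi.le))]
      exact hx.2 i hi hR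

theorem F2 : ∀ n, ∀ y j, n ≤ j → aP R y n → ∃ N ∈ (EP R n).lens, N ∣ rl y j := by
  intro n
  induction n using Nat.strong_induction_on with
  | _ n ih =>
    intro y j hj h
    rw [aP_iff] at h
    rcases h with ⟨h1, h2⟩ | ⟨i, hi, h1, h2⟩
    · obtain ⟨x, hx, hxy⟩ := exists_strs n y
      refine ⟨rl x n, (mem_lens_EP R).mpr (Or.inr ⟨x, hx, ⟨?_, ?_⟩, rfl⟩), rl_dvd hj hxy⟩
      · rw [hxy n le_rfl]; exact h1
      · intro i hi hR
        rw [aP_congr i (fun k hk => hxy k (hk.trans hi.le))]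
        exact h2 i hi hR
    · obtain ⟨N, hN, hd⟩ := ih i hi y j (by omega) h2
      exact ⟨N, (mem_lens_EP R).mpr (Or.inl ⟨i, hi, h1, hN⟩), hd⟩

theorem F3 : ∀ n, ∀ N ∈ (EP R n).lens, ∀ H : Pole, Nonempty (Hom (EP R n).X H) →
    ∃ F : Fact (2 ≤ N), Nonempty (Hom (@KB N F) H) := by
  intro n
  induction n using Nat.strong_induction_on with
  | _ n ih =>
    intro N hN H h
    rw [EP_eq] at h
    have hp := joinL_piece h
    rcases (mem_lens_EP R).mp hN with ⟨i, hi, hR, hN'⟩ | ⟨x, hx, hx', rfl⟩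
    · exact ih i hi N hN' H (hp _ ((mem_pieces R n _ _).mpr (Or.inl ⟨⟨i, hi⟩, hR, rfl⟩)))
    · exact ⟨fact_rl x n, hp _ ((mem_pieces R n _ _).mpr (Or.inr ⟨x, hx, hx', rfl⟩))⟩

/-- The cubic graph representing `n`, as a closed pole. -/
noncomputable def GP (R : ℕ → ℕ → Prop) (n : ℕ) : Pole := double (EP R n).X

theorem GP_closed (n : ℕ) : (GP R n).Closed := double_closed _

theorem GP_strong (n : ℕ) : (GP R n).Strong := double_strong _ (EP R n).good

theorem GP_nonempty (n : ℕ) : Nonempty (GP R n).V :=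
  ⟨(⟨true, (EP R n).sp 0⟩ : Σ _ : Bool, (EP R n).X.V)⟩

theorem GP_inClass (n k : ℕ) (hk : k ≤ 5) : InClass k (GP R n).toGraph :=
  (GP R n).inClass_of_strong (GP_closed n) (GP_strong n) (GP_nonempty n) k hk

theorem GP_self (n : ℕ) : Nonempty (Hom (EP R n).X (GP R n)) :=
  Hom.of_double (Hom.id (double (EP R n).X))

theorem EP_hom (htrans : ∀ a b c, R a b → R b c → R a c) :
    ∀ n m, R n m → Nonempty (Hom (EP R n).X (GP R m)) := by
  intro n
  induction n using Nat.strong_induction_on with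
  | _ n ih =>
    intro m hR
    rcases lt_trichotomy n m with h | h | h
    · have h1 : Nonempty (Hom (joinL (Lb R m) (pieces R m (fun i => EP R i.1))).X (GP R m)) := by
        have := GP_self (R := R) m
        rw [EP_eq] at this
        exact this
      exact joinL_piece h1 _ ((mem_pieces R m _ _).mpr (Or.inl ⟨⟨n, h⟩, hR, rfl⟩))
    · subst h
      exact GP_self n
    · rw [EP_eq]
      apply joinL_hom (GP_closed m) (GP_inClass m 5 le_rfl).1 (Lb_ge R h)
      intro X hX
      rcases (mem_pieces R n _ X).mp hX with ⟨i, hi, rfl⟩ | ⟨x, hx, hx', rfl⟩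
      · exact ih i.1 i.2 m (htrans _ _ _ hi hR)
      · obtain ⟨N, hN, hd⟩ := F2 (R := R) m x n h.le (hx'.2 m h hR)
        obtain ⟨F, ⟨h1⟩⟩ := F3 (R := R) m N hN (GP R m) (GP_self m)
        have := F
        have := fact_rl x n
        exact cover_hom (rl x n) N hd h1

theorem GP_ccle_iff (hrefl : ∀ a, R a a) (htrans : ∀ a b c, R a b → R b c → R a c) (n m : ℕ) :
    CCLE (GP R n).toGraph (GP R m).toGraph ↔ R n m := by
  constructor
  · intro h
    obtain ⟨h'⟩ := hom_of_ccle (GP_closed n) (GP_closed m) (GP_strong m) h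
    have h1 : aP R (fun k => decide (R n k)) n := (aP_real htrans n n).mpr (hrefl n)
    obtain ⟨N, ⟨k, hk⟩, hd⟩ := F2 (R := R) n _ n le_rfl h1
    let SG : PSys (GP R n) := PSys.compose (twinLinks (EP R n).X) (fun _ => (EP R n).sys)
    let SH : PSys (GP R m) := PSys.compose (twinLinks (EP R m).X) (fun _ => (EP R m).sys)
    obtain ⟨k', hk'⟩ := exists_per_dvd (GP_closed n) (GP_closed m) SG SH h'
      (⟨true, k⟩ : Σ _ : Bool, (EP R n).sys.ι)
    let k'' : Σ _ : Bool, (EP R m).sys.ι := k'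
    have h2 : (EP R m).sys.per k''.2 ∣ (EP R n).sys.per k := hk'
    have h3 := F1 htrans m ((EP R m).sys.per k''.2) ⟨_, rfl⟩ _ n (h2.trans (hk ▸ hd))
    exact (aP_real htrans n m).mp h3
  · intro h
    obtain ⟨h1⟩ := EP_hom htrans n m h
    obtain ⟨h2⟩ := h1.to_double
    exact h2.ccle (GP_closed n) (GP_closed m)

end construction

/-- **Countable partial orders are represented.** -/
theorem universal {P : Type*} [PartialOrder P] [Countable P] (k : ℕ) (hk : k ≤ 5) :
    ∃ (V : P → Type) (_ : ∀ p, Finite (V p)) (G : ∀ p, SimpleGraph (V p)),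
      (∀ p, InClass k (G p)) ∧ ∀ p q, CCLE (G p) (G q) ↔ p ≤ q := by
  obtain ⟨e, he⟩ := exists_injective_nat P
  let R : ℕ → ℕ → Prop := fun a b => a = b ∨ ∃ p q, e p = a ∧ e q = b ∧ p ≤ q
  have hrefl : ∀ a, R a a := fun a => Or.inl rfl
  have htrans : ∀ a b c, R a b → R b c → R a c := by
    rintro a b c (rfl | ⟨p, q, h1, h2, h3⟩) (h | ⟨p', q', h1', h2', h3'⟩)
    · exact Or.inl h
    · exact Or.inr ⟨p', q', h1', h2', h3'⟩
    · rw [← h]; exact Or.inr ⟨p, q, h1, h2, h3⟩
    · have : q = p' := he (h2.trans h1'.symm)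
      subst this
      exact Or.inr ⟨p, q', h1, h2', h3.trans h3'⟩
  have hR : ∀ p q, R (e p) (e q) ↔ p ≤ q := by
    intro p q
    constructor
    · rintro (h | ⟨p', q', h1, h2, h3⟩)
      · rw [he h]
      · rw [← he h1, ← he h2]; exact h3
    · intro h
      exact Or.inr ⟨p, q, rfl, rfl, h⟩
  refine ⟨fun p => (GP R (e p)).V, fun p => inferInstance, fun p => (GP R (e p)).toGraph, ?_, ?_⟩
  · intro p
    exact GP_inClass (e p) k hk
  · intro p q
    rw [← hR]
    exact GP_ccle_iff hrefl htrans _ _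

end Pool.Agent.Lib.MP_75ff39_co
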